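import Mathlib

set_option autoImplicit false

namespace Pool.Agent.Lib.MP_2a83f9_an

universe u

/-- The basis is shrinking: the coordinate functionals form a Schauder basis of the dual. -/
def Shrinking {X : Type u} [NormedAddCommGroup X] [NormedSpace ℂ X] (b : SchauderBasis ℂ X) :
    Prop :=
  ∃ c : SchauderBasis ℂ (StrongDual ℂ X), ∀ n, c n = b.coord n

/-- The map `f` is a linear homeomorphism (a bounded linear bijection with bounded inverse). -/
def IsLinHomeo {E F : Type u} [AddCommGroup E] [Module ℂ E] [TopologicalSpace E]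
    [AddCommGroup F] [Module ℂ F] [TopologicalSpace F] (f : E → F) : Prop :=
  ∃ e : E ≃L[ℂ] F, ∀ x, e x = f x

/-- The product `(S, l) (T, m) = (S T + l T + m S, l m)` of the unitization. -/
def uMul {B : Type u} [Ring B] [Algebra ℂ B] (p q : B × ℂ) : B × ℂ :=
  (p.1 * q.1 + p.2 • q.1 + q.2 • p.1, p.2 * q.2)

/-- The image under `f` of the class of `T`, as a pair in `B × ℂ`. -/
def uImg {A B : Type u} [Ring A] [Algebra ℂ A] [Ring B] [Algebra ℂ B] (I : Submodule ℂ A)
    (K : Submodule ℂ B) (f : A ⧸ I → K × ℂ) (T : A) : B × ℂ :=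
  ((f (Submodule.Quotient.mk T)).1, (f (Submodule.Quotient.mk T)).2)

/-- The quotient `A / I` is isomorphic, as a normed algebra, to the unitization `K ⊕ ℂ` of
`K`: a linear homeomorphism `f` from `A / I` onto `K × ℂ` carries the class of `S T` to the
product of the images of the classes of `S` and `T`. -/
def QuotIsoUnitization {A B : Type u} [NormedRing A] [NormedAlgebra ℂ A] [NormedRing B]
    [NormedAlgebra ℂ B] (I : Submodule ℂ A) (K : Submodule ℂ B) : Prop :=
  ∃ f : A ⧸ I → K × ℂ, IsLinHomeo f ∧
    ∀ S T, uImg I K f (S * T) = uMul (uImg I K f S) (uImg I K f T)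

/-- The compact operators on `X`, as a subspace of the bounded operators. -/
def Compacts (X : Type u) [NormedAddCommGroup X] [NormedSpace ℂ X] : Submodule ℂ (X →L[ℂ] X) :=
  compactOperator (RingHom.id ℂ) X X

/-- The Calkin algebra `L(Y) / K(Y)` is isomorphic to the unitization of `K(X)`. -/
def CalkinIsoUnitization (Y X : Type u) [NormedAddCommGroup Y] [NormedSpace ℂ Y]
    [NormedAddCommGroup X] [NormedSpace ℂ X] : Prop :=
  QuotIsoUnitization (Compacts Y) (Compacts X)

end Pool.Agent.Lib.MP_2a83f9_an
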