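import Mathlib
import Pool.Agent.Lib.MP_2a83f9_an.Stmt

set_option autoImplicit false

open Filter Topology

noncomputable section

namespace Pool.Agent.Lib.MP_2a83f9_an

universe u

/-- The Calkin space: bounded operators modulo compact operators. -/
abbrev Calkin (Y : Type u) [NormedAddCommGroup Y] [NormedSpace ℂ Y] : Type u :=
  (Y →L[ℂ] Y) ⧸ compactOperator (RingHom.id ℂ) Y Y

/-- The class of an operator in the Calkin space. -/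
abbrev cal {Y : Type u} [NormedAddCommGroup Y] [NormedSpace ℂ Y] (T : Y →L[ℂ] Y) : Calkin Y :=
  Submodule.Quotient.mk T

/-- The Calkin algebra of `Y` is isomorphic, as a Banach algebra, to the unitization
`K(X) ⊕ ℂ` of the compact operators on `X`: there is a linear homeomorphism `e` from
`L(Y)/K(Y)` onto `K(X) × ℂ` that carries the product of classes of operators to the product
`(S, l) (T, m) = (S T + l T + m S, l m)`. -/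
def CalkinIsoAux (Y : Type u) [NormedAddCommGroup Y] [NormedSpace ℂ Y]
    (X : Type u) [NormedAddCommGroup X] [NormedSpace ℂ X] : Prop :=
  ∃ e : Calkin Y ≃L[ℂ] (compactOperator (RingHom.id ℂ) X X × ℂ),
    ∀ S T : Y →L[ℂ] Y,
      ((e (cal (S * T))).1 : X →L[ℂ] X) =
          ((e (cal S)).1 : X →L[ℂ] X) * ((e (cal T)).1 : X →L[ℂ] X) +
            (e (cal S)).2 • ((e (cal T)).1 : X →L[ℂ] X) +
            (e (cal T)).2 • ((e (cal S)).1 : X →L[ℂ] X) ∧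
        (e (cal (S * T))).2 = (e (cal S)).2 * (e (cal T)).2

theorem CalkinIsoAux.iso {Y X : Type u} [NormedAddCommGroup Y] [NormedSpace ℂ Y]
    [NormedAddCommGroup X] [NormedSpace ℂ X] (h : CalkinIsoAux Y X) :
    CalkinIsoUnitization Y X := by
  obtain ⟨e, he⟩ := h
  exact ⟨fun x => e x, ⟨e, fun _ => rfl⟩, fun S T => Prod.ext (he S T).1 (he S T).2⟩

/-! Families of finite sets of levels. -/

abbrev Fam := Set (Finset ℕ)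

/-- `H` meets the interval between the predecessor of `p` in `D` (excluded) and `p` (included). -/
def Hit (D H : Finset ℕ) (p : ℕ) : Prop := ∃ h ∈ H, h ≤ p ∧ ∀ q ∈ D, q < p → q < h

open Classical in
/-- The weight of the points of `J` whose interval is met by `H`. -/
def mass (D H : Finset ℕ) (a : ℕ → ℝ) (J : Finset ℕ) : ℝ := ∑ p ∈ J.filter (Hit D H), a p

/-- Convex weights on `D` (without its minimum) that are small on every set of the family. -/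
structure GoodW (𝓗 : Fam) (ε : ℝ) (D : Finset ℕ) (a : ℕ → ℝ) : Prop where
  nonneg : ∀ p, 0 ≤ a p
  supp : ∀ p, a p ≠ 0 → p ∈ D ∧ ∃ q ∈ D, q < p
  sum_one : ∑ p ∈ D, a p = 1
  small : ∀ H ∈ 𝓗, mass D H a D ≤ ε

def Good (𝓗 : Fam) (ε : ℝ) (D : Finset ℕ) : Prop := ∃ a, GoodW 𝓗 ε D a

def Null (𝓗 : Fam) : Prop :=
  ∀ ε : ℝ, 0 < ε → ∀ M : Set ℕ, M.Infinite → ∃ D : Finset ℕ, (↑D : Set ℕ) ⊆ M ∧ Good 𝓗 ε D

/-- `G` is covered by sets of the family on every interval that avoids `D`. -/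
def Cov (𝓗 : Fam) (D G : Finset ℕ) : Prop :=
  ∀ s t : ℕ, (∀ d ∈ D, ¬ (s < d ∧ d ≤ t)) → ∃ H ∈ 𝓗, ∀ g ∈ G, s < g → g ≤ t → g ∈ H

def conv (𝓕 𝓗 : Fam) : Fam := {G | ∃ D ∈ 𝓕, Cov 𝓗 D G}

def iter (𝓤 : Fam) : ℕ → Fam
  | 0 => {∅}
  | d + 1 => conv 𝓤 (iter 𝓤 d)

/-- The weights. -/
def dl (j : ℕ) : ℝ := (1 / 4 : ℝ) ^ (2 ^ j)

def dep (j : ℕ) : ℕ := 2 ^ (j + 1)

def notGood (𝓤 : Fam) (j : ℕ) : Fam :=
  {D | ∀ p ∈ D, ¬ Good (iter 𝓤 (dep j + 2)) (dl (j + 1)) (D.filter (· < p))}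

def lowF (𝓖 : ℕ → Fam) : ℕ → Fam
  | 0 => ∅
  | j + 1 => lowF 𝓖 j ∪ notGood (lowF 𝓖 j ∪ 𝓖 j ∪ {G | G.card ≤ 1}) j

def UU (𝓖 : ℕ → Fam) (j : ℕ) : Fam := lowF 𝓖 j ∪ 𝓖 j ∪ {G | G.card ≤ 1}

def HH (𝓖 : ℕ → Fam) (j d : ℕ) : Fam := iter (UU 𝓖 j) d

/-- Special convex weights of level `j`. -/
def SccW (𝓖 : ℕ → Fam) (j : ℕ) (D : Finset ℕ) (a : ℕ → ℝ) : Prop :=
  GoodW (HH 𝓖 j (dep j + 2)) (dl (j + 1)) D a

def GoodJ (𝓖 : ℕ → Fam) (j : ℕ) (D : Finset ℕ) : Prop := ∃ a, SccW 𝓖 j D a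

/-- Admissible chains of weight index `j`. -/
def adm (𝓖 : ℕ → Fam) (j : ℕ) : Fam := {D | ∀ p ∈ D, ¬ GoodJ 𝓖 j (D.filter (· < p))}

/-! Trees of nodes. -/

abbrev Om := ℕ ⊕ ℕ

abbrev Cmb := Om →₀ ℚ × ℚ

def cf (c : ℚ × ℚ) : ℂ := (c.1 : ℂ) + (c.2 : ℂ) * Complex.I

def bsum (b : Cmb) : ℝ := ∑ ω ∈ b.support, ‖cf (b ω)‖

def sing (η : ℕ) : Cmb := Finsupp.single (Sum.inr η) (1, 0)

def cls (j : ℕ) : ℕ := j / 2 % 2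

def sg (a ξ : ℕ) : ℕ := 4 * ξ + 4 + 2 * a

structure Tree (𝓖 : ℕ → Fam) (a : ℕ) where
  w : ℕ → ℕ
  par : ℕ → Option ℕ
  b : ℕ → Cmb
  D : ℕ → Finset ℕ
  cls_w : ∀ γ, cls (w γ) = a
  root_D : ∀ γ, par γ = none → D γ = {γ}
  par_lt : ∀ γ ξ, par γ = some ξ → ξ < γ
  par_w : ∀ γ ξ, par γ = some ξ → w γ = w ξ
  par_D : ∀ γ ξ, par γ = some ξ → D γ = insert γ (D ξ)
  par_good : ∀ γ ξ, par γ = some ξ → ¬ GoodJ 𝓖 (w γ) (D ξ)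
  par_bsum : ∀ γ ξ, par γ = some ξ → bsum (b γ) ≤ 1
  par_supp : ∀ γ ξ, par γ = some ξ → ∀ η, Sum.inr η ∈ (b γ).support → η < γ
  par_odd : ∀ γ ξ, par γ = some ξ → Odd (w γ) →
    ∃ η, b γ = sing η ∧ w η = sg a ξ ∧ w γ < sg a ξ
  rich_root : ∀ j, cls j = a → ∀ n, ∃ γ, n ≤ γ ∧ par γ = none ∧ w γ = j
  rich_child : ∀ ξ c, ¬ GoodJ 𝓖 (w ξ) (D ξ) → bsum c ≤ 1 →
    (Odd (w ξ) → ∃ η, c = sing η ∧ w η = sg a ξ ∧ w ξ < sg a ξ) →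
    ∀ n, ∃ γ, n ≤ γ ∧ par γ = some ξ ∧ b γ = c

/-! The base space and the extended space. -/

structure Base (𝓖 : ℕ → Fam) (V : Type u) [NormedAddCommGroup V] [NormedSpace ℂ V] where
  R : ℕ → V →L[ℂ] V
  φ : ℕ → V →L[ℂ] ℂ
  K : ℝ
  two_le : 2 ≤ K
  R_norm : ∀ n, ‖R n‖ ≤ K
  R_comp : ∀ n m v, R n (R m v) = R (min n m) v
  φ_norm : ∀ i, ‖φ i‖ ≤ 1
  norming : ∀ (v : V) (c : ℝ), 0 ≤ c → (∀ i, ‖φ i v‖ ≤ c) → ‖v‖ ≤ c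
  leaf : ∀ (j i : ℕ) (H : Finset ℕ),
    (∀ h₁ ∈ H, ∀ h ∈ H, ∀ h₂ ∈ H, h₁ < h → h < h₂ →
      ∃ v : V, R (h₁ + 1) v = 0 ∧ R h₂ v = v ∧ ‖v‖ ≤ 1 ∧ dl (j + 1) ≤ ‖φ i v‖) → H ∈ 𝓖 j

/-- The functional coded by a finite rational combination of coordinates. -/
def bf {Y : Type u} [NormedAddCommGroup Y] [NormedSpace ℂ Y] (e : Om → Y →L[ℂ] ℂ) (c : Cmb) :
    Y →L[ℂ] ℂ := ∑ ω ∈ c.support, cf (c ω) • e ω

structure BD (𝓖 : ℕ → Fam) (a : ℕ) (Y : Type u) [NormedAddCommGroup Y] [NormedSpace ℂ Y] where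
  t : Tree 𝓖 a
  e : Om → Y →L[ℂ] ℂ
  P : ℕ → Y →L[ℂ] Y
  M : ℝ
  two_le : 2 ≤ M
  e_norm : ∀ ω, ‖e ω‖ ≤ 1
  norming : ∀ (y : Y) (c : ℝ), 0 ≤ c → (∀ ω, ‖e ω y‖ ≤ c) → ‖y‖ ≤ c
  P_norm : ∀ n, ‖P n‖ ≤ M
  P_comp : ∀ n m y, P n (P m y) = P (min n m) y
  P_tendsto : ∀ y, Tendsto (fun n => P n y) atTop (𝓝 y)
  coord : ∀ γ n y, γ < n → e (Sum.inr γ) (P n y) = e (Sum.inr γ) y
  rec_root : ∀ γ y, t.par γ = none → e (Sum.inr γ) (P γ y) = 0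
  rec_child : ∀ γ ξ y, t.par γ = some ξ → e (Sum.inr γ) (P γ y) =
    e (Sum.inr ξ) y + (dl (t.w γ) : ℂ) * bf e (t.b γ) (P γ y - P (ξ + 1) y)
  leaf : ∀ (j i : ℕ) (H : Finset ℕ),
    (∀ h₁ ∈ H, ∀ h ∈ H, ∀ h₂ ∈ H, h₁ < h → h < h₂ →
      ∃ y : Y, P (h₁ + 1) y = 0 ∧ P h₂ y = y ∧ ‖y‖ ≤ 1 ∧ dl (j + 1) ≤ ‖e (Sum.inl i) y‖) →
    H ∈ 𝓖 j
  split : ∀ (y : Y) (s n : ℕ) (W : Set ℕ), P s y = 0 → P n y = y →
    ∃ y' : Y, P s y' = 0 ∧ P n y' = y' ∧ ‖y'‖ ≤ M * ‖y‖ ∧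
      (∀ γ, γ < n → γ ∈ W → e (Sum.inr γ) y' = e (Sum.inr γ) y) ∧
      (∀ γ, γ < n → γ ∉ W → e (Sum.inr γ) y' = 0)
  unit : ∀ γ, ∃ y : Y, P γ y = 0 ∧ P (γ + 1) y = y ∧ ‖y‖ ≤ M ∧ e (Sum.inr γ) y = 1

/-- The link between the extended space and the base space. -/
structure Link {𝓖 : ℕ → Fam} {a : ℕ} {V : Type u} [NormedAddCommGroup V] [NormedSpace ℂ V]
    {Y : Type u} [NormedAddCommGroup Y] [NormedSpace ℂ Y] (B : Base 𝓖 V) (s : BD 𝓖 a Y) where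
  π : Y →L[ℂ] V
  ι : ℕ → V →L[ℂ] Y
  π_norm : ‖π‖ ≤ 1
  ι_norm : ∀ n, ‖ι n‖ ≤ s.M
  e_inl : ∀ i y, s.e (Sum.inl i) y = B.φ i (π y)
  π_ι : ∀ n v, π (ι n v) = B.R n v
  ι_R : ∀ n v, ι n (B.R n v) = ι n v
  P_sub : ∀ n, IsCompactOperator (s.P n - (ι n).comp π)
  ι_sub : ∀ n m, n ≤ m → IsCompactOperator (ι n - (ι m).comp (B.R n))

/-! Block families and sequences. -/

section
variable {𝓖 : ℕ → Fam} {a : ℕ} {Y : Type u} [NormedAddCommGroup Y] [NormedSpace ℂ Y]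

structure BFam (s : BD 𝓖 a Y) (D J : Finset ℕ) (x : ℕ → Y) (C : ℝ) : Prop where
  sub : J ⊆ D
  low : ∀ p ∈ J, ∀ q ∈ D, q < p → s.P (q + 1) (x p) = 0
  high : ∀ p ∈ J, s.P (p + 1) (x p) = x p
  norm : ∀ p ∈ J, ‖x p‖ ≤ C

def cmb (c : ℕ → ℝ) (J : Finset ℕ) (x : ℕ → Y) : Y := ∑ p ∈ J, (c p : ℂ) • x p

/-- An estimate of the functional `f` on a combination. -/
def Est (D : Finset ℕ) (x : ℕ → Y) (c : ℕ → ℝ) (C : ℝ) (f : Y →L[ℂ] ℂ) (𝓗 : Fam) (μ : ℝ)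
    (J : Finset ℕ) : Prop :=
  ∃ H ∈ 𝓗, ‖f (cmb c J x)‖ ≤ C * mass D H c J + C * μ * ∑ p ∈ J, c p

/-- Bounded sequences with finite ranges that go to infinity. -/
structure Blk (s : BD 𝓖 a Y) (x : ℕ → Y) : Prop where
  fin : ∀ k, ∃ n, s.P n (x k) = x k
  far : ∀ n, ∀ᶠ k in atTop, s.P n (x k) = 0
  bdd : ∃ C : ℝ, ∀ k, ‖x k‖ ≤ C

/-- Rapidly increasing sequences, asymptotic form. -/
structure RIS (s : BD 𝓖 a Y) (x : ℕ → Y) : Prop where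
  blk : Blk s x
  est : ∃ C : ℝ, ∀ h, ∀ᶠ k in atTop, ∀ γ, s.t.w γ = h → ‖s.e (Sum.inr γ) (x k)‖ ≤ C * dl h

/-- Rapidly increasing sequences, strong form. -/
structure SRIS (s : BD 𝓖 a Y) (C : ℝ) (x : ℕ → Y) : Prop where
  fin : ∀ k, ∃ n, s.P n (x k) = x k
  far : ∀ n, ∀ᶠ k in atTop, s.P n (x k) = 0
  bdd : ∀ k, ‖x k‖ ≤ C
  exc : ∀ γ, ∃ k₀, ∀ k, k ≠ k₀ → ‖s.e (Sum.inr γ) (x k)‖ ≤ C * dl (s.t.w γ)

end

/-! The injective tensor product. -/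

structure Ten {X : Type u} [NormedAddCommGroup X] [NormedSpace ℂ X] (b : SchauderBasis ℂ X)
    (Z : Type) [NormedAddCommGroup Z] [NormedSpace ℂ Z]
    (V : Type u) [NormedAddCommGroup V] [NormedSpace ℂ V] where
  act : (X →L[ℂ] X) →ₗ[ℂ] (V →L[ℂ] V)
  tens : X →ₗ[ℂ] (Z →L[ℂ] V)
  sl : ℕ → V →L[ℂ] Z
  act_norm : ∀ A, ‖act A‖ ≤ ‖A‖
  act_comp : ∀ A B v, act A (act B v) = act (A.comp B) v
  act_tens : ∀ A x z, act A (tens x z) = tens (A x) z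
  tens_norm : ∀ x z, ‖tens x z‖ = ‖x‖ * ‖z‖
  act_proj : ∀ n v, act (b.proj n) v = ∑ i ∈ Finset.range n, tens (b i) (sl i v)

/-- The families attached to a basis. -/
def famX {X : Type u} [NormedAddCommGroup X] [NormedSpace ℂ X] (b : SchauderBasis ℂ X) (j : ℕ) :
    Fam :=
  {H | ∃ f : X →L[ℂ] ℂ, ‖f‖ ≤ 1 ∧ ∀ h₁ ∈ H, ∀ h ∈ H, ∀ h₂ ∈ H, h₁ < h → h < h₂ →
    ∃ x : X, b.proj (h₁ + 1) x = 0 ∧ b.proj h₂ x = x ∧ ‖x‖ ≤ 1 ∧ dl (j + 1) ≤ ‖f x‖}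

end Pool.Agent.Lib.MP_2a83f9_an
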