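import Mathlib
import Pool.Agent.Lib.MP_2a83f9_an.Defs

set_option autoImplicit false

open Filter Topology

noncomputable section

namespace Pool.Agent.Lib.MP_2a83f9_an

universe u v

theorem dl_pos (j : ℕ) : 0 < dl j := by unfold dl; positivity

theorem dl_succ (j : ℕ) : dl (j + 1) = dl j * dl j := by
  unfold dl
  rw [← pow_add, pow_succ, mul_two]

theorem dl_le (j : ℕ) : dl j ≤ 1 / 4 := by
  unfold dl
  exact pow_le_of_le_one (by norm_num) (by norm_num) (by positivity)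

theorem dl_anti {i j : ℕ} (h : i ≤ j) : dl j ≤ dl i :=
  pow_le_pow_of_le_one (by norm_num) (by norm_num) (Nat.pow_le_pow_right (by norm_num) h)

theorem dl_dep (j : ℕ) : (1 / 4 : ℝ) ^ dep j = dl (j + 1) := rfl

theorem dl_tendsto : Tendsto dl atTop (𝓝 0) :=
  (tendsto_pow_atTop_nhds_zero_of_lt_one (r := (1 / 4 : ℝ)) (by norm_num) (by norm_num)).comp
    (tendsto_pow_atTop_atTop_of_one_lt (r := (2 : ℕ)) (by norm_num))

theorem Hit.anti {D D' H : Finset ℕ} {p : ℕ} (h : D ⊆ D') (hh : Hit D' H p) : Hit D H p := by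
  obtain ⟨g, hg, h1, h2⟩ := hh
  exact ⟨g, hg, h1, fun q hq => h2 q (h hq)⟩

theorem mass_nonneg {D H J : Finset ℕ} {c : ℕ → ℝ} (hc : ∀ p, 0 ≤ c p) : 0 ≤ mass D H c J :=
  Finset.sum_nonneg fun p _ => hc p

theorem fam_sum_le {S T : Finset ℕ} {c : ℕ → ℝ} (hc : ∀ p, 0 ≤ c p)
    (h : ∀ p ∈ S, c p ≠ 0 → p ∈ T) : ∑ p ∈ S, c p ≤ ∑ p ∈ T, c p := by
  classical
  rw [← Finset.sum_filter_ne_zero]
  exact Finset.sum_le_sum_of_subset_of_nonneg
    (fun p hp => h p (Finset.mem_filter.1 hp).1 (Finset.mem_filter.1 hp).2) fun p _ _ => hc p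

theorem mass_mono {D H H' J J' : Finset ℕ} {c : ℕ → ℝ} (hc : ∀ p, 0 ≤ c p) (hJ : J ⊆ J')
    (h : ∀ p ∈ J, Hit D H p → Hit D H' p) : mass D H c J ≤ mass D H' c J' := by
  classical
  unfold mass
  refine fam_sum_le hc fun p hp _ => ?_
  rw [Finset.mem_filter] at hp ⊢
  exact ⟨hJ hp.1, h p hp.1 hp.2⟩

theorem fam_sum_eq {𝓗 : Fam} {ε : ℝ} {D D' : Finset ℕ} {a : ℕ → ℝ} (hg : GoodW 𝓗 ε D a)
    (h : D ⊆ D') : ∑ p ∈ D', a p = 1 := by
  rw [← hg.sum_one]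
  refine (Finset.sum_subset h fun p _ hp => ?_).symm
  by_contra hne
  exact hp (hg.supp p hne).1

theorem Good.mono {𝓗 : Fam} {ε : ℝ} {D D' : Finset ℕ} (h : D ⊆ D') (hg : Good 𝓗 ε D) :
    Good 𝓗 ε D' := by
  classical
  obtain ⟨a, ha⟩ := hg
  refine ⟨a, ha.nonneg, fun p hp => ?_, fam_sum_eq ha h, fun H hH => le_trans ?_ (ha.small H hH)⟩
  · obtain ⟨h1, q, hq, h2⟩ := ha.supp p hp
    exact ⟨h h1, q, h hq, h2⟩
  · unfold mass
    refine fam_sum_le ha.nonneg fun p hp hne => ?_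
    rw [Finset.mem_filter] at hp ⊢
    exact ⟨(ha.supp p hne).1, hp.2.anti h⟩

theorem Null.mono {𝓕 𝓗 : Fam} (h : 𝓕 ⊆ 𝓗) (hn : Null 𝓗) : Null 𝓕 := by
  intro ε hε M hM
  obtain ⟨D, hD, a, ha⟩ := hn ε hε M hM
  exact ⟨D, hD, a, ha.nonneg, ha.supp, ha.sum_one, fun H hH => ha.small H (h hH)⟩

theorem null_small : Null {G : Finset ℕ | G.card ≤ 1} := by
  classical
  intro ε hε M hM
  obtain ⟨r, hr⟩ := exists_nat_one_div_lt hε
  obtain ⟨D, hDM, hD⟩ := hM.exists_subset_card_eq (r + 2)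
  have hne : D.Nonempty := Finset.card_pos.1 (by omega)
  have hm := D.min'_mem hne
  have hpos : (0 : ℝ) < (r : ℝ) + 1 := by positivity
  have h0 : ∀ p, 0 ≤ (if p ∈ D.erase (D.min' hne) then 1 / ((r : ℝ) + 1) else 0) := fun p => by
    split_ifs <;> positivity
  refine ⟨D, hDM, fun p => if p ∈ D.erase (D.min' hne) then 1 / ((r : ℝ) + 1) else 0, h0,
    fun p hp => ?_, ?_, fun H hH => ?_⟩
  · have hp' : p ∈ D.erase (D.min' hne) := by
      by_contra hn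
      exact hp (if_neg hn)
    rw [Finset.mem_erase] at hp'
    exact ⟨hp'.2, _, hm, lt_of_le_of_ne (D.min'_le p hp'.2) hp'.1.symm⟩
  · rw [Finset.sum_ite_mem, Finset.inter_eq_right.2 (Finset.erase_subset _ _), Finset.sum_const,
      Finset.card_erase_of_mem hm, hD, nsmul_eq_mul]
    push_cast
    field_simp
  · unfold mass
    have hc : (D.filter (Hit D H)).card ≤ 1 := by
      rw [Finset.card_le_one]
      intro p hp q hq
      rw [Finset.mem_filter] at hp hq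
      obtain ⟨g, hg, g1, g2⟩ := hp.2
      obtain ⟨g', hg', g3, g4⟩ := hq.2
      have : g = g' := Finset.card_le_one.1 hH g hg g' hg'
      subst this
      have e1 := g2 q hq.1
      have e2 := g4 p hp.1
      omega
    refine (Finset.sum_le_card_nsmul _ _ (1 / ((r : ℝ) + 1)) fun p _ => ?_).trans ?_
    · dsimp only
      split_ifs
      · exact le_rfl
      · positivity
    · rw [nsmul_eq_mul]
      have : ((D.filter (Hit D H)).card : ℝ) ≤ 1 := by exact_mod_cast hc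
      have h1 : (0 : ℝ) ≤ 1 / ((r : ℝ) + 1) := by positivity
      nlinarith

/-- Two-stage averaging. -/
theorem Null.glue {𝓕 𝓚 : Fam} {𝓗 : ℕ → Fam} (hF : Null 𝓕) (hH : ∀ s, Null (𝓗 s))
    (h : ∀ G ∈ 𝓚, ∃ D ∈ 𝓕, ∀ s t : ℕ, (∀ d ∈ D, ¬ (s < d ∧ d ≤ t)) →
      ∃ H ∈ 𝓗 s, ∀ g ∈ G, s < g → g ≤ t → g ∈ H) : Null 𝓚 := by
  classical
  intro ε hε M hM
  have h1 : ∀ n : ℕ, ∃ (D : Finset ℕ) (a : ℕ → ℝ) (m : ℕ), (∀ p ∈ D, p ∈ M ∧ n < p ∧ p ≤ m) ∧
      n < m ∧ GoodW (𝓗 n) (ε / 2) D a := by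
    intro n
    obtain ⟨D, hD, a, ha⟩ := hH n (ε / 2) (by positivity) (M \ Set.Iic n)
      (hM.sdiff (Set.finite_Iic n))
    refine ⟨D, a, max (D.sup id) (n + 1), fun p hp => ⟨(hD hp).1, not_le.1 (hD hp).2,
      le_max_of_le_left (Finset.le_sup (f := id) hp)⟩, by omega, ha⟩
  choose D a mx hD hmx ha using h1
  let ns : ℕ → ℕ := fun i => Nat.rec 0 (fun _ n => mx n) i
  have hns : StrictMono ns := strictMono_nat_of_lt_succ fun i => hmx _
  have hinf : (Set.range fun i => ns (i + 1)).Infinite :=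
    Set.infinite_range_of_injective fun i j hij => Nat.succ_injective (hns.injective hij)
  obtain ⟨D', hD', b, hb⟩ := hF (ε / 2) (by positivity) _ hinf
  have h2 : ∀ p ∈ D', ∃ n, mx n = p ∧ ∀ q ∈ D', q < p → q ≤ n := by
    intro p hp
    obtain ⟨i, rfl⟩ := hD' hp
    refine ⟨ns i, rfl, fun q hq hlt => ?_⟩
    obtain ⟨j, rfl⟩ := hD' hq
    have hlt' : ns (j + 1) < ns (i + 1) := hlt
    have hji : j + 1 ≤ i := Nat.lt_succ_iff.1 (hns.lt_iff_lt.1 hlt')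
    exact hns.monotone hji
  choose! pr hpr1 hpr2 using h2
  have hsub : ∀ p ∈ D', D (pr p) ⊆ D'.biUnion fun p => D (pr p) := fun p hp =>
    Finset.subset_biUnion_of_mem (fun p => D (pr p)) hp
  refine ⟨D'.biUnion fun p => D (pr p), fun x hx => ?_, fun x => ∑ p ∈ D', b p * a (pr p) x,
    fun x => Finset.sum_nonneg fun p _ => mul_nonneg (hb.nonneg p) ((ha _).nonneg x),
    fun x hx => ?_, ?_, fun G hG => ?_⟩
  · obtain ⟨p, -, hp⟩ := Finset.mem_biUnion.1 (Finset.mem_coe.1 hx)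
    exact (hD _ x hp).1
  · obtain ⟨p, hp, hne⟩ := Finset.exists_ne_zero_of_sum_ne_zero hx
    obtain ⟨g1, q, hq, g2⟩ := (ha _).supp x (right_ne_zero_of_mul hne)
    exact ⟨hsub p hp g1, q, hsub p hp hq, g2⟩
  · rw [Finset.sum_comm, ← hb.sum_one]
    refine Finset.sum_congr rfl fun p hp => ?_
    rw [← Finset.mul_sum, fam_sum_eq (ha _) (hsub p hp), mul_one]
  · obtain ⟨E, hE, hcov⟩ := h G hG
    have hs := hb.small E hE
    unfold mass at hs ⊢
    rw [Finset.sum_comm]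
    have key : ∀ p ∈ D', ∑ x ∈ (D'.biUnion fun p => D (pr p)).filter
        (Hit (D'.biUnion fun p => D (pr p)) G), b p * a (pr p) x ≤
        (if Hit D' E p then b p else 0) + b p * (ε / 2) := by
      intro p hp
      rw [← Finset.mul_sum]
      have hbp := hb.nonneg p
      split_ifs with hh
      · have : ∑ x ∈ (D'.biUnion fun p => D (pr p)).filter
            (Hit (D'.biUnion fun p => D (pr p)) G), a (pr p) x ≤ 1 := by
          rw [← (ha (pr p)).sum_one]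
          exact fam_sum_le (ha _).nonneg fun x _ hx => ((ha _).supp x hx).1
        nlinarith
      · rw [zero_add]
        refine mul_le_mul_of_nonneg_left ?_ hbp
        obtain ⟨H, hH', hGH⟩ := hcov (pr p) p fun d hd hc =>
          hh ⟨d, hd, hc.2, fun q hq hlt => (hpr2 p hp q hq hlt).trans_lt hc.1⟩
        refine le_trans ?_ ((ha (pr p)).small H hH')
        unfold mass
        refine fam_sum_le (ha _).nonneg fun x hx hne => ?_
        rw [Finset.mem_filter] at hx ⊢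
        obtain ⟨g1, q, hq, g2⟩ := (ha _).supp x hne
        obtain ⟨g, hg, g3, g4⟩ := hx.2
        refine ⟨g1, g, hGH g hg ((hD _ q hq).2.1.trans (g4 q (hsub p hp hq) g2)) ?_, g3,
          fun q hq => g4 q (hsub p hp hq)⟩
        exact g3.trans ((hD _ x g1).2.2.trans (hpr1 p hp).le)
    refine (Finset.sum_le_sum key).trans ?_
    rw [Finset.sum_add_distrib, ← Finset.sum_filter, ← Finset.sum_mul, hb.sum_one]
    linarith

theorem fam_insert {𝓕 : Fam} (hF : Null 𝓕) : Null (insert ∅ 𝓕) := by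
  classical
  intro ε hε M hM
  obtain ⟨D, hD, a, ha⟩ := hF ε hε M hM
  refine ⟨D, hD, a, ha.nonneg, ha.supp, ha.sum_one, fun H hH => ?_⟩
  rcases hH with rfl | hH
  · unfold mass
    rw [Finset.filter_false_of_mem fun p _ hp => by obtain ⟨g, hg, -⟩ := hp; simp at hg]
    simpa using hε.le
  · exact ha.small H hH

theorem Null.union {𝓕 𝓗 : Fam} (hF : Null 𝓕) (hH : Null 𝓗) : Null (𝓕 ∪ 𝓗) := by
  refine Null.glue (fam_insert hF) (fun _ => fam_insert hH) fun G hG => ?_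
  rcases hG with hG | hG
  · exact ⟨G, Or.inr hG, fun s t hs => ⟨∅, Or.inl rfl, fun g hg h1 h2 => (hs g hg ⟨h1, h2⟩).elim⟩⟩
  · exact ⟨∅, Or.inl rfl, fun s t _ => ⟨G, Or.inr hG, fun g hg _ _ => hg⟩⟩

/-- The sets of the family with minimum `k`, without that minimum. -/
def famQuo (𝓕 : Fam) (k : ℕ) : Fam :=
  {H | ∃ G ∈ 𝓕, k ∈ G ∧ (∀ g ∈ G, k ≤ g) ∧ H = G.erase k}

theorem fam_null_of_quo {𝓕 : Fam} (h : ∀ k, Null (famQuo 𝓕 k)) : Null 𝓕 := by
  have h1 : ∀ s : ℕ, Null {H | H = ∅ ∨ ∃ k < s, H ∈ famQuo 𝓕 k} := by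
    intro s
    induction s with
    | zero =>
      refine Null.mono ?_ null_small
      rintro H (rfl | ⟨k, hk, -⟩)
      · simp
      · omega
    | succ s ih =>
      refine Null.mono ?_ (ih.union (h s))
      rintro H (rfl | ⟨k, hk, hH⟩)
      · exact Or.inl (Or.inl rfl)
      · rcases Nat.lt_succ_iff_lt_or_eq.1 hk with hk | rfl
        · exact Or.inl (Or.inr ⟨k, hk, hH⟩)
        · exact Or.inr hH
  refine Null.glue null_small (fun s => h1 (s + 1)) fun G hG => ?_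
  rcases G.eq_empty_or_nonempty with rfl | hne
  · exact ⟨∅, by simp, fun s t _ => ⟨∅, Or.inl rfl, fun g hg _ _ => hg⟩⟩
  · refine ⟨{G.min' hne}, by simp, fun s t hs => ?_⟩
    have h2 := hs _ (Finset.mem_singleton_self _)
    by_cases h3 : G.min' hne ≤ s
    · refine ⟨G.erase (G.min' hne), Or.inr ⟨_, Nat.lt_succ_of_le h3, G, hG, G.min'_mem hne,
        fun g hg => G.min'_le g hg, rfl⟩, fun g hg g1 _ => Finset.mem_erase.2 ⟨by omega, hg⟩⟩
    · refine ⟨∅, Or.inl rfl, fun g hg _ g2 => ?_⟩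
      have := G.min'_le g hg
      omega

theorem null_of_thin {𝓕 : Fam}
    (h : ∀ t : ℕ → ℕ, StrictMono t → ∃ r, ∀ D ∈ 𝓕, ¬ ∀ i ≤ r, t i ∈ D) : Null 𝓕 := by
  by_contra hn
  have h1 : ∀ 𝓔 : Fam, ¬ Null 𝓔 → ∃ k, ¬ Null (famQuo 𝓔 k) := fun 𝓔 hE => by
    by_contra hc
    exact hE (fam_null_of_quo fun k => not_not.1 fun hk => hc ⟨k, hk⟩)
  choose! nx hnx using h1
  let Fs : ℕ → Fam := fun i => Nat.rec 𝓕 (fun _ 𝓔 => famQuo 𝓔 (nx 𝓔)) i
  have e1 : ∀ i, ¬ Null (Fs i) := fun i => by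
    induction i with
    | zero => exact hn
    | succ i ih => exact hnx _ ih
  have e2 : ∀ i, (Fs i).Nonempty := fun i => by
    by_contra hc
    rw [Set.not_nonempty_iff_eq_empty] at hc
    exact e1 i (hc ▸ Null.mono (Set.empty_subset _) null_small)
  have e3 : ∀ i, ∀ H ∈ Fs i, ∃ G ∈ 𝓕, H ⊆ G ∧ ∀ j < i, nx (Fs j) ∈ G := fun i => by
    induction i with
    | zero => exact fun H hH => ⟨H, hH, Finset.Subset.refl _, fun j hj => by omega⟩
    | succ i ih =>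
      rintro H ⟨G', hG', g1, -, rfl⟩
      obtain ⟨G, hG, g2, g3⟩ := ih G' hG'
      refine ⟨G, hG, (Finset.erase_subset _ _).trans g2, fun j hj => ?_⟩
      rcases Nat.lt_succ_iff_lt_or_eq.1 hj with hj | rfl
      · exact g3 j hj
      · exact g2 g1
  have e4 : StrictMono fun i => nx (Fs i) := strictMono_nat_of_lt_succ fun i => by
    obtain ⟨H, G', ⟨G, -, -, g1, rfl⟩, g2, -⟩ := e2 (i + 2)
    rw [Finset.mem_erase] at g2
    exact lt_of_le_of_ne (g1 _ g2.2) g2.1.symm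
  obtain ⟨r, hr⟩ := h _ e4
  obtain ⟨H, hH⟩ := e2 (r + 1)
  obtain ⟨G, hG, -, g⟩ := e3 (r + 1) H hH
  exact hr G hG fun i hi => g i (Nat.lt_succ_of_le hi)

theorem fam_null_iter {𝓤 : Fam} (h : Null 𝓤) (d : ℕ) : Null (iter 𝓤 d) := by
  induction d with
  | zero =>
    refine Null.mono ?_ null_small
    rintro H rfl
    simp
  | succ d ih => exact Null.glue h (fun _ => ih) fun G hG => hG

theorem fam_exists_good {𝓗 : Fam} (h : Null 𝓗) {ε : ℝ} (hε : 0 < ε) {t : ℕ → ℕ}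
    (ht : StrictMono t) : ∃ N, Good 𝓗 ε ((Finset.range (N + 1)).image t) := by
  obtain ⟨D, hD, hg⟩ := h ε hε _ (Set.infinite_range_of_injective ht.injective)
  refine ⟨D.sup id, hg.mono fun d hd => ?_⟩
  obtain ⟨i, rfl⟩ := hD hd
  exact Finset.mem_image_of_mem t (Finset.mem_range.2 (Nat.lt_succ_of_le
    (ht.le_apply.trans (Finset.le_sup (f := id) hd))))

theorem fam_null_notGood {𝓤 : Fam} (h : Null 𝓤) (j : ℕ) : Null (notGood 𝓤 j) := by
  refine null_of_thin fun t ht => ?_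
  obtain ⟨N, hN⟩ := fam_exists_good (fam_null_iter h (dep j + 2)) (dl_pos (j + 1)) ht
  refine ⟨N + 1, fun D hD hc => hD (t (N + 1)) (hc _ le_rfl) (hN.mono fun d hd => ?_)⟩
  obtain ⟨i, hi, rfl⟩ := Finset.mem_image.1 hd
  rw [Finset.mem_range] at hi
  exact Finset.mem_filter.2 ⟨hc i hi.le, ht hi⟩

theorem fam_null_lowF {𝓖 : ℕ → Fam} (h : ∀ j, Null (𝓖 j)) (j : ℕ) : Null (lowF 𝓖 j) := by
  induction j with
  | zero => exact Null.mono (Set.empty_subset _) null_small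
  | succ j ih => exact ih.union (fam_null_notGood ((ih.union (h j)).union null_small) j)

theorem null_HH {𝓖 : ℕ → Fam} (h : ∀ j, Null (𝓖 j)) (j d : ℕ) : Null (HH 𝓖 j d) :=
  fam_null_iter (((fam_null_lowF h j).union (h j)).union null_small) d

theorem adm_subset_UU {𝓖 : ℕ → Fam} {h j : ℕ} (hj : h < j) : adm 𝓖 h ⊆ UU 𝓖 j := by
  have h1 : Monotone (lowF 𝓖) := monotone_nat_of_le_succ fun j => Set.subset_union_left
  intro D hD
  exact Or.inl (Or.inl (h1 (Nat.succ_le_of_lt hj) (Or.inr hD)))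

theorem fam_empty_mem_UU (𝓖 : ℕ → Fam) (j : ℕ) : (∅ : Finset ℕ) ∈ UU 𝓖 j := Or.inr (by simp)

theorem empty_mem_HH (𝓖 : ℕ → Fam) (j d : ℕ) : (∅ : Finset ℕ) ∈ HH 𝓖 j d := by
  induction d with
  | zero => rfl
  | succ d ih => exact ⟨∅, fam_empty_mem_UU 𝓖 j, fun s t _ => ⟨∅, ih, fun g hg _ _ => hg⟩⟩

theorem UU_subset_HH (𝓖 : ℕ → Fam) (j d : ℕ) : UU 𝓖 j ⊆ HH 𝓖 j (d + 1) := fun G hG =>
  ⟨G, hG, fun _ _ hs => ⟨∅, empty_mem_HH 𝓖 j d, fun g hg h1 h2 => (hs g hg ⟨h1, h2⟩).elim⟩⟩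

theorem HH_mono (𝓖 : ℕ → Fam) (j : ℕ) {d d' : ℕ} (h : d ≤ d') : HH 𝓖 j d ⊆ HH 𝓖 j d' := by
  have h1 : Monotone (HH 𝓖 j) := monotone_nat_of_le_succ fun d G hG =>
    ⟨∅, fam_empty_mem_UU 𝓖 j, fun _ _ _ => ⟨G, hG, fun g hg _ _ => hg⟩⟩
  exact h1 h

theorem mem_HH_succ {𝓖 : ℕ → Fam} {j d : ℕ} {D G : Finset ℕ} (hD : D ∈ UU 𝓖 j)
    (hG : Cov (HH 𝓖 j d) D G) : G ∈ HH 𝓖 j (d + 1) := ⟨D, hD, hG⟩

/-- Every increasing sequence has a first good initial segment. -/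
theorem exists_first_good {𝓖 : ℕ → Fam} (h : ∀ j, Null (𝓖 j)) (j : ℕ) (t : ℕ → ℕ)
    (ht : StrictMono t) :
    ∃ N, GoodJ 𝓖 j ((Finset.range (N + 1)).image t) ∧
      ∀ r < N, ¬ GoodJ 𝓖 j ((Finset.range (r + 1)).image t) := by
  classical
  have h1 : ∃ N, GoodJ 𝓖 j ((Finset.range (N + 1)).image t) :=
    fam_exists_good (null_HH h j (dep j + 2)) (dl_pos (j + 1)) ht
  exact ⟨Nat.find h1, Nat.find_spec h1, fun r hr => Nat.find_min h1 hr⟩

end Pool.Agent.Lib.MP_2a83f9_an
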