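import Mathlib
import Pool.Agent.Lib.MP_2a83f9_an.Fam

set_option autoImplicit false

open Filter Topology BoundedContinuousFunction

noncomputable section

namespace Pool.Agent.Lib.MP_2a83f9_an

universe u v

variable {X : Type u} [NormedAddCommGroup X] [NormedSpace ℂ X] [CompleteSpace X]

theorem Shrinking.tail {b : SchauderBasis ℂ X} (hb : Shrinking b) (f : X →L[ℂ] ℂ) :
    Tendsto (fun n => ‖f - f.comp (b.proj n)‖) atTop (𝓝 0) := by
  obtain ⟨c, hc⟩ := hb
  have h1 := c.tendsto_proj f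
  have h2 : ∀ j, c.coord j f = f (b j) := fun j => by
    have h3 : Tendsto (fun n => c.proj n f (b j)) atTop (𝓝 (f (b j))) :=
      ((ContinuousLinearMap.apply ℂ ℂ (b j)).continuous.tendsto f).comp h1
    refine (tendsto_nhds_unique h3 (tendsto_const_nhds.congr' ?_)).symm
    filter_upwards [eventually_gt_atTop j] with n hn
    simp [hc, b.ortho, Pi.single_apply, hn]
  have h4 : ∀ n, f.comp (b.proj n) = c.proj n f := fun n => by
    ext x
    simp [hc, h2, mul_comm]
  simp only [h4]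
  exact tendsto_iff_norm_sub_tendsto_zero.1 h1 |>.congr fun n => norm_sub_rev _ _

theorem null_famX {b : SchauderBasis ℂ X} (hb : Shrinking b) (j : ℕ) : Null (famX b j) := by
  refine null_of_thin fun t ht => ?_
  by_contra hcon
  push Not at hcon
  choose D hD hDt using hcon
  choose f hf hfx using hD
  let U : Ultrafilter ℕ := hyperfilter ℕ
  have hU : (U : Filter ℕ) ≤ atTop := Nat.cofinite_eq_atTop ▸ hyperfilter_le_cofinite
  obtain ⟨F, -, hF⟩ := (WeakDual.isCompact_closedBall (𝕜 := ℂ) (0 : StrongDual ℂ X) 1).ultrafilter_le_nhds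
    (U.map fun r => StrongDual.toWeakDual (f r)) (by
      rw [Ultrafilter.coe_map, le_principal_iff, mem_map]
      exact Eventually.of_forall fun r => by simpa using hf r)
  set F' : X →L[ℂ] ℂ := WeakDual.toStrongDual F
  have hlim : ∀ x, Tendsto (fun r => f r x) U (𝓝 (F' x)) := fun x =>
    ((WeakDual.eval_continuous x).tendsto F).comp hF
  have hδ := dl_pos (j + 1)
  have key : ∀ i, dl (j + 1) / 2 ≤ ‖F' - F'.comp (b.proj (t i + 1))‖ := fun i => by
    have h1 : Tendsto (fun r => ∑ k ∈ Finset.range (t (i + 2)),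
        ‖b.coord k‖ * ‖f r (b k) - F' (b k)‖) U (𝓝 0) := by
      have := tendsto_finsetSum (Finset.range (t (i + 2))) fun k _ =>
        (tendsto_iff_norm_sub_tendsto_zero.1 (hlim (b k))).const_mul ‖b.coord k‖
      simpa using this
    obtain ⟨r, hr1, hr2⟩ := ((h1.eventually (gt_mem_nhds (half_pos hδ))).and
      (hU (eventually_ge_atTop (i + 2)))).exists
    obtain ⟨x, hx1, hx2, hx3, hx4⟩ := hfx r _ (hDt r i (by omega)) _ (hDt r (i + 1) (by omega)) _
      (hDt r (i + 2) hr2) (ht (by omega)) (ht (by omega))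
    have h2 : ‖f r x - F' x‖ ≤ ∑ k ∈ Finset.range (t (i + 2)),
        ‖b.coord k‖ * ‖f r (b k) - F' (b k)‖ := by
      conv_lhs => rw [← hx2, b.proj_apply, map_sum, map_sum, ← Finset.sum_sub_distrib]
      refine (norm_sum_le _ _).trans (Finset.sum_le_sum fun k _ => ?_)
      rw [map_smul, map_smul, ← smul_sub, norm_smul]
      exact mul_le_mul_of_nonneg_right ((b.coord k).unit_le_opNorm x hx3) (norm_nonneg _)
    have h3 := (F' - F'.comp (b.proj (t i + 1))).unit_le_opNorm x hx3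
    rw [_root_.sub_apply, ContinuousLinearMap.comp_apply, hx1, map_zero,
      sub_zero] at h3
    have h4 := norm_sub_norm_le (f r x) (F' x)
    linarith
  have h5 := (hb.tail F').comp ((tendsto_add_atTop_nat 1).comp ht.tendsto_atTop)
  exact absurd (ge_of_tendsto' h5 key) (not_le.2 (half_pos hδ))

theorem tensor_norming (b : SchauderBasis ℂ X) : ∃ F : ℕ → X →L[ℂ] ℂ, (∀ k, ‖F k‖ ≤ 1) ∧
    ∀ (x : X) (c : ℝ), (∀ k, ‖F k x‖ ≤ c) → ‖x‖ ≤ c := by
  have : TopologicalSpace.SeparableSpace X := by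
    rw [← TopologicalSpace.isSeparable_univ_iff]
    refine ((Set.countable_range b).isSeparable.span (R := ℂ)).closure.mono fun x _ => ?_
    refine mem_closure_of_tendsto (b.tendsto_proj x) (Eventually.of_forall fun n => ?_)
    rw [b.proj_apply]
    exact Submodule.sum_mem _ fun i _ => Submodule.smul_mem _ _ (Submodule.subset_span ⟨i, rfl⟩)
  obtain ⟨d, hd⟩ := TopologicalSpace.exists_dense_seq X
  choose F hF hF' using fun k => exists_dual_vector'' ℂ (d k)
  refine ⟨F, hF, fun x c h => le_of_forall_pos_le_add fun ε hε => ?_⟩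
  obtain ⟨k, hk⟩ := hd.exists_dist_lt x (half_pos hε)
  rw [dist_eq_norm] at hk
  have h1 : ‖F k (d k)‖ = ‖d k‖ := by rw [hF']; simp
  have h2 : ‖F k (x - d k)‖ ≤ ‖x - d k‖ := by simpa using (F k).le_of_opNorm_le (hF k) (x - d k)
  have h3 := norm_sub_norm_le x (d k)
  have h4 := norm_sub_le (F k x) (F k (x - d k))
  rw [← map_sub, sub_sub_cancel] at h4
  linarith [h k]

section
variable {Z : Type} [NormedAddCommGroup Z] [NormedSpace ℂ Z]

/-- The isometric embedding given by a norming sequence. -/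
def tensorJ (g : ℕ → Z →L[ℂ] ℂ) (hg : ∀ n, ‖g n‖ ≤ 1)
    (hn : ∀ (z : Z) (c : ℝ), 0 ≤ c → (∀ n, ‖g n z‖ ≤ c) → ‖z‖ ≤ c) : Z →ₗᵢ[ℂ] (ℕ →ᵇ ℂ) where
  toFun z := ofNormedAddCommGroupDiscrete (fun n => g n z) ‖z‖
    fun n => by simpa using (g n).le_of_opNorm_le (hg n) z
  map_add' z w := by ext n; simp
  map_smul' c z := by ext n; simp
  norm_map' z := le_antisymm
    ((norm_le (norm_nonneg _)).2 fun n => by simpa using (g n).le_of_opNorm_le (hg n) z)
    (hn _ _ (norm_nonneg _) fun n => norm_coe_le_norm (ofNormedAddCommGroupDiscrete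
      (fun n => g n z) ‖z‖ fun n => by simpa using (g n).le_of_opNorm_le (hg n) z) n)

/-- The tensor product as a space of bounded sequences. -/
def tensorS (X : Type u) [NormedAddCommGroup X] [NormedSpace ℂ X] (J : Z →ₗᵢ[ℂ] (ℕ →ᵇ ℂ)) :
    Submodule ℂ (ℕ →ᵇ X) :=
  ⨅ f : X →L[ℂ] ℂ, J.toLinearMap.range.comap (f.compLeftContinuousBounded ℕ).toLinearMap

omit [CompleteSpace X] in
theorem mem_tensorS {J : Z →ₗᵢ[ℂ] (ℕ →ᵇ ℂ)} {w : ℕ →ᵇ X} :
    w ∈ tensorS X J ↔ ∀ f : X →L[ℂ] ℂ, ∃ z, ∀ n, J z n = f (w n) := by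
  simp only [tensorS, Submodule.mem_iInf, Submodule.mem_comap, LinearMap.mem_range,
    BoundedContinuousFunction.ext_iff]
  rfl

omit [CompleteSpace X] in
theorem isClosed_tensorS [CompleteSpace Z] (J : Z →ₗᵢ[ℂ] (ℕ →ᵇ ℂ)) :
    IsClosed (tensorS X J : Set (ℕ →ᵇ X)) := by
  rw [tensorS, Submodule.coe_iInf]
  exact isClosed_iInter fun f => J.isometry.isClosedEmbedding.isClosed_range.preimage
    (f.compLeftContinuousBounded ℕ).continuous

/-- The action of operators. -/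
def tensorAct (J : Z →ₗᵢ[ℂ] (ℕ →ᵇ ℂ)) (A : X →L[ℂ] X) : tensorS X J →L[ℂ] tensorS X J :=
  ((A.compLeftContinuousBounded ℕ).comp (tensorS X J).subtypeL).codRestrict _ fun w =>
    mem_tensorS.2 fun f => mem_tensorS.1 w.2 (f.comp A)

omit [CompleteSpace X] in
@[simp] theorem tensorAct_apply (J : Z →ₗᵢ[ℂ] (ℕ →ᵇ ℂ)) (A : X →L[ℂ] X) (w : tensorS X J)
    (n : ℕ) : (tensorAct J A w : ℕ →ᵇ X) n = A ((w : ℕ →ᵇ X) n) := rfl

/-- Elementary tensors. -/
def tensorTens (J : Z →ₗᵢ[ℂ] (ℕ →ᵇ ℂ)) (x : X) : Z →L[ℂ] tensorS X J :=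
  (((ContinuousLinearMap.toSpanSingleton ℂ x).compLeftContinuousBounded ℕ).comp
    J.toContinuousLinearMap).codRestrict _ fun z =>
    mem_tensorS.2 fun f => ⟨f x • z, fun n => by simp [mul_comm]⟩

omit [CompleteSpace X] in
@[simp] theorem tensorTens_apply (J : Z →ₗᵢ[ℂ] (ℕ →ᵇ ℂ)) (x : X) (z : Z) (n : ℕ) :
    (tensorTens J x z : ℕ →ᵇ X) n = J z n • x := rfl

/-- Slices. -/
def tensorSl (J : Z →ₗᵢ[ℂ] (ℕ →ᵇ ℂ)) (f : X →L[ℂ] ℂ) : tensorS X J →L[ℂ] Z :=
  (J.equivRange.symm.toContinuousLinearEquiv : J.toLinearMap.range →L[ℂ] Z).comp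
    (((f.compLeftContinuousBounded ℕ).comp (tensorS X J).subtypeL).codRestrict _ fun w =>
      (mem_tensorS.1 w.2 f).imp fun _ hz => BoundedContinuousFunction.ext hz)

omit [CompleteSpace X] in
theorem tensorSl_apply (J : Z →ₗᵢ[ℂ] (ℕ →ᵇ ℂ)) (f : X →L[ℂ] ℂ) (w : tensorS X J) (n : ℕ) :
    J (tensorSl J f w) n = f ((w : ℕ →ᵇ X) n) := by
  have h : ∀ y : J.toLinearMap.range, J (J.equivRange.symm y) = y := fun y =>
    congrArg Subtype.val (J.equivRange.apply_symm_apply y)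
  exact congrArg (fun y : ℕ →ᵇ ℂ => y n) (h _)

omit [CompleteSpace X] in
theorem tensorAct_norm (J : Z →ₗᵢ[ℂ] (ℕ →ᵇ ℂ)) (A : X →L[ℂ] X) : ‖tensorAct J A‖ ≤ ‖A‖ :=
  ContinuousLinearMap.opNorm_le_bound _ (norm_nonneg _) fun w =>
    (norm_le (by positivity)).2 fun n => (A.le_opNorm _).trans
      (mul_le_mul_of_nonneg_left (norm_coe_le_norm (w : ℕ →ᵇ X) n) (norm_nonneg _))

omit [CompleteSpace X] in
theorem tensorTens_norm (J : Z →ₗᵢ[ℂ] (ℕ →ᵇ ℂ)) (x : X) (z : Z) :
    ‖tensorTens J x z‖ = ‖x‖ * ‖z‖ := by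
  rw [← J.norm_map z]
  refine le_antisymm ((norm_le (by positivity)).2 fun n => ?_) ?_
  · change ‖J z n • x‖ ≤ _
    rw [norm_smul, mul_comm]
    exact mul_le_mul_of_nonneg_left (norm_coe_le_norm _ n) (norm_nonneg _)
  · rcases (norm_nonneg x).eq_or_lt with h | h
    · rw [← h, zero_mul]; exact norm_nonneg _
    · rw [← le_div_iff₀' h]
      refine (norm_le (by positivity)).2 fun n => ?_
      rw [le_div_iff₀ h, ← norm_smul, ← tensorTens_apply]
      exact norm_coe_le_norm (tensorTens J x z : ℕ →ᵇ X) n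

/-- The tensor structure. -/
def tensorTen (b : SchauderBasis ℂ X) (J : Z →ₗᵢ[ℂ] (ℕ →ᵇ ℂ)) : Ten b Z (tensorS X J) where
  act :=
    { toFun := tensorAct J
      map_add' := fun A B => by ext w n; simp
      map_smul' := fun c A => by ext w n; simp }
  tens :=
    { toFun := tensorTens J
      map_add' := fun x y => by ext z n; simp
      map_smul' := fun c x => by ext z n; simp [smul_comm c] }
  sl i := tensorSl J (b.coord i)
  act_norm := tensorAct_norm J
  act_comp A B v := rfl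
  act_tens A x z := by ext n; simp
  tens_norm := tensorTens_norm J
  act_proj n v := by ext k; simp [tensorSl_apply]

end

theorem exists_ten (b : SchauderBasis ℂ X) {Z : Type} [NormedAddCommGroup Z] [NormedSpace ℂ Z]
    [CompleteSpace Z] (g : ℕ → Z →L[ℂ] ℂ) (hg : ∀ n, ‖g n‖ ≤ 1)
    (hn : ∀ (z : Z) (c : ℝ), 0 ≤ c → (∀ n, ‖g n z‖ ≤ c) → ‖z‖ ≤ c) :
    ∃ (V : Type u) (_ : NormedAddCommGroup V) (_ : NormedSpace ℂ V) (_ : CompleteSpace V)
      (τ : Ten b Z V) (B : Base (famX b) V), ∀ n, B.R n = τ.act (b.proj n) := by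
  obtain ⟨F, hF, hF'⟩ := tensor_norming b
  obtain ⟨C, hC⟩ := b.exists_norm_proj_le
  set J := tensorJ g hg hn
  refine ⟨tensorS X J, inferInstance, inferInstance, (isClosed_tensorS J).completeSpace_coe,
    tensorTen b J,
    { R := fun n => tensorAct J (b.proj n)
      φ := fun i => (F i.unpair.2).comp
        ((evalCLM ℂ i.unpair.1).comp (tensorS X J).subtypeL)
      K := max 2 C
      two_le := le_max_left _ _
      R_norm := fun n => (tensorAct_norm J _).trans ((hC n).trans (le_max_right _ _))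
      R_comp := fun n m v => by
        ext k
        simp only [tensorAct_apply, b.proj_comp]
      φ_norm := fun i => ContinuousLinearMap.opNorm_le_bound _ zero_le_one fun w =>
        ((F _).le_of_opNorm_le (hF _) _).trans (mul_le_mul_of_nonneg_left
          (norm_coe_le_norm (w : ℕ →ᵇ X) _) zero_le_one)
      norming := fun w c hc h => (norm_le hc).2 fun n => hF' _ c fun k => by
        simpa using h (Nat.pair n k)
      leaf := fun j i H h => ⟨F i.unpair.2, hF _, fun h₁ m₁ h₀ m₀ h₂ m₂ l₁ l₂ => ?_⟩ },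
    fun n => rfl⟩
  obtain ⟨w, hw1, hw2, hw3, hw4⟩ := h h₁ m₁ h₀ m₀ h₂ m₂ l₁ l₂
  exact ⟨(w : ℕ →ᵇ X) i.unpair.1,
    congrArg (fun y : tensorS X J => (y : ℕ →ᵇ X) i.unpair.1) hw1,
    congrArg (fun y : tensorS X J => (y : ℕ →ᵇ X) i.unpair.1) hw2,
    (norm_coe_le_norm (w : ℕ →ᵇ X) _).trans hw3, hw4⟩

end Pool.Agent.Lib.MP_2a83f9_an
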