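import Mathlib
import Pool.Agent.Lib.MP_2a83f9_an.Tensor

set_option autoImplicit false

open Filter Topology

noncomputable section

namespace Pool.Agent.Lib.MP_2a83f9_an

universe u v

namespace Abs

section Cal

variable {Y : Type u} [NormedAddCommGroup Y] [NormedSpace ℂ Y]

theorem cal_le (T : Y →L[ℂ] Y) : ‖cal T‖ ≤ ‖T‖ := Submodule.Quotient.norm_mk_le _ _

theorem cal_add (S T : Y →L[ℂ] Y) : cal (S + T) = cal S + cal T := rfl

theorem cal_sub (S T : Y →L[ℂ] Y) : cal (S - T) = cal S - cal T := rfl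

theorem cal_smul (c : ℂ) (T : Y →L[ℂ] Y) : cal (c • T) = c • cal T := rfl

theorem cal_eq_iff {S T : Y →L[ℂ] Y} : cal S = cal T ↔ IsCompactOperator ⇑(S - T) :=
  Submodule.Quotient.eq _

theorem cal_mul_left (S T : Y →L[ℂ] Y) : ‖cal (S * T)‖ ≤ ‖S‖ * ‖cal T‖ := by
  have h : ∀ ε : ℝ, 0 < ε → ‖cal (S * T)‖ ≤ ‖S‖ * (‖cal T‖ + ε) := fun ε hε => by
    obtain ⟨T', h1, h2⟩ := Submodule.Quotient.norm_mk_lt (cal T) hε
    have : cal (S * T') = cal (S * T) := cal_eq_iff.2 (by
      rw [← mul_sub]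
      exact (cal_eq_iff.1 h1).clm_comp S)
    rw [← this]
    exact (cal_le _).trans ((norm_mul_le _ _).trans (by gcongr))
  have t : Tendsto (fun ε : ℝ => ‖S‖ * (‖cal T‖ + ε)) (𝓝[>] 0) (𝓝 (‖S‖ * (‖cal T‖ + 0))) :=
    tendsto_nhdsWithin_of_tendsto_nhds (Continuous.tendsto (by fun_prop) _)
  rw [add_zero] at t
  exact ge_of_tendsto t (eventually_nhdsWithin_of_forall h)

theorem cal_mul_right (S T : Y →L[ℂ] Y) : ‖cal (S * T)‖ ≤ ‖cal S‖ * ‖T‖ := by
  have h : ∀ ε : ℝ, 0 < ε → ‖cal (S * T)‖ ≤ (‖cal S‖ + ε) * ‖T‖ := fun ε hε => by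
    obtain ⟨S', h1, h2⟩ := Submodule.Quotient.norm_mk_lt (cal S) hε
    have : cal (S' * T) = cal (S * T) := cal_eq_iff.2 (by
      rw [← sub_mul]
      exact (cal_eq_iff.1 h1).comp_clm T)
    rw [← this]
    exact (cal_le _).trans ((norm_mul_le _ _).trans (by gcongr))
  have t : Tendsto (fun ε : ℝ => (‖cal S‖ + ε) * ‖T‖) (𝓝[>] 0) (𝓝 ((‖cal S‖ + 0) * ‖T‖)) :=
    tendsto_nhdsWithin_of_tendsto_nhds (Continuous.tendsto (by fun_prop) _)
  rw [add_zero] at t
  exact ge_of_tendsto t (eventually_nhdsWithin_of_forall h)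

end Cal

variable {X : Type u} [NormedAddCommGroup X] [NormedSpace ℂ X] [CompleteSpace X]

theorem exists_bound (b : SchauderBasis ℂ X) : ∃ C : ℝ, 0 < C ∧ ∀ n, ‖b.proj n‖ ≤ C := by
  obtain ⟨C, hC⟩ := b.exists_norm_proj_le
  exact ⟨max C 1, by positivity, fun n => (hC n).trans (le_max_left _ _)⟩

theorem compact_left (b : SchauderBasis ℂ X) {A : X →L[ℂ] X} (hA : IsCompactOperator A) :
    Tendsto (fun n => ‖A - b.proj n * A‖) atTop (𝓝 0) := by
  obtain ⟨C, C0, hC⟩ := exists_bound b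
  obtain ⟨K, hK, hs⟩ := IsCompactOperator.image_closedBall_subset_compact
    (f := (A : X →ₗ[ℂ] X)) hA 1
  refine tendsto_order.2 ⟨fun a ha => Eventually.of_forall fun n => ha.trans_le (norm_nonneg _),
    fun ε hε => ?_⟩
  have key : ∀ᶠ n in atTop, ∀ y ∈ K, ‖y - b.proj n y‖ ≤ ε / 2 := by
    refine hK.induction_on (p := fun s => ∀ᶠ n in atTop, ∀ y ∈ s, ‖y - b.proj n y‖ ≤ ε / 2)
      (by simp) (fun s t hst h => h.mono fun n hn y hy => hn y (hst hy))
      (fun s t h h' => (h.and h').mono fun n hn y hy => hy.elim (hn.1 y) (hn.2 y)) fun y _ => ?_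
    refine ⟨Metric.ball y (ε / 4 / (1 + C)),
      mem_nhdsWithin_of_mem_nhds (Metric.ball_mem_nhds _ (by positivity)), ?_⟩
    filter_upwards [Metric.tendsto_nhds.1 (b.tendsto_proj y) (ε / 4) (by positivity)] with n hn z hz
    rw [dist_comm, dist_eq_norm] at hn
    rw [Metric.mem_ball, dist_eq_norm, lt_div_iff₀ (by positivity)] at hz
    have e : z - b.proj n z = (y - b.proj n y) + ((z - y) - b.proj n (z - y)) := by
      rw [map_sub]; abel
    have a1 : ‖b.proj n (z - y)‖ ≤ C * ‖z - y‖ := (b.proj n).le_of_opNorm_le (hC n) _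
    have a2 := norm_add_le (y - b.proj n y) ((z - y) - b.proj n (z - y))
    have a3 := norm_sub_le (z - y) (b.proj n (z - y))
    rw [e]
    nlinarith
  filter_upwards [key] with n hn
  refine lt_of_le_of_lt (ContinuousLinearMap.opNorm_le_of_unit_norm (by positivity)
    fun x hx => ?_) (half_lt_self hε)
  exact hn _ (hs ⟨x, by simp [hx], rfl⟩)

theorem finite_right {b : SchauderBasis ℂ X} (hb : Shrinking b) (A : X →L[ℂ] X) (k : ℕ) :
    Tendsto (fun n => ‖b.proj k * A - b.proj k * A * b.proj n‖) atTop (𝓝 0) := by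
  have h : Tendsto (fun n => ∑ i ∈ Finset.range k,
      ‖(b.coord i).comp A - ((b.coord i).comp A).comp (b.proj n)‖ * ‖b i‖) atTop
      (𝓝 (∑ i ∈ Finset.range k, 0 * ‖b i‖)) :=
    tendsto_finsetSum _ fun i _ => (hb.tail _).mul_const _
  simp only [zero_mul, Finset.sum_const_zero] at h
  refine squeeze_zero (fun _ => norm_nonneg _) (fun n => ?_) h
  refine ContinuousLinearMap.opNorm_le_bound _ (by positivity) fun x => ?_
  have e : (b.proj k * A - b.proj k * A * b.proj n) x = ∑ i ∈ Finset.range k,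
      ((b.coord i).comp A - ((b.coord i).comp A).comp (b.proj n)) x • b i := by
    rw [show (b.proj k * A - b.proj k * A * b.proj n) x =
      b.proj k (A x) - b.proj k (A (b.proj n x)) from rfl, b.proj_apply k, b.proj_apply k,
      ← Finset.sum_sub_distrib]
    exact Finset.sum_congr rfl fun i _ => by rw [← sub_smul]; rfl
  rw [e, Finset.sum_mul]
  refine (norm_sum_le _ _).trans (Finset.sum_le_sum fun i _ => ?_)
  rw [norm_smul, mul_right_comm]
  gcongr
  exact ContinuousLinearMap.le_opNorm _ _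

theorem compact_right {b : SchauderBasis ℂ X} (hb : Shrinking b) {A : X →L[ℂ] X}
    (hA : IsCompactOperator A) : Tendsto (fun n => ‖A - A * b.proj n‖) atTop (𝓝 0) := by
  obtain ⟨C, C0, hC⟩ := exists_bound b
  refine tendsto_order.2 ⟨fun a ha => Eventually.of_forall fun n => ha.trans_le (norm_nonneg _),
    fun ε hε => ?_⟩
  obtain ⟨k, hk⟩ := ((tendsto_order.1 (compact_left b hA)).2 (ε / 2 / (1 + C))
    (by positivity)).exists
  filter_upwards [(tendsto_order.1 (finite_right hb A k)).2 (ε / 2) (by positivity)] with n hn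
  rw [lt_div_iff₀ (by positivity)] at hk
  have e : A - A * b.proj n = (b.proj k * A - b.proj k * A * b.proj n) +
      ((A - b.proj k * A) - (A - b.proj k * A) * b.proj n) := by noncomm_ring
  have a1 : ‖(A - b.proj k * A) * b.proj n‖ ≤ ‖A - b.proj k * A‖ * C :=
    (norm_mul_le _ _).trans (by gcongr; exact hC n)
  have a2 := norm_add_le (b.proj k * A - b.proj k * A * b.proj n)
    ((A - b.proj k * A) - (A - b.proj k * A) * b.proj n)
  have a3 := norm_sub_le (A - b.proj k * A) ((A - b.proj k * A) * b.proj n)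
  rw [e]
  nlinarith

theorem compact_both {b : SchauderBasis ℂ X} (hb : Shrinking b) {A : X →L[ℂ] X}
    (hA : IsCompactOperator A) :
    Tendsto (fun n => ‖A - b.proj n * A * b.proj n‖) atTop (𝓝 0) := by
  obtain ⟨C, C0, hC⟩ := exists_bound b
  have h := (compact_left b hA).add ((compact_right hb hA).const_mul C)
  rw [mul_zero, add_zero] at h
  refine squeeze_zero (fun _ => norm_nonneg _) (fun n => ?_) h
  have e : A - b.proj n * A * b.proj n =
      (A - b.proj n * A) + b.proj n * (A - A * b.proj n) := by noncomm_ring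
  rw [e]
  refine (norm_add_le _ _).trans (add_le_add le_rfl ((norm_mul_le _ _).trans ?_))
  gcongr
  exact hC n

omit [CompleteSpace X] in
theorem compact_proj (b : SchauderBasis ℂ X) (n : ℕ) : IsCompactOperator (b.proj n) := by
  have h : ∑ i ∈ Finset.range n, (b.coord i).smulRight (b i) ∈
      compactOperator (RingHom.id ℂ) X X :=
    Submodule.sum_mem _ fun i _ => by
      have h1 : IsCompactOperator (b.coord i) := isCompactOperator_of_locallyCompactSpace_dom _
      exact h1.clm_comp (ContinuousLinearMap.toSpanSingleton ℂ (b i))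
  exact h

omit [CompleteSpace X] in
theorem basis_ne (b : SchauderBasis ℂ X) (i : ℕ) : 0 < ‖b i‖ :=
  norm_pos_iff.2 (b.linearIndependent.ne_zero i)

theorem core {b : SchauderBasis ℂ X} (hb : Shrinking b)
    {B : Type u} [NormedRing B] [NormedAlgebra ℂ B] (one_le : ‖(1 : B)‖ ≤ 1)
    {Q : Type u} [NormedAddCommGroup Q] [NormedSpace ℂ Q] [CompleteSpace Q]
    (π : B →ₗ[ℂ] Q) (π_surj : Function.Surjective π) (π_le : ∀ T, ‖π T‖ ≤ ‖T‖)
    (π_left : ∀ S T, ‖π (S * T)‖ ≤ ‖S‖ * ‖π T‖) (π_right : ∀ S T, ‖π (S * T)‖ ≤ ‖π S‖ * ‖T‖)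
    (L : ℕ → (X →L[ℂ] X) →ₗ[ℂ] B) (M : ℝ) (M0 : 0 < M)
    (L_norm : ∀ n A, ‖L n A‖ ≤ M * ‖A‖)
    (L_mul : ∀ n A B, L n A * L n B = L n (A * b.proj n * B))
    (L_stab : ∀ n m A, n ≤ m → π (L m (b.proj n * A * b.proj n)) = π (L n A))
    (L_low : ∀ n A (l : ℂ) (x : X), b.proj n x = x →
      ‖l • x + b.proj n (A x)‖ ≤ M * ‖π (l • (1 : B) + L n A)‖ * ‖x‖)
    (L_dense : ∀ T : B, ∃ (l : ℂ) (A : ℕ → X →L[ℂ] X),
      Tendsto (fun n => ‖π (T - l • (1 : B) - L n (A n))‖) atTop (𝓝 0)) :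
    ∃ e : Q ≃L[ℂ] (compactOperator (RingHom.id ℂ) X X × ℂ), ∀ S T : B,
      ((e (π (S * T))).1 : X →L[ℂ] X) =
          ((e (π S)).1 : X →L[ℂ] X) * ((e (π T)).1 : X →L[ℂ] X) +
            (e (π S)).2 • ((e (π T)).1 : X →L[ℂ] X) +
            (e (π T)).2 • ((e (π S)).1 : X →L[ℂ] X) ∧
        (e (π (S * T))).2 = (e (π S)).2 * (e (π T)).2 := by
  have cX : IsClosed (compactOperator (RingHom.id ℂ) X X : Set (X →L[ℂ] X)) :=
    isClosed_setOfPred_isCompactOperator
  have : CompleteSpace (compactOperator (RingHom.id ℂ) X X) := cX.completeSpace_coe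
  -- the limit of the lifts
  have ex : ∀ p : compactOperator (RingHom.id ℂ) X X × ℂ, ∃ q : Q,
      Tendsto (fun n => π (p.2 • (1 : B) + L n p.1)) atTop (𝓝 q) := fun p => by
    refine cauchySeq_tendsto_of_complete (cauchySeq_of_le_tendsto_0'
      (fun n => M * ‖(p.1 : X →L[ℂ] X) - b.proj n * p.1 * b.proj n‖) (fun n m h => ?_) ?_)
    · rw [dist_comm, dist_eq_norm, map_add, map_add, add_sub_add_left_eq_sub, ← L_stab n m _ h,
        ← map_sub, ← map_sub]
      exact (π_le _).trans (L_norm _ _)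
    · simpa using (compact_both hb p.1.2).const_mul M
  choose ψ hψ using ex
  let Ψ : (compactOperator (RingHom.id ℂ) X X × ℂ) →ₗ[ℂ] Q :=
    { toFun := ψ
      map_add' := fun p q => tendsto_nhds_unique (hψ _) (((hψ p).add (hψ q)).congr fun n => by
        rw [← map_add, Prod.fst_add, Prod.snd_add, Submodule.coe_add, map_add (L n), add_smul]
        congr 1
        abel)
      map_smul' := fun c p => tendsto_nhds_unique (hψ _) (((hψ p).const_smul c).congr fun n => by
        rw [← map_smul, Prod.smul_fst, Prod.smul_snd, Submodule.coe_smul, map_smul (L n), smul_add,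
          smul_assoc]) }
  have bd : ∀ (p : compactOperator (RingHom.id ℂ) X X × ℂ) n,
      ‖p.2 • (1 : B) + L n p.1‖ ≤ (1 + M) * ‖p‖ := fun p n => by
    have a1 : ‖p.2 • (1 : B)‖ ≤ ‖p‖ := by
      rw [norm_smul]
      exact (mul_le_of_le_one_right (norm_nonneg _) one_le).trans (norm_snd_le p)
    have a2 : ‖L n p.1‖ ≤ M * ‖p‖ := (L_norm _ _).trans (by gcongr; exact norm_fst_le p)
    linarith [norm_add_le (p.2 • (1 : B)) (L n p.1)]
  have up : ∀ p, ‖Ψ p‖ ≤ (1 + M) * ‖p‖ := fun p =>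
    le_of_tendsto' (hψ p).norm fun n => (π_le _).trans (bd p n)
  have low : ∀ p, ‖p‖ ≤ 2 * M * ‖Ψ p‖ := fun p => by
    have b1 : ∀ n y, ‖p.2 • b.proj n y + (p.1 : X →L[ℂ] X) (b.proj n y)‖ ≤
        M * ‖Ψ p‖ * ‖b.proj n y‖ := fun n y => by
      refine le_of_tendsto_of_tendsto ((b.tendsto_proj _).const_add _).norm
        (((hψ p).norm.const_mul M).mul_const _) ?_
      filter_upwards [eventually_ge_atTop n] with m hm
      exact L_low m _ _ _ (by rw [b.proj_comp, min_eq_right hm])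
    have b2 : ∀ y, ‖p.2 • y + (p.1 : X →L[ℂ] X) y‖ ≤ M * ‖Ψ p‖ * ‖y‖ := fun y =>
      le_of_tendsto_of_tendsto' (((b.tendsto_proj y).const_smul _).add
        (((p.1 : X →L[ℂ] X).continuous.tendsto y).comp (b.tendsto_proj y))).norm
        ((b.tendsto_proj y).norm.const_mul _) fun n => b1 n y
    have b3 : ‖p.2‖ ≤ M * ‖Ψ p‖ := by
      have t := (compact_right hb p.1.2).const_add (M * ‖Ψ p‖)
      rw [add_zero] at t
      refine ge_of_tendsto' t fun i => le_of_mul_le_mul_right ?_ (basis_ne b i)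
      have e : (p.1 : X →L[ℂ] X) (b i) = ((p.1 : X →L[ℂ] X) - p.1 * b.proj i) (b i) := by
        rw [show ((p.1 : X →L[ℂ] X) - p.1 * b.proj i) (b i) =
          (p.1 : X →L[ℂ] X) (b i) - (p.1 : X →L[ℂ] X) (b.proj i (b i)) from rfl,
          b.proj_apply_basis_mem, if_neg (lt_irrefl i), map_zero, sub_zero]
      have a1 := ((p.1 : X →L[ℂ] X) - p.1 * b.proj i).le_opNorm (b i)
      rw [← e] at a1
      have a2 := norm_sub_le (p.2 • b i + (p.1 : X →L[ℂ] X) (b i)) ((p.1 : X →L[ℂ] X) (b i))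
      rw [add_sub_cancel_right, norm_smul] at a2
      nlinarith [b2 (b i)]
    have b4 : ‖(p.1 : X →L[ℂ] X)‖ ≤ 2 * M * ‖Ψ p‖ := by
      refine ContinuousLinearMap.opNorm_le_bound _ (by positivity) fun y => ?_
      have a2 := norm_sub_le (p.2 • y + (p.1 : X →L[ℂ] X) y) (p.2 • y)
      rw [add_sub_cancel_left, norm_smul] at a2
      nlinarith [b2 y, mul_le_mul_of_nonneg_right b3 (norm_nonneg y)]
    exact max_le b4 (by nlinarith [mul_nonneg M0.le (norm_nonneg (Ψ p))])
  have inj : Function.Injective Ψ := (injective_iff_map_eq_zero Ψ).2 fun p hp => by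
    have := low p
    rw [hp, norm_zero, mul_zero] at this
    exact norm_le_zero_iff.1 this
  have surj : Function.Surjective Ψ := by
    have cl : IsClosed (Set.range Ψ) :=
      (AddMonoidHomClass.antilipschitz_of_bound Ψ (K := ⟨2 * M, by positivity⟩) low).isClosed_range
        (Ψ.mkContinuous _ up).uniformContinuous
    intro q
    obtain ⟨T, rfl⟩ := π_surj q
    obtain ⟨l, A, hA⟩ := L_dense T
    change π T ∈ Set.range Ψ
    refine cl.mem_of_tendsto (f := fun n : ℕ => π (l • (1 : B) + L n (A n))) (b := atTop)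
      ?_ (Eventually.of_forall fun n => ?_)
    · refine tendsto_iff_norm_sub_tendsto_zero.2 (hA.congr fun n => ?_)
      rw [norm_sub_rev (π (l • (1 : B) + L n (A n))), sub_sub, map_sub]
    · refine ⟨(⟨b.proj n * A n * b.proj n,
        ((compact_proj b n).comp_clm (A n)).comp_clm (b.proj n)⟩, l), ?_⟩
      refine tendsto_nhds_unique (hψ _) (tendsto_const_nhds.congr' ?_)
      filter_upwards [eventually_ge_atTop n] with m hm
      rw [map_add, map_add, L_stab n m _ hm]
  let E := (LinearEquiv.ofBijective Ψ ⟨inj, surj⟩).symm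
  have hE : ∀ q, Ψ (E q) = q := fun q => (LinearEquiv.ofBijective Ψ ⟨inj, surj⟩).apply_symm_apply q
  refine ⟨E.toContinuousLinearEquivOfBounds (2 * M) (1 + M)
    (fun q => (low (E q)).trans_eq (by rw [hE])) up, fun S T => ?_⟩
  change ((E (π (S * T))).1 : X →L[ℂ] X) =
          ((E (π S)).1 : X →L[ℂ] X) * ((E (π T)).1 : X →L[ℂ] X) +
            (E (π S)).2 • ((E (π T)).1 : X →L[ℂ] X) +
            (E (π T)).2 • ((E (π S)).1 : X →L[ℂ] X) ∧
        (E (π (S * T))).2 = (E (π S)).2 * (E (π T)).2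
  have hS := hψ (E (π S))
  have hT := hψ (E (π T))
  rw [show ψ (E (π S)) = π S from hE _] at hS
  rw [show ψ (E (π T)) = π T from hE _] at hT
  generalize E (π S) = p at hS ⊢
  generalize E (π T) = q at hT ⊢
  let r : compactOperator (RingHom.id ℂ) X X × ℂ :=
    (⟨(p.1 : X →L[ℂ] X) * q.1, IsCompactOperator.comp_clm p.1.2 (q.1 : X →L[ℂ] X)⟩ +
      p.2 • q.1 + q.2 • p.1, p.2 * q.2)
  have hr : E (π (S * T)) = r := by
    refine inj ((hE _).trans (tendsto_nhds_unique ?_ (hψ r)))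
    have t := (((tendsto_iff_norm_sub_tendsto_zero.1 hT).const_mul ‖S‖).add
      ((tendsto_iff_norm_sub_tendsto_zero.1 hS).mul_const ((1 + M) * ‖q‖))).add
      ((compact_left b q.1.2).const_mul (M * ‖(p.1 : X →L[ℂ] X)‖))
    simp only [mul_zero, zero_mul, add_zero] at t
    refine tendsto_iff_norm_sub_tendsto_zero.2
      (squeeze_zero (fun _ => norm_nonneg _) (fun n => ?_) t)
    have e : r.2 • (1 : B) + L n r.1 - S * T =
        S * (q.2 • (1 : B) + L n q.1 - T) +
        (p.2 • (1 : B) + L n p.1 - S) * (q.2 • (1 : B) + L n q.1) +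
        L n ((p.1 : X →L[ℂ] X) * ((q.1 : X →L[ℂ] X) - b.proj n * q.1)) := by
      have e1 : (r.1 : X →L[ℂ] X) = (p.1 : X →L[ℂ] X) * q.1 + p.2 • (q.1 : X →L[ℂ] X) +
        q.2 • (p.1 : X →L[ℂ] X) := rfl
      rw [e1, show r.2 = p.2 * q.2 from rfl, mul_sub (p.1 : X →L[ℂ] X), ← mul_assoc, map_sub,
        ← L_mul, map_add, map_add, map_smul, map_smul]
      simp only [mul_sub, sub_mul, mul_add, add_mul, smul_mul_assoc, mul_smul_comm, mul_one,
        one_mul, smul_smul, mul_comm q.2 p.2, smul_add, smul_sub]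
      abel
    rw [← map_sub, ← map_sub, ← map_sub, e, map_add, map_add]
    refine (norm_add₃_le).trans (add_le_add (add_le_add (π_left _ _)
      ((π_right _ _).trans ?_)) ((π_le _).trans ((L_norm _ _).trans ?_)))
    · exact mul_le_mul_of_nonneg_left (bd q n) (norm_nonneg _)
    · rw [mul_assoc]
      exact mul_le_mul_of_nonneg_left (norm_mul_le _ _) M0.le
  rw [hr]
  exact ⟨rfl, rfl⟩

end Abs

variable {X : Type u} [NormedAddCommGroup X] [NormedSpace ℂ X] [CompleteSpace X]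

open Abs in
theorem calkin_of_lifts {b : SchauderBasis ℂ X} (hb : Shrinking b)
    {Y : Type u} [NormedAddCommGroup Y] [NormedSpace ℂ Y] [CompleteSpace Y]
    (L : ℕ → (X →L[ℂ] X) →ₗ[ℂ] (Y →L[ℂ] Y)) (M : ℝ)
    (L_norm : ∀ n A, ‖L n A‖ ≤ M * ‖A‖)
    (L_mul : ∀ n A B, L n A * L n B = L n (A * b.proj n * B))
    (L_stab : ∀ n m A, n ≤ m → cal (L m (b.proj n * A * b.proj n)) = cal (L n A))
    (L_low : ∀ n A (l : ℂ) (x : X), b.proj n x = x →
      ‖l • x + b.proj n (A x)‖ ≤ M * ‖cal (l • (1 : Y →L[ℂ] Y) + L n A)‖ * ‖x‖)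
    (L_dense : ∀ T : Y →L[ℂ] Y, ∃ (l : ℂ) (A : ℕ → X →L[ℂ] X),
      (∀ n m, n ≤ m → A n = b.proj n * A m * b.proj n) ∧
      Tendsto (fun n => ‖cal (T - l • (1 : Y →L[ℂ] Y) - L n (A n))‖) atTop (𝓝 0)) :
    ¬ FiniteDimensional ℂ Y ∧
      CalkinIsoAux Y X := by
  have h1 : 1 ≤ M * ‖cal (1 : Y →L[ℂ] Y)‖ := by
    have := L_low 1 0 1 (b 0) (by rw [b.proj_apply_basis_mem, if_pos one_pos])
    simp only [one_smul, zero_apply, map_zero, add_zero] at this
    exact le_of_mul_le_mul_right (by rwa [one_mul]) (basis_ne b 0)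
  have n0 : 0 ≤ ‖cal (1 : Y →L[ℂ] Y)‖ :=
    @norm_nonneg _ (Submodule.Quotient.seminormedAddCommGroup
      (compactOperator (RingHom.id ℂ) Y Y)).toSeminormedAddGroup _
  have M0 : 0 < M := by
    by_contra c
    nlinarith [not_lt.1 c]
  refine ⟨fun hf => ?_, ?_⟩
  · have := FiniteDimensional.proper ℂ Y
    have e : cal (1 : Y →L[ℂ] Y) = cal 0 := cal_eq_iff.2
      (isCompactOperator_of_locallyCompactSpace_rng _)
    have h2 := cal_le (0 : Y →L[ℂ] Y)
    rw [← e, norm_zero] at h2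
    nlinarith
  have cY : IsClosed (compactOperator (RingHom.id ℂ) Y Y : Set (Y →L[ℂ] Y)) :=
    isClosed_setOfPred_isCompactOperator
  exact @core X _ _ _ b hb (Y →L[ℂ] Y) _ _ ContinuousLinearMap.norm_id_le (Calkin Y)
    (Submodule.Quotient.normedAddCommGroup _) (Submodule.Quotient.normedSpace _ _)
    (Submodule.Quotient.completeSpace _) (Submodule.mkQ _) (Submodule.mkQ_surjective _)
    cal_le cal_mul_left cal_mul_right L M M0 L_norm L_mul L_stab L_low
    fun T => by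
      obtain ⟨l, A, -, h⟩ := L_dense T
      exact ⟨l, A, h⟩

end Pool.Agent.Lib.MP_2a83f9_an
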