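import Mathlib
import Pool.Agent.Lib.MP_2a83f9_an.Fam

set_option autoImplicit false

open Filter Topology

noncomputable section

namespace Pool.Agent.Lib.MP_2a83f9_an

universe u v

variable {𝓖 : ℕ → Fam} {a : ℕ} {Y : Type u} [NormedAddCommGroup Y] [NormedSpace ℂ Y]

theorem Tree.self_mem (t : Tree 𝓖 a) (γ : ℕ) : γ ∈ t.D γ := by
  rcases h : t.par γ with _ | ξ
  · rw [t.root_D γ h]; simp
  · rw [t.par_D γ ξ h]; simp

/-- Induction along the parent relation. -/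
theorem Tree.ind (t : Tree 𝓖 a) {p : ℕ → Prop} (h0 : ∀ γ, t.par γ = none → p γ)
    (h1 : ∀ γ ξ, t.par γ = some ξ → p ξ → p γ) (γ : ℕ) : p γ := by
  induction γ using Nat.strong_induction_on with
  | _ γ ih =>
    rcases h : t.par γ with _ | ξ
    · exact h0 γ h
    · exact h1 γ ξ h (ih ξ (t.par_lt γ ξ h))

theorem Tree.le_of_mem (t : Tree 𝓖 a) {γ ζ : ℕ} (h : ζ ∈ t.D γ) : ζ ≤ γ := by
  induction γ using t.ind with
  | h0 γ hγ => rw [t.root_D γ hγ] at h; simp at h; omega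
  | h1 γ ξ hγ ih =>
    rw [t.par_D γ ξ hγ, Finset.mem_insert] at h
    rcases h with h | h
    · omega
    · have := ih h
      have := t.par_lt γ ξ hγ
      omega

theorem Tree.w_of_mem (t : Tree 𝓖 a) {γ ζ : ℕ} (h : ζ ∈ t.D γ) : t.w ζ = t.w γ := by
  induction γ using t.ind with
  | h0 γ hγ => rw [t.root_D γ hγ] at h; simp at h; rw [h]
  | h1 γ ξ hγ ih =>
    rw [t.par_D γ ξ hγ, Finset.mem_insert] at h
    rcases h with h | h
    · rw [h]
    · rw [ih h, t.par_w γ ξ hγ]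

theorem Tree.D_subset (t : Tree 𝓖 a) {γ ζ : ℕ} (h : ζ ∈ t.D γ) : t.D ζ ⊆ t.D γ := by
  induction γ using t.ind with
  | h0 γ hγ => rw [t.root_D γ hγ] at h; simp at h; rw [h]
  | h1 γ ξ hγ ih =>
    have h' := h
    rw [t.par_D γ ξ hγ, Finset.mem_insert] at h'
    rcases h' with h' | h'
    · rw [h']
    · rw [t.par_D γ ξ hγ]
      exact (ih h').trans (Finset.subset_insert _ _)

theorem Tree.D_adm (t : Tree 𝓖 a) (γ : ℕ) : t.D γ ∈ adm 𝓖 (t.w γ) := by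
  induction γ using t.ind with
  | h0 γ hγ =>
    rw [t.root_D γ hγ]
    intro p hp
    simp only [Finset.mem_singleton] at hp
    subst hp
    rintro ⟨c, hc⟩
    have h1 := hc.sum_one
    have h2 : ({p} : Finset ℕ).filter (· < p) = ∅ := by
      ext q; simp; omega
    rw [h2] at h1
    simp at h1
  | h1 γ ξ hγ ih =>
    have hlt := t.par_lt γ ξ hγ
    intro p hp
    rw [t.par_D γ ξ hγ] at hp ⊢
    rw [Finset.mem_insert] at hp
    rcases hp with hp | hp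
    · subst hp
      have h2 : (insert p (t.D ξ)).filter (· < p) = t.D ξ := by
        ext q
        simp only [Finset.mem_filter, Finset.mem_insert]
        constructor
        · rintro ⟨h | h, h'⟩
          · omega
          · exact h
        · intro h
          have := t.le_of_mem h
          exact ⟨Or.inr h, by omega⟩
      rw [h2]
      exact t.par_good p ξ hγ
    · have hle := t.le_of_mem hp
      have h2 : (insert γ (t.D ξ)).filter (· < p) = (t.D ξ).filter (· < p) := by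
        ext q
        simp only [Finset.mem_filter, Finset.mem_insert]
        constructor
        · rintro ⟨h | h, h'⟩
          · omega
          · exact ⟨h, h'⟩
        · rintro ⟨h, h'⟩
          exact ⟨Or.inr h, h'⟩
      rw [h2, t.par_w γ ξ hγ]
      exact ih p hp

theorem Tree.mem_of_le (t : Tree 𝓖 a) {γ ζ ζ' : ℕ} (h : ζ ∈ t.D γ) (h' : ζ' ∈ t.D γ)
    (hle : ζ ≤ ζ') : ζ ∈ t.D ζ' := by
  induction γ using t.ind with
  | h0 γ hγ =>
    rw [t.root_D γ hγ] at h h'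
    simp only [Finset.mem_singleton] at h h'
    rw [h, h']; exact t.self_mem γ
  | h1 γ ξ hγ ih =>
    have hlt := t.par_lt γ ξ hγ
    have h1 := h
    rw [t.par_D γ ξ hγ, Finset.mem_insert] at h h'
    rcases h' with h' | h'
    · rw [h']; exact h1
    · rcases h with h | h
      · have := t.le_of_mem h'
        omega
      · exact ih h h'

theorem Tree.par_mem (t : Tree 𝓖 a) {γ ζ ξ : ℕ} (h : ζ ∈ t.D γ) (hp : t.par ζ = some ξ) :
    ξ ∈ t.D γ := by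
  apply t.D_subset h
  rw [t.par_D ζ ξ hp]
  exact Finset.mem_insert_of_mem (t.self_mem ξ)

/-- Two nodes of one chain with the same parent are equal. -/
theorem Tree.child_unique (t : Tree 𝓖 a) {γ ζ ζ' ξ : ℕ} (h : ζ ∈ t.D γ) (h' : ζ' ∈ t.D γ)
    (hp : t.par ζ = some ξ) (hp' : t.par ζ' = some ξ) : ζ = ζ' := by
  have key : ∀ {ζ ζ' : ℕ}, ζ ∈ t.D γ → ζ' ∈ t.D γ → t.par ζ = some ξ → t.par ζ' = some ξ →
      ζ ≤ ζ' → ζ = ζ' := by
    intro ζ ζ' h h' hp hp' hle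
    have h1 := t.mem_of_le h h' hle
    rw [t.par_D ζ' ξ hp', Finset.mem_insert] at h1
    rcases h1 with h1 | h1
    · exact h1
    · have := t.le_of_mem h1
      have := t.par_lt ζ ξ hp
      omega
  rcases le_total ζ ζ' with hle | hle
  · exact key h h' hp hp' hle
  · exact (key h' h hp' hp hle).symm

theorem bf_sing (e : Om → Y →L[ℂ] ℂ) (η : ℕ) : bf e (sing η) = e (Sum.inr η) := by
  have h : ((1, 0) : ℚ × ℚ) ≠ 0 := by simp [Prod.ext_iff]
  unfold bf sing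
  rw [Finsupp.support_single _ h]
  simp [cf]

theorem bsum_sing (η : ℕ) : bsum (sing η) ≤ 1 := by
  have h : ((1, 0) : ℚ × ℚ) ≠ 0 := by simp [Prod.ext_iff]
  unfold bsum sing
  rw [Finsupp.support_single _ h]
  simp [cf]

theorem BD.e_le (s : BD 𝓖 a Y) (ω : Om) (y : Y) : ‖s.e ω y‖ ≤ ‖y‖ := by
  have h1 := (s.e ω).le_opNorm y
  have h2 := s.e_norm ω
  have h3 := norm_nonneg y
  nlinarith

theorem bf_le_of (e : Om → Y →L[ℂ] ℂ) {c : Cmb} (hc : bsum c ≤ 1) (y : Y) {m : ℝ} (hm : 0 ≤ m)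
    (h : ∀ ω ∈ c.support, ‖e ω y‖ ≤ m) : ‖bf e c y‖ ≤ m := by
  unfold bf
  rw [sum_apply]
  calc ‖∑ ω ∈ c.support, (cf (c ω) • e ω) y‖ ≤ ∑ ω ∈ c.support, ‖(cf (c ω) • e ω) y‖ :=
        norm_sum_le _ _
    _ ≤ ∑ ω ∈ c.support, ‖cf (c ω)‖ * m := by
        apply Finset.sum_le_sum
        intro ω hω
        rw [smul_apply, norm_smul]
        exact mul_le_mul_of_nonneg_left (h ω hω) (norm_nonneg _)
    _ = bsum c * m := by rw [← Finset.sum_mul]; rfl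
    _ ≤ m := by nlinarith

theorem BD.bf_le (s : BD 𝓖 a Y) {c : Cmb} (hc : bsum c ≤ 1) (y : Y) : ‖bf s.e c y‖ ≤ ‖y‖ :=
  bf_le_of s.e hc y (norm_nonneg y) fun ω _ => s.e_le ω y

theorem BD.bf_max (s : BD 𝓖 a Y) {c : Cmb} (hc : bsum c ≤ 1) (y : Y) :
    ∃ ω, ‖bf s.e c y‖ ≤ ‖s.e ω y‖ := by
  rcases c.support.eq_empty_or_nonempty with h | h
  · refine ⟨Sum.inl 0, ?_⟩
    unfold bf
    rw [h]
    simp
  · obtain ⟨ω, _, hω⟩ := c.support.exists_max_image (fun ω => ‖s.e ω y‖) h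
    exact ⟨ω, bf_le_of s.e hc y (norm_nonneg _) hω⟩

theorem BD.P_le (s : BD 𝓖 a Y) (n : ℕ) (y : Y) : ‖s.P n y‖ ≤ s.M * ‖y‖ :=
  ((s.P n).le_opNorm y).trans (mul_le_mul_of_nonneg_right (s.P_norm n) (norm_nonneg y))

theorem BD.Q_le (s : BD 𝓖 a Y) (n : ℕ) (y : Y) : ‖y - s.P n y‖ ≤ (1 + s.M) * ‖y‖ := by
  have h1 := norm_sub_le y (s.P n y)
  have h2 := s.P_le n y
  linarith

theorem BD.P_of_le (s : BD 𝓖 a Y) {n m : ℕ} {y : Y} (h : n ≤ m) (hy : s.P n y = y) :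
    s.P m y = y := by
  have h1 := s.P_comp m n y
  rw [min_eq_right h, hy] at h1
  exact h1

theorem BD.P_zero_of_le (s : BD 𝓖 a Y) {n m : ℕ} {y : Y} (h : n ≤ m) (hy : s.P m y = 0) :
    s.P n y = 0 := by
  have h1 := s.P_comp n m y
  rw [min_eq_left h, hy, map_zero] at h1
  exact h1.symm

theorem BD.e_zero (s : BD 𝓖 a Y) {γ n : ℕ} {y : Y} (h : γ < n) (hy : s.P n y = 0) :
    s.e (Sum.inr γ) y = 0 := by
  rw [← s.coord γ n y h, hy, map_zero]

theorem BD.e_step (s : BD 𝓖 a Y) {γ ξ : ℕ} (hγ : s.t.par γ = some ξ) {y : Y}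
    (hy : s.P (ξ + 1) y = y) : s.e (Sum.inr γ) y = s.e (Sum.inr ξ) y := by
  have hlt := s.t.par_lt γ ξ hγ
  have h1 : s.P γ y = y := s.P_of_le (by omega) hy
  have h2 := s.rec_child γ ξ y hγ
  rw [h1, hy, sub_self, map_zero, mul_zero, add_zero] at h2
  exact h2

/-- On vectors that end before the node `ζ` of its chain is passed, `γ` acts as `ζ`. -/
theorem BD.e_anc (s : BD 𝓖 a Y) {γ ζ : ℕ} (h : ζ ∈ s.t.D γ) {y : Y} (hy : s.P (ζ + 1) y = y) :
    s.e (Sum.inr γ) y = s.e (Sum.inr ζ) y := by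
  induction γ using s.t.ind with
  | h0 γ hγ => rw [s.t.root_D γ hγ] at h; simp at h; rw [h]
  | h1 γ ξ hγ ih =>
    rw [s.t.par_D γ ξ hγ, Finset.mem_insert] at h
    rcases h with h | h
    · rw [h]
    · have := s.t.le_of_mem h
      rw [s.e_step hγ (s.P_of_le (by omega) hy), ih h]

/-- A node whose whole chain lies above `n` vanishes on the range of `P n`. -/
theorem BD.e_root (s : BD 𝓖 a Y) {γ n : ℕ} (h : ∀ ζ ∈ s.t.D γ, n ≤ ζ) (y : Y) :
    s.e (Sum.inr γ) (s.P n y) = 0 := by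
  have hz : s.P n (s.P n y) = s.P n y := by rw [s.P_comp, min_self]
  induction γ using s.t.ind with
  | h0 γ hγ =>
    have h1 := h γ (s.t.self_mem γ)
    have h2 := s.rec_root γ (s.P n y) hγ
    rwa [s.P_of_le h1 hz] at h2
  | h1 γ ξ hγ ih =>
    have h1 := h ξ (s.t.par_mem (s.t.self_mem γ) hγ)
    rw [s.e_step hγ (s.P_of_le (by omega) hz)]
    exact ih fun ζ hζ => h ζ (s.t.D_subset (s.t.par_mem (s.t.self_mem γ) hγ) hζ)

theorem norm_dl (j : ℕ) : ‖(dl j : ℂ)‖ = dl j := by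
  rw [Complex.norm_real, Real.norm_eq_abs, abs_of_pos (dl_pos j)]

/-- Local support estimate. -/
theorem BD.loc (s : BD 𝓖 a Y) {n : ℕ} {y : Y} (hy : s.P n y = y) (γ : ℕ)
    (h : ∀ ξ, ξ < n → s.t.w ξ = s.t.w γ → s.e (Sum.inr ξ) y = 0) :
    ‖s.e (Sum.inr γ) y‖ ≤ (1 + s.M) * ‖y‖ * dl (s.t.w γ) := by
  have hnn : ∀ γ, 0 ≤ (1 + s.M) * ‖y‖ * dl (s.t.w γ) := fun γ =>
    mul_nonneg (mul_nonneg (by linarith [s.two_le]) (norm_nonneg y)) (dl_pos _).le
  induction γ using s.t.ind with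
  | h0 γ hγ =>
    rcases lt_or_ge γ n with h1 | h1
    · rw [h γ h1 rfl, norm_zero]; exact hnn γ
    · have h2 := s.rec_root γ y hγ
      rw [s.P_of_le h1 hy] at h2
      rw [h2, norm_zero]; exact hnn γ
  | h1 γ ξ hγ ih =>
    have hw := s.t.par_w γ ξ hγ
    rcases lt_or_ge γ n with h1 | h1
    · rw [h γ h1 rfl, norm_zero]; exact hnn γ
    · rcases le_or_gt n (ξ + 1) with h2 | h2
      · rw [s.e_step hγ (s.P_of_le h2 hy), hw]
        exact ih fun ζ hζ hw' => h ζ hζ (hw'.trans hw.symm)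
      · have h3 := s.rec_child γ ξ y hγ
        rw [s.P_of_le h1 hy, h ξ (by omega) hw.symm, zero_add] at h3
        rw [h3, norm_mul, norm_dl, mul_comm]
        exact mul_le_mul_of_nonneg_right
          ((s.bf_le (s.t.par_bsum γ ξ hγ) _).trans (s.Q_le _ _)) (dl_pos _).le

/-- Evaluation of the end of a chain on a vector, seen from one link of the chain. -/
theorem BD.eval_link (s : BD 𝓖 a Y) {γ ζ ξ : ℕ} (h : ζ ∈ s.t.D γ) (hp : s.t.par ζ = some ξ)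
    (y : Y) :
    ‖s.e (Sum.inr γ) y - (dl (s.t.w γ) : ℂ) * bf s.e (s.t.b ζ) (y - s.P (ξ + 1) y)‖ ≤
      ‖s.e (Sum.inr ξ) y‖ + 2 * ‖y - s.P ζ y‖ + 2 * ‖y - s.P (ζ + 1) y‖ := by
  have h1 : s.e (Sum.inr γ) (s.P (ζ + 1) y) = s.e (Sum.inr ζ) (s.P (ζ + 1) y) :=
    s.e_anc h (by rw [s.P_comp, min_self])
  have h2 := s.rec_child ζ ξ y hp
  rw [s.t.w_of_mem h] at h2
  have h3 : s.e (Sum.inr γ) y - (dl (s.t.w γ) : ℂ) * bf s.e (s.t.b ζ) (y - s.P (ξ + 1) y) =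
      s.e (Sum.inr ξ) y + (s.e (Sum.inr ζ) (y - s.P ζ y) -
        (dl (s.t.w γ) : ℂ) * bf s.e (s.t.b ζ) (y - s.P ζ y)) +
      (s.e (Sum.inr γ) (y - s.P (ζ + 1) y) - s.e (Sum.inr ζ) (y - s.P (ζ + 1) y)) := by
    simp only [map_sub] at h2 ⊢
    rw [h1, h2]; ring
  rw [h3]
  have h4 := s.e_le (Sum.inr ζ) (y - s.P ζ y)
  have h5 := s.bf_le (s.t.par_bsum ζ ξ hp) (y - s.P ζ y)
  have h6 := s.e_le (Sum.inr γ) (y - s.P (ζ + 1) y)
  have h7 := s.e_le (Sum.inr ζ) (y - s.P (ζ + 1) y)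
  have h8 : ‖(dl (s.t.w γ) : ℂ) * bf s.e (s.t.b ζ) (y - s.P ζ y)‖ ≤ ‖y - s.P ζ y‖ := by
    rw [norm_mul, norm_dl]
    have := dl_le (s.t.w γ)
    have := dl_pos (s.t.w γ)
    have := norm_nonneg (bf s.e (s.t.b ζ) (y - s.P ζ y))
    nlinarith
  have h9 := norm_add₃_le (a := s.e (Sum.inr ξ) y) (b := s.e (Sum.inr ζ) (y - s.P ζ y) -
        (dl (s.t.w γ) : ℂ) * bf s.e (s.t.b ζ) (y - s.P ζ y))
    (c := s.e (Sum.inr γ) (y - s.P (ζ + 1) y) - s.e (Sum.inr ζ) (y - s.P (ζ + 1) y))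
  have h10 := norm_sub_le (s.e (Sum.inr ζ) (y - s.P ζ y))
    ((dl (s.t.w γ) : ℂ) * bf s.e (s.t.b ζ) (y - s.P ζ y))
  have h11 := norm_sub_le (s.e (Sum.inr γ) (y - s.P (ζ + 1) y))
    (s.e (Sum.inr ζ) (y - s.P (ζ + 1) y))
  linarith

end Pool.Agent.Lib.MP_2a83f9_an
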