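import Mathlib
import Pool.Agent.Lib.MP_2a83f9_an.BI

set_option autoImplicit false

open Filter Topology

noncomputable section

namespace Pool.Agent.Lib.MP_2a83f9_an

universe u v

variable {𝓖 : ℕ → Fam} {a : ℕ} {Y : Type u} [NormedAddCommGroup Y] [NormedSpace ℂ Y]

theorem RIS.comp {s : BD 𝓖 a Y} {x : ℕ → Y} (hx : RIS s x) {φ : ℕ → ℕ}
    (hφ : Tendsto φ atTop atTop) : RIS s (x ∘ φ) :=
  ⟨⟨fun k => hx.blk.fin (φ k), fun n => hφ.eventually (hx.blk.far n),
    hx.blk.bdd.imp fun _ h k => h (φ k)⟩, hx.est.imp fun _ h j => hφ.eventually (h j)⟩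

theorem RIS.add {s : BD 𝓖 a Y} {x y : ℕ → Y} (hx : RIS s x) (hy : RIS s y) :
    RIS s (fun k => x k + y k) := by
  obtain ⟨C, hC⟩ := hx.blk.bdd
  obtain ⟨C', hC'⟩ := hy.blk.bdd
  obtain ⟨E, hE⟩ := hx.est
  obtain ⟨E', hE'⟩ := hy.est
  refine ⟨⟨fun k => ?_, fun n => ?_, C + C', fun k => norm_add_le_of_le (hC k) (hC' k)⟩,
    E + E', fun h => ?_⟩
  · obtain ⟨n, hn⟩ := hx.blk.fin k
    obtain ⟨m, hm⟩ := hy.blk.fin k
    exact ⟨max n m, by
      rw [map_add, s.P_of_le (le_max_left _ _) hn, s.P_of_le (le_max_right _ _) hm]⟩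
  · filter_upwards [hx.blk.far n, hy.blk.far n] with k h1 h2
    rw [map_add, h1, h2, add_zero]
  · filter_upwards [hE h, hE' h] with k h1 h2 γ hγ
    rw [map_add, add_mul]
    exact norm_add_le_of_le (h1 γ hγ) (h2 γ hγ)

theorem RIS.exists_sub {s : BD 𝓖 a Y} {x : ℕ → Y} (hx : RIS s x) :
    ∃ (C : ℝ) (φ : ℕ → ℕ), 0 ≤ C ∧ StrictMono φ ∧ SRIS s C (x ∘ φ) := by
  classical
  obtain ⟨C, hC⟩ := hx.blk.bdd
  obtain ⟨E, hE⟩ := hx.est
  choose n hn using hx.blk.fin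
  have C0 : 0 ≤ C := (norm_nonneg _).trans (hC 0)
  have M2 := s.two_le
  have MC : 0 ≤ s.M * C := mul_nonneg (by linarith) C0
  have E0 := abs_nonneg E
  have key : ∀ m, ∃ k, m < k ∧ ∀ k' ≤ m, ∀ ξ < n k', ∀ γ, s.t.w γ = s.t.w ξ →
      ‖s.e (Sum.inr γ) (x k)‖ ≤ E * dl (s.t.w ξ) := fun m =>
    ((eventually_gt_atTop m).and ((eventually_all_finite (Set.finite_le_nat m)).2 fun k' _ =>
      (eventually_all_finite (Set.finite_lt_nat (n k'))).2 fun ξ _ => hE _)).exists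
  choose N hN1 hN2 using key
  have hφ : StrictMono fun i => N^[i] 0 := strictMono_nat_of_lt_succ fun i => by
    rw [Function.iterate_succ_apply']
    exact hN1 _
  refine ⟨(1 + s.M) * C + |E|, fun i => N^[i] 0, by nlinarith, hφ, fun k => ⟨_, hn _⟩,
    fun m => hφ.tendsto_atTop.eventually (hx.blk.far m), fun k => (hC _).trans (by nlinarith),
    fun γ => ?_⟩
  have d0 := (dl_pos (s.t.w γ)).le
  have loc : ∀ k, (¬ ∃ ξ < n k, s.t.w γ = s.t.w ξ) →
      ‖s.e (Sum.inr γ) (x k)‖ ≤ ((1 + s.M) * C + |E|) * dl (s.t.w γ) := fun k h =>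
    (s.loc (hn k) γ fun ξ h1 h2 => absurd ⟨ξ, h1, h2.symm⟩ h).trans
      (mul_le_mul_of_nonneg_right ((mul_le_mul_of_nonneg_left (hC k) (by linarith)).trans
        (le_add_of_nonneg_right E0)) d0)
  by_cases h : ∃ i, ∃ ξ < n (N^[i] 0), s.t.w γ = s.t.w ξ
  · refine ⟨Nat.find h, fun i hi => ?_⟩
    rcases lt_or_gt_of_ne hi with c | c
    · exact loc _ (Nat.find_min h c)
    · obtain ⟨ξ, h1, h2⟩ := Nat.find_spec h
      obtain ⟨i, rfl⟩ := Nat.exists_eq_add_one_of_ne_zero (Nat.ne_zero_of_lt c)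
      have := hN2 _ _ (hφ.monotone (Nat.le_of_lt_succ c)) ξ h1 γ h2
      rw [← h2, ← Function.iterate_succ_apply' N] at this
      exact this.trans (mul_le_mul_of_nonneg_right (by nlinarith [le_abs_self E]) d0)
  · exact ⟨0, fun i _ => loc _ fun c => h ⟨i, c⟩⟩

theorem SRIS.weak_null (h𝓖 : ∀ j, Null (𝓖 j)) {s : BD 𝓖 a Y} {C : ℝ} {x : ℕ → Y}
    (hx : SRIS s C x) (f : Y →L[ℂ] ℂ) : Tendsto (fun k => f (x k)) atTop (𝓝 0) := by
  classical
  have C0 : 0 ≤ C := (norm_nonneg _).trans (hx.bdd 0)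
  by_contra hcon
  rw [NormedAddGroup.tendsto_nhds_zero] at hcon
  push Not at hcon
  obtain ⟨ε, ε0, hε⟩ := hcon
  have key : ∀ m, ∃ (k T : ℕ) (u : ℂ), m < T ∧ ‖u‖ = 1 ∧ s.P (m + 1) (x k) = 0 ∧
      s.P (T + 1) (x k) = x k ∧ ε ≤ (f (u • x k)).re := fun m => by
    obtain ⟨k, h1, h2⟩ := (hε.and_eventually (hx.far (m + 1))).exists
    obtain ⟨n, hn⟩ := hx.fin k
    obtain ⟨u, h3, h4⟩ := Complex.exists_norm_eq_mul_self (f (x k))
    exact ⟨k, m + 1 + n, u, by omega, h3, h2, s.P_of_le (by omega) hn, by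
      rw [map_smul, smul_eq_mul, ← h4]; exact h1⟩
  choose k T u h1 h2 h3 h4 h5 using key
  set t : ℕ → ℕ := fun i => T^[i] 0 with ht
  have ts : ∀ i, t (i + 1) = T (t i) := fun i => Function.iterate_succ_apply' _ _ _
  have hm : StrictMono t := strictMono_nat_of_lt_succ fun i => ts i ▸ h1 _
  set lo : ℕ → ℕ := fun p => t (Function.invFun t p - 1) with hlo
  have lo1 : ∀ i, lo (t (i + 1)) = t i := fun i => by
    simp only [hlo, Function.leftInverse_invFun hm.injective (i + 1), Nat.add_sub_cancel]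
  have main : ∀ j, ε ≤ ‖f‖ * (C * (4 * dl j)) := fun j => by
    obtain ⟨N, ⟨c, hc⟩, -⟩ := exists_first_good h𝓖 j t hm
    set D := (Finset.range (N + 1)).image t with hD
    have hJ : ∀ p ∈ D.erase (t 0), ∃ i, p = t (i + 1) := fun p hp => by
      obtain ⟨i, -, rfl⟩ := Finset.mem_image.1 (Finset.mem_of_mem_erase hp)
      rcases i with _ | i
      · exact absurd rfl (Finset.ne_of_mem_erase hp)
      · exact ⟨i, rfl⟩
    have nn : ∀ (m : ℕ) (g : Y →L[ℂ] ℂ), ‖g (u m • x (k m))‖ = ‖g (x (k m))‖ := fun m g => by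
      rw [map_smul, norm_smul, h2, one_mul]
    have inj : ∀ i i', i < i' → k (t i) ≠ k (t i') := fun i i' h e => by
      have := s.P_zero_of_le (Nat.succ_le_succ (ts i ▸ hm.monotone h)) (h3 (t i'))
      rw [← e, h4] at this
      have h6 := h5 (t i)
      rw [this, smul_zero, map_zero] at h6
      exact absurd h6 (not_le.2 ε0)
    have h7 := norm_cmb_le s (D := D) (J := D.erase (t 0)) (C := C)
      (x := fun p => u (lo p) • x (k (lo p))) ⟨Finset.erase_subset _ _, fun p hp q hq h => ?_,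
        fun p hp => ?_, fun p _ => ?_⟩ C0 hc (dl_pos j).le fun γ hγ => ?_
    · have h8 : ∑ p ∈ D.erase (t 0), c p = 1 := by
        rw [Finset.sum_erase _ ?_, hc.sum_one]
        by_contra h
        obtain ⟨-, q, hq, h⟩ := hc.supp _ h
        obtain ⟨i, -, rfl⟩ := Finset.mem_image.1 hq
        exact absurd (hm.lt_iff_lt.1 h) (Nat.not_lt_zero _)
      have h9 : ε ≤ (f (cmb c (D.erase (t 0)) fun p => u (lo p) • x (k (lo p)))).re := by
        rw [cmb, map_sum, Complex.re_sum, ← one_mul ε, ← h8, Finset.sum_mul]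
        refine Finset.sum_le_sum fun p _ => ?_
        rw [map_smul, smul_eq_mul, Complex.re_ofReal_mul]
        exact mul_le_mul_of_nonneg_left (h5 _) (hc.nonneg p)
      refine h9.trans ((Complex.re_le_norm _).trans (f.le_of_opNorm_le_of_le le_rfl (h7.trans ?_)))
      exact mul_le_mul_of_nonneg_left (by linarith [dl_anti (Nat.le_succ j)]) C0
    · obtain ⟨i, rfl⟩ := hJ p hp
      obtain ⟨i', -, rfl⟩ := Finset.mem_image.1 hq
      rw [lo1, map_smul, s.P_zero_of_le (Nat.succ_le_succ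
        (hm.monotone (Nat.le_of_lt_succ (hm.lt_iff_lt.1 h)))) (h3 _), smul_zero]
    · obtain ⟨i, rfl⟩ := hJ p hp
      rw [lo1, map_smul, ts, h4]
    · rw [norm_smul, h2, one_mul]
      exact hx.bdd _
    · obtain ⟨k₀, hk⟩ := hx.exc γ
      have bd : ∀ m, k m ≠ k₀ → ‖s.e (Sum.inr γ) (u m • x (k m))‖ ≤ C * dl j := fun m h =>
        (nn m _).trans_le ((hk _ h).trans (mul_le_mul_of_nonneg_left (dl_anti hγ) C0))
      by_cases h : ∃ i, k (t i) = k₀
      · obtain ⟨i₀, h⟩ := h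
        refine ⟨t (i₀ + 1), fun p hp hne => ?_⟩
        obtain ⟨i, rfl⟩ := hJ p hp
        rw [lo1]
        refine bd _ (h ▸ ?_)
        rcases lt_trichotomy i i₀ with c | rfl | c
        exacts [inj _ _ c, absurd rfl hne, (inj _ _ c).symm]
      · exact ⟨0, fun p _ _ => bd _ fun c => h ⟨_, c⟩⟩
  have := ge_of_tendsto' (((dl_tendsto.const_mul 4).const_mul C).const_mul ‖f‖) main
  simp only [mul_zero] at this
  exact absurd this (not_le.2 ε0)

theorem RIS.weak_null (h𝓖 : ∀ j, Null (𝓖 j)) {s : BD 𝓖 a Y} {x : ℕ → Y}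
    (hx : RIS s x) (f : Y →L[ℂ] ℂ) : Tendsto (fun k => f (x k)) atTop (𝓝 0) :=
  tendsto_of_subseq_tendsto fun _ hns =>
    let ⟨_, φ, _, _, h⟩ := (hx.comp hns).exists_sub
    ⟨φ, h.weak_null h𝓖 f⟩

theorem RIS.compact_null (h𝓖 : ∀ j, Null (𝓖 j)) {s : BD 𝓖 a Y} {x : ℕ → Y} (hx : RIS s x)
    {W : Type v} [NormedAddCommGroup W] [NormedSpace ℂ W] (K : Y →L[ℂ] W)
    (hK : IsCompactOperator K) : Tendsto (fun k => K (x k)) atTop (𝓝 0) := by
  obtain ⟨C, hC⟩ := hx.blk.bdd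
  obtain ⟨A, hA, h⟩ := hK.image_closedBall_subset_compact (f := (K : Y →ₗ[ℂ] W)) C
  refine tendsto_of_subseq_tendsto fun ns hns => ?_
  obtain ⟨w, -, φ, hφ, hw⟩ := hA.tendsto_subseq (x := fun k => K (x (ns k)))
    fun k => h ⟨_, mem_closedBall_zero_iff.2 (hC _), rfl⟩
  obtain rfl : w = 0 := SeparatingDual.eq_zero_of_forall_dual_eq_zero (R := ℂ) fun g =>
    tendsto_nhds_unique ((g.continuous.tendsto w).comp hw)
      ((hx.weak_null h𝓖 (g.comp K)).comp (hns.comp hφ.tendsto_atTop))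
  exact ⟨φ, hw⟩

theorem exists_RIS (ha : a < 2) (s : BD 𝓖 a Y) : ∃ y : ℕ → Y, RIS s y ∧ ∀ k, 1 ≤ ‖y k‖ := by
  choose g h1 _ h3 using fun k => s.t.rich_root (4 * k + 2 * a) (by unfold cls; omega) k
  choose y h4 h5 h6 h7 using s.unit
  refine ⟨fun k => y (g k), ⟨⟨fun k => ⟨_, h5 _⟩, fun n => ?_, s.M, fun k => h6 _⟩,
    (1 + s.M) * s.M, fun h => ?_⟩, fun k => ?_⟩
  · filter_upwards [eventually_ge_atTop n] with k hk
    exact s.P_zero_of_le (hk.trans (h1 k)) (h4 _)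
  · filter_upwards [eventually_gt_atTop h] with k hk γ hγ
    refine (s.loc (h5 _) γ fun ξ a1 a2 => s.e_zero ?_ (h4 _)).trans ?_
    · refine lt_of_le_of_ne (Nat.le_of_lt_succ a1) fun e => ?_
      have := h3 k
      rw [← e, a2, hγ] at this
      omega
    · rw [hγ]
      exact mul_le_mul_of_nonneg_right (mul_le_mul_of_nonneg_left (h6 _) (by linarith [s.two_le]))
        (dl_pos h).le
  · simpa [h7] using s.e_le (Sum.inr (g k)) (y (g k))

theorem ris_diag {p : ℕ → ℕ → Prop} (h : ∀ N, ∀ᶠ k in atTop, p N k) :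
    ∃ g : ℕ → ℕ, Tendsto g atTop atTop ∧ ∀ᶠ k in atTop, p (g k) k := by
  classical
  refine ⟨fun k => Nat.findGreatest (fun N => p N k) k, tendsto_atTop.2 fun N => ?_, ?_⟩
  · filter_upwards [h N, eventually_ge_atTop N] with k h1 h2
    exact Nat.le_findGreatest h2 h1
  · filter_upwards [h 0] with k h1
    exact Nat.findGreatest_spec (P := fun N => p N k) (Nat.zero_le k) h1

theorem ris_blk_null (s : BD 𝓖 a Y) {W : Type v} [NormedAddCommGroup W] [NormedSpace ℂ W]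
    (S : ℕ → Y →L[ℂ] W) (h : ∀ x, RIS s x → Tendsto (fun k => S k (x k)) atTop (𝓝 0))
    {x : ℕ → Y} (hx : Blk s x) : Tendsto (fun k => S k (x k)) atTop (𝓝 0) := by
  obtain ⟨C, hC⟩ := hx.bdd
  choose n hn using hx.fin
  obtain ⟨l, hl, hl'⟩ := ris_diag hx.far
  have C0 : 0 ≤ C := (norm_nonneg _).trans (hC 0)
  have M0 : 0 ≤ s.M := by linarith [s.two_le]
  have key : ∀ k N, ∃ y : Y, s.P (l k) y = 0 ∧ s.P (n k) y = y ∧ ‖y‖ ≤ s.M * C ∧
      (∀ γ < n k, N < s.t.w γ → s.e (Sum.inr γ) y = 0) ∧ (s.P (l k) (x k) = 0 →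
        ∀ γ < n k, s.t.w γ ≤ N → s.e (Sum.inr γ) y = s.e (Sum.inr γ) (x k)) := fun k N => by
    by_cases c : s.P (l k) (x k) = 0
    · obtain ⟨y, a1, a2, a3, a4, a5⟩ := s.split (x k) (l k) (n k) {γ | s.t.w γ ≤ N} c (hn k)
      exact ⟨y, a1, a2, a3.trans (mul_le_mul_of_nonneg_left (hC k) M0),
        fun γ b1 b2 => a5 γ b1 (not_le.2 b2), fun _ => a4⟩
    · exact ⟨0, map_zero _, map_zero _, by rw [norm_zero]; positivity, fun _ _ _ => map_zero _,
        fun c' => absurd c' c⟩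
  choose y y1 y2 y3 y4 y5 using key
  have far : ∀ (N : ℕ → ℕ) m, ∀ᶠ k in atTop, s.P m (y k (N k)) = 0 := fun N m =>
    (hl.eventually_ge_atTop m).mono fun k hk => s.P_zero_of_le hk (y1 _ _)
  have r1 : ∀ N, RIS s fun k => y k N := fun N => by
    refine ⟨⟨fun k => ⟨_, y2 _ _⟩, far fun _ => N, _, fun k => y3 _ _⟩,
      (1 + s.M) * (s.M * C) + s.M * C / dl N, fun j => Eventually.of_forall fun k γ hγ => ?_⟩
    have d0 := dl_pos j
    have d1 := dl_pos N
    rw [add_mul]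
    rcases le_or_gt j N with c | c
    · refine ((s.e_le _ _).trans (y3 _ _)).trans (le_add_of_nonneg_of_le (by positivity) ?_)
      rw [div_mul_eq_mul_div, le_div_iff₀ d1]
      exact mul_le_mul_of_nonneg_left (dl_anti c) (by positivity)
    · refine (s.loc (y2 _ _) γ fun ξ a1 a2 => y4 _ _ _ a1 (by omega)).trans
        (le_add_of_le_of_nonneg ?_ (by positivity))
      rw [hγ]
      gcongr
      exact y3 _ _
  obtain ⟨N, hN, hN'⟩ := ris_diag (p := fun N k => ‖S k (y k N)‖ < 1 / ((N : ℝ) + 1)) fun N =>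
    NormedAddGroup.tendsto_nhds_zero.1 (h _ (r1 N)) _ (by positivity)
  have t1 : Tendsto (fun k => S k (y k (N k))) atTop (𝓝 0) :=
    squeeze_zero_norm' (hN'.mono fun _ h => h.le)
      (tendsto_one_div_add_atTop_nhds_zero_nat.comp hN)
  have fin : ∀ k, s.P (n k) (x k - y k (N k)) = x k - y k (N k) := fun k => by
    rw [map_sub, hn, y2]
  have bd : ∀ k, ‖x k - y k (N k)‖ ≤ C + s.M * C := fun k => norm_sub_le_of_le (hC k) (y3 _ _)
  have t2 := h (fun k => x k - y k (N k)) ⟨⟨fun k => ⟨_, fin k⟩, fun m => by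
    filter_upwards [hx.far m, far N m] with k a1 a2
    rw [map_sub, a1, a2, sub_zero], _, bd⟩, (1 + s.M) * (C + s.M * C), fun j => by
      filter_upwards [hl', hN.eventually_ge_atTop j] with k a1 a2 γ hγ
      refine (s.loc (fin k) γ fun ξ b1 b2 => ?_).trans ?_
      · rw [map_sub, y5 _ _ a1 ξ b1 (by omega), sub_self]
      · have d0 := dl_pos j
        rw [hγ]
        gcongr
        exact bd k⟩
  simpa using t1.add t2

/-- Uniformly bounded operators that kill all rapidly increasing sequences are small on tails. -/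
theorem tail_of_RIS (s : BD 𝓖 a Y) {W : Type v} [NormedAddCommGroup W] [NormedSpace ℂ W]
    (S : ℕ → Y →L[ℂ] W) (B : ℝ) (hB : ∀ k, ‖S k‖ ≤ B)
    (h : ∀ x, RIS s x → Tendsto (fun k => S k (x k)) atTop (𝓝 0)) :
    Tendsto (fun k => ‖(S k).comp (1 - s.P k)‖) atTop (𝓝 0) := by
  have _ := hB
  have M0 : 0 ≤ s.M := by linarith [s.two_le]
  have key : ∀ k : ℕ, ∃ (v : Y) (n : ℕ), s.P n v = v ∧ ‖v‖ ≤ s.M ∧
      ‖(S k).comp (1 - s.P k)‖ - 1 / ((k : ℝ) + 1) < ‖S k (v - s.P k v)‖ := fun k => by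
    obtain ⟨y, h1, h2⟩ := ((S k).comp (1 - s.P k)).exists_lt_apply_of_lt_opNorm
      (sub_lt_self _ (show 0 < 1 / ((k : ℝ) + 1) by positivity))
    obtain ⟨n, hn⟩ := (((((S k).comp (1 - s.P k)).continuous.tendsto y).comp
      (s.P_tendsto y)).norm.eventually_const_lt h2).exists
    exact ⟨s.P n y, n, by rw [s.P_comp, min_self],
      (s.P_le n y).trans (mul_le_of_le_one_right M0 h1.le), hn⟩
  choose v n h1 h2 h3 using key
  have t := ris_blk_null s S h (x := fun k => v k - s.P k (v k)) ⟨fun k => ⟨max k (n k), by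
    rw [map_sub, s.P_of_le (le_max_right _ _) (h1 k), s.P_comp, min_eq_right (le_max_left _ _)]⟩,
    fun m => (eventually_ge_atTop m).mono fun k hk => by
      rw [map_sub, s.P_comp, min_eq_left hk, sub_self], (1 + s.M) * s.M,
    fun k => (s.Q_le _ _).trans (mul_le_mul_of_nonneg_left (h2 k) (by linarith))⟩
  have t' := t.norm.add (tendsto_one_div_add_atTop_nhds_zero_nat (𝕜 := ℝ))
  rw [norm_zero, add_zero] at t'
  exact squeeze_zero (fun _ => norm_nonneg _) (fun k => by linarith [h3 k]) t'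

end Pool.Agent.Lib.MP_2a83f9_an
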