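import Mathlib
import Pool.Agent.Lib.MP_2a83f9_an.Basic

set_option autoImplicit false

open Filter Topology

noncomputable section

namespace Pool.Agent.Lib.MP_2a83f9_an

universe u v

variable {𝓖 : ℕ → Fam} {a : ℕ} {Y : Type u} [NormedAddCommGroup Y] [NormedSpace ℂ Y]

lemma sep_cf_comb (r t : ℚ) (p q : ℚ × ℚ) : cf (r • p + t • q) = r * cf p + t * cf q := by
  simp only [cf, Prod.fst_add, Prod.snd_add, Prod.smul_fst, Prod.smul_snd, smul_eq_mul]
  push_cast
  ring

lemma sep_cf_zero : cf 0 = 0 := by simp [cf]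

lemma sep_bf_eq (e : Om → Y →L[ℂ] ℂ) {c : Cmb} {S : Finset Om} (h : c.support ⊆ S) (y : Y) :
    bf e c y = ∑ ω ∈ S, cf (c ω) * e ω y := by
  rw [bf, ContinuousLinearMap.sum_apply]
  exact Finset.sum_subset h fun ω _ hω => by
    simp [Finsupp.notMem_support_iff.1 hω, sep_cf_zero]

lemma sep_bsum_eq {c : Cmb} {S : Finset Om} (h : c.support ⊆ S) :
    bsum c = ∑ ω ∈ S, ‖cf (c ω)‖ :=
  Finset.sum_subset h fun ω _ hω => by
    rw [Finsupp.notMem_support_iff.1 hω, sep_cf_zero, norm_zero]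

lemma sep_supp (r t : ℚ) (b c : Cmb) : (r • b + t • c).support ⊆ b.support ∪ c.support :=
  Finsupp.support_add.trans (Finset.union_subset_union Finsupp.support_smul Finsupp.support_smul)

lemma sep_bf_comb (e : Om → Y →L[ℂ] ℂ) (r t : ℚ) (b c : Cmb) (y : Y) :
    bf e (r • b + t • c) y = r * bf e b y + t * bf e c y := by
  rw [sep_bf_eq e (sep_supp r t b c), sep_bf_eq e (Finset.subset_union_left (s₂ := c.support)),
    sep_bf_eq e (Finset.subset_union_right (s₁ := b.support)), Finset.mul_sum, Finset.mul_sum,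
    ← Finset.sum_add_distrib]
  refine Finset.sum_congr rfl fun ω _ => ?_
  rw [Finsupp.add_apply, Finsupp.smul_apply, Finsupp.smul_apply, sep_cf_comb]
  ring

lemma sep_bsum_comb {r t : ℚ} (hr : 0 ≤ r) (ht : 0 ≤ t) (b c : Cmb) :
    bsum (r • b + t • c) ≤ r * bsum b + t * bsum c := by
  rw [sep_bsum_eq (sep_supp r t b c), sep_bsum_eq (Finset.subset_union_left (s₂ := c.support)),
    sep_bsum_eq (Finset.subset_union_right (s₁ := b.support)), Finset.mul_sum, Finset.mul_sum,
    ← Finset.sum_add_distrib]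
  refine Finset.sum_le_sum fun ω _ => ?_
  rw [Finsupp.add_apply, Finsupp.smul_apply, Finsupp.smul_apply, sep_cf_comb]
  refine (norm_add_le _ _).trans (le_of_eq ?_)
  rw [norm_mul, norm_mul, Complex.norm_ratCast, Complex.norm_ratCast,
    abs_of_nonneg (Rat.cast_nonneg.2 hr), abs_of_nonneg (Rat.cast_nonneg.2 ht)]

lemma sep_dense : DenseRange cf := by
  have h := (Rat.denseRange_cast (𝕜 := ℝ)).prodMap (Rat.denseRange_cast (𝕜 := ℝ))
  have := Complex.equivRealProdCLM.symm.surjective.denseRange.comp h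
    Complex.equivRealProdCLM.symm.continuous
  have e : cf = Complex.equivRealProdCLM.symm ∘ Prod.map ((↑) : ℚ → ℝ) ((↑) : ℚ → ℝ) := by
    funext q
    apply Complex.ext <;> simp [cf]
  rwa [e]

/-- The pairs of values of the coded functionals. -/
def sepSet (e : Om → Y →L[ℂ] ℂ) (x y : Y) : Set (ℂ × ℂ) :=
  {p | ∃ b : Cmb, bsum b ≤ 1 ∧ (bf e b x, bf e b y) = p}

lemma sep_convex (e : Om → Y →L[ℂ] ℂ) (x y : Y) : Convex ℝ (closure (sepSet e x y)) := by
  intro p hp q hq r t hr ht hrt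
  obtain rfl : t = 1 - r := by linarith
  have key : ∀ p ∈ sepSet e x y, ∀ q ∈ sepSet e x y,
      r • p + (1 - r) • q ∈ closure (sepSet e x y) := by
    rintro _ ⟨b, hb, rfl⟩ _ ⟨c, hc, rfl⟩
    have h1 : r ∈ closure (Set.Ioo (0 : ℝ) 1 ∩ Set.range ((↑) : ℚ → ℝ)) := by
      refine closure_minimal (Dense.open_subset_closure_inter Rat.denseRange_cast isOpen_Ioo)
        isClosed_closure ?_
      rw [closure_Ioo zero_ne_one]
      exact ⟨hr, by linarith⟩
    refine map_mem_closure (f := fun r : ℝ => r • (bf e b x, bf e b y) + (1 - r) • (bf e c x, bf e c y))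
      (by fun_prop) h1 ?_
    rintro _ ⟨h2, r, rfl⟩
    have h3 : (0 : ℚ) ≤ r := by exact_mod_cast h2.1.le
    have h4 : (0 : ℚ) ≤ 1 - r := by
      have : (r : ℝ) ≤ 1 := h2.2.le
      have : r ≤ 1 := by exact_mod_cast this
      linarith
    refine ⟨r • b + (1 - r) • c, (sep_bsum_comb h3 h4 b c).trans ?_, ?_⟩
    · push_cast
      nlinarith [h2.1, h2.2]
    · rw [sep_bf_comb, sep_bf_comb]
      ext <;> simp
  have := map_mem_closure₂ (f := fun p q : ℂ × ℂ => r • p + (1 - r) • q) (by fun_prop) hp hq key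
  rwa [closure_closure] at this

lemma sep_mem (e : Om → Y →L[ℂ] ℂ) (x y : Y) (ω : Om) {u : ℂ} (hu : ‖u‖ ≤ 1) :
    (u * e ω x, u * e ω y) ∈ closure (sepSet e x y) := by
  have h1 : u ∈ closure (Metric.ball (0 : ℂ) 1 ∩ Set.range cf) := by
    refine closure_minimal (Dense.open_subset_closure_inter sep_dense Metric.isOpen_ball)
      isClosed_closure ?_
    rw [closure_ball _ one_ne_zero]
    simpa using hu
  refine map_mem_closure (f := fun u : ℂ => (u * e ω x, u * e ω y)) (by fun_prop) h1 ?_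
  rintro _ ⟨h2, q, rfl⟩
  refine ⟨Finsupp.single ω q, ?_, ?_⟩
  · rw [sep_bsum_eq Finsupp.support_single_subset]
    simpa using (mem_ball_zero_iff.1 h2).le
  · rw [sep_bf_eq e Finsupp.support_single_subset, sep_bf_eq e Finsupp.support_single_subset]
    simp

theorem BD.sep (s : BD 𝓖 a Y) (x y : Y) {δ ε : ℝ} (hδ : 0 < δ) (hε : 0 < ε)
    (h : ∀ c : ℂ, δ ≤ ‖y - c • x‖) :
    ∃ b : Cmb, bsum b ≤ 1 ∧ ‖bf s.e b x‖ ≤ ε ∧ δ / 2 ≤ (bf s.e b y).re := by
  have key : ((0 : ℂ), (δ : ℂ)) ∈ closure (sepSet s.e x y) := by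
    by_contra hn
    obtain ⟨f, u, f1, f2⟩ := RCLike.geometric_hahn_banach_closed_point (𝕜 := ℂ)
      (sep_convex s.e x y) isClosed_closure hn
    have hf : ∀ p q : ℂ, f (p, q) = p * f (1, 0) + q * f (0, 1) := fun p q => by
      rw [← smul_eq_mul, ← smul_eq_mul, ← map_smul, ← map_smul, ← map_add]
      congr 1
      simp
    set α := f (1, 0)
    set β := f (0, 1)
    have h1 : ∀ ω, ‖s.e ω (α • x + β • y)‖ < u := fun ω => by
      obtain ⟨w, w1, w2⟩ := Complex.exists_norm_eq_mul_self (s.e ω (α • x + β • y))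
      have := f1 _ (sep_mem s.e x y ω w1.le)
      rw [hf] at this
      have e : w * s.e ω x * α + w * s.e ω y * β = (‖s.e ω (α • x + β • y)‖ : ℂ) := by
        rw [w2, map_add, map_smul, map_smul, smul_eq_mul, smul_eq_mul]
        ring
      rw [e] at this
      simpa using this
    have h2 := s.norming _ u ((norm_nonneg _).trans (h1 (Sum.inl 0)).le) fun ω => (h1 ω).le
    have h3 : u < δ * ‖β‖ := by
      rw [hf] at f2
      refine f2.trans_le ((RCLike.re_le_norm _).trans (le_of_eq ?_))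
      rw [zero_mul, zero_add, norm_mul, Complex.norm_real, Real.norm_of_nonneg hδ.le]
    have h4 : β ≠ 0 := by
      rintro hβ
      rw [hβ, norm_zero, mul_zero] at h3
      linarith [norm_nonneg (α • x + β • y)]
    have h5 : α • x + β • y = β • (y - (-(α / β)) • x) := by
      rw [smul_sub, smul_smul, mul_neg, mul_div_cancel₀ _ h4, neg_smul, sub_neg_eq_add, add_comm]
    rw [h5, norm_smul] at h2
    nlinarith [h (-(α / β)), norm_pos_iff.2 h4]
  obtain ⟨_, ⟨b, hb, rfl⟩, h1⟩ := Metric.mem_closure_iff.1 key (min ε (δ / 2)) (by positivity)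
  rw [Prod.dist_eq, max_lt_iff, lt_min_iff, lt_min_iff] at h1
  refine ⟨b, hb, by simpa using h1.1.1.le, ?_⟩
  have h2 := h1.2.2
  rw [dist_eq_norm] at h2
  have h3 := (Complex.re_le_norm _).trans h2.le
  simp only [Complex.sub_re, Complex.ofReal_re] at h3
  linarith

end Pool.Agent.Lib.MP_2a83f9_an
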