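import Mathlib
import Pool.Agent.Lib.MP_2a83f9_an.Ris
import Pool.Agent.Lib.MP_2a83f9_an.Sep
import Pool.Agent.Lib.MP_2a83f9_an.Build

set_option autoImplicit false

open Filter Topology

noncomputable section

namespace Pool.Agent.Lib.MP_2a83f9_an

universe u v

variable {𝓖 : ℕ → Fam} {a₁ a₂ : ℕ} {Y₁ : Type u} [NormedAddCommGroup Y₁] [NormedSpace ℂ Y₁]
  {Y₂ : Type v} [NormedAddCommGroup Y₂] [NormedSpace ℂ Y₂]

theorem re_map_cmb_ge (f : Y₁ →L[ℂ] ℂ) {c : ℕ → ℝ} (hc : ∀ p, 0 ≤ c p) {J : Finset ℕ}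
    (hJ : ∑ p ∈ J, c p = 1) (x : ℕ → Y₁) {m : ℝ} (h : ∀ p ∈ J, m ≤ (f (x p)).re) :
    m ≤ (f (cmb c J x)).re := by
  rw [map_cmb, Complex.re_sum]
  calc m = ∑ p ∈ J, c p * m := by rw [← Finset.sum_mul, hJ, one_mul]
    _ ≤ _ := by
      refine Finset.sum_le_sum fun p hp => ?_
      rw [smul_eq_mul, Complex.re_ofReal_mul]
      exact mul_le_mul_of_nonneg_left (h p hp) (hc p)

theorem BD.tail_small (s : BD 𝓖 a₂ Y₂) (y : Y₂) {ε : ℝ} (hε : 0 < ε) :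
    ∃ n, ∀ m, n ≤ m → ‖y - s.P m y‖ ≤ ε := by
  have h1 := (Metric.tendsto_atTop.1 (s.P_tendsto y)) ε hε
  obtain ⟨n, hn⟩ := h1
  refine ⟨n, fun m hm => ?_⟩
  have := hn m hm
  rw [dist_comm, dist_eq_norm] at this
  exact this.le

theorem ev_small {f : ℕ → ℂ} (h : Tendsto f atTop (𝓝 0)) {ε : ℝ} (hε : 0 < ε) :
    ∀ᶠ k in atTop, ‖f k‖ ≤ ε := by
  have h1 := (tendsto_zero_iff_norm_tendsto_zero.1 h).eventually (eventually_le_nhds hε)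
  exact h1

/-- At most one exceptional index. -/
theorem exists_exc {J : Finset ℕ} (E : ℕ → Prop)
    (h : ∀ p ∈ J, ∀ q ∈ J, E p → E q → p = q) : ∃ k₀, ∀ p ∈ J, p ≠ k₀ → ¬ E p := by
  by_cases hE : ∃ q ∈ J, E q
  · obtain ⟨q, hq, hEq⟩ := hE
    exact ⟨q, fun p hp hne hEp => hne (h p hp q hq hEp hEq)⟩
  · exact ⟨0, fun p hp _ hEp => hE ⟨p, hp, hEp⟩⟩

theorem SRIS.exc_comp {s : BD 𝓖 a₁ Y₁} {C : ℝ} {x : ℕ → Y₁} (hx : SRIS s C x) {J : Finset ℕ}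
    {κ : ℕ → ℕ} (hκ : Set.InjOn κ J) (γ : ℕ) :
    ∃ k₀, ∀ p ∈ J, p ≠ k₀ → ‖s.e (Sum.inr γ) ((x ∘ κ) p)‖ ≤ C * dl (s.t.w γ) := by
  obtain ⟨k₁, hk₁⟩ := hx.exc γ
  obtain ⟨k₀, hk₀⟩ := exists_exc (J := J) (fun p => κ p = k₁)
    fun p hp q hq h1 h2 => hκ hp hq (h1.trans h2.symm)
  exact ⟨k₀, fun p hp hne => hk₁ _ (hk₀ p hp hne)⟩

/-- Exact pairs. -/
theorem exact_pair (h𝓖 : ∀ j, Null (𝓖 j)) (s₁ : BD 𝓖 a₁ Y₁) (s₂ : BD 𝓖 a₂ Y₂)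
    (S₁ S₂ : Y₁ →L[ℂ] Y₂) {C : ℝ} {x : ℕ → Y₁} (hx : SRIS s₁ C x) {δ : ℝ} (hδ : 0 < δ)
    (hd : ∀ n, ∀ᶠ k in atTop, ∀ c : ℂ,
      δ ≤ ‖(S₁ (x k) - s₂.P n (S₁ (x k))) - c • (S₂ (x k) - s₂.P n (S₂ (x k)))‖)
    {j : ℕ} (hj : Even j) (hj' : cls j = a₂) (n₀ : ℕ) (Q : ℕ → Prop) (hQ : ∀ᶠ k in atTop, Q k)
    {ε : ℝ} (hε : 0 < ε) :
    ∃ (D J : Finset ℕ) (κ : ℕ → ℕ) (c : ℕ → ℝ) (η : ℕ),
      SccW 𝓖 j D c ∧ BFam s₁ D J (x ∘ κ) C ∧ Set.InjOn κ J ∧ ∑ p ∈ J, c p = 1 ∧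
      (∀ p ∈ J, Q (κ p)) ∧ s₂.t.w η = j ∧ (∀ ζ ∈ s₂.t.D η, n₀ ≤ ζ) ∧
      dl j * δ / 2 - ε ≤ (s₂.e (Sum.inr η) (S₁ (cmb c J (x ∘ κ)))).re ∧
      ‖s₂.e (Sum.inr η) (S₂ (cmb c J (x ∘ κ)))‖ ≤ ε := by
  have hε' : 0 < ε / 6 := by positivity
  obtain ⟨η, κ, lo, n, c, J, hw, hscc, hJ, hsum, hn₀, hp⟩ := build_chain h𝓖 s₂.t hj' n₀
    (fun (ξ k : ℕ) (b : Cmb) (n : ℕ) => ξ ≤ k ∧ k < n ∧ Q k ∧ s₁.P (ξ + 1) (x k) = 0 ∧
      s₁.P n (x k) = x k ∧ ‖s₂.e (Sum.inr ξ) (S₁ (x k))‖ ≤ ε / 6 ∧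
      ‖s₂.e (Sum.inr ξ) (S₂ (x k))‖ ≤ ε / 6 ∧
      (∀ m, n ≤ m → ‖S₁ (x k) - s₂.P m (S₁ (x k))‖ ≤ ε / 6) ∧
      (∀ m, n ≤ m → ‖S₂ (x k) - s₂.P m (S₂ (x k))‖ ≤ ε / 6) ∧
      ‖bf s₂.e b (S₂ (x k) - s₂.P (ξ + 1) (S₂ (x k)))‖ ≤ ε / 6 ∧
      δ / 2 ≤ (bf s₂.e b (S₁ (x k) - s₂.P (ξ + 1) (S₁ (x k)))).re)
    (fun ξ _ => by
      have e₁ := ev_small (hx.weak_null h𝓖 ((s₂.e (Sum.inr ξ)).comp S₁)) hε'
      have e₂ := ev_small (hx.weak_null h𝓖 ((s₂.e (Sum.inr ξ)).comp S₂)) hε'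
      obtain ⟨k, h1, h2, h3, h4, h5, h6⟩ := ((eventually_ge_atTop ξ).and (hQ.and
        ((hx.far (ξ + 1)).and (e₁.and (e₂.and (hd (ξ + 1))))))).exists
      obtain ⟨b, hb, hb₁, hb₂⟩ := s₂.sep _ _ hδ hε' h6
      obtain ⟨n₁, hn₁⟩ := hx.fin k
      obtain ⟨n₂, hn₂⟩ := s₂.tail_small (S₁ (x k)) hε'
      obtain ⟨n₃, hn₃⟩ := s₂.tail_small (S₂ (x k)) hε'
      refine ⟨k, b, k + 1 + n₁ + n₂ + n₃, hb, fun ho => absurd hj (Nat.not_even_iff_odd.2 ho),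
        h1, by omega, h2, h3, s₁.P_of_le (by omega) hn₁, h4, h5,
        fun m hm => hn₂ m (by omega), fun m hm => hn₃ m (by omega), hb₁, hb₂⟩)
  have d₀ := dl_pos j
  have d₁ := dl_le j
  refine ⟨s₂.t.D η, J, κ, c, η, hscc, ⟨hJ, ?_, ?_, fun p _ => hx.bdd _⟩, ?_, hsum,
    fun p h => (hp p h).2.2.2.2.2.2.1, hw, hn₀, ?_, ?_⟩
  · intro p h q hq hqp
    obtain ⟨-, -, h3, -, -, -, -, h4, -⟩ := hp p h
    exact s₁.P_zero_of_le (by have := h3 q hq hqp; omega) h4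
  · intro p h
    obtain ⟨-, -, -, h3, -, -, -, -, h4, -⟩ := hp p h
    exact s₁.P_of_le (by omega) h4
  · have key : ∀ p ∈ J, ∀ q ∈ J, p < q → κ p < κ q := by
      intro p h q h' hlt
      obtain ⟨-, -, -, h3, -, h4, -⟩ := hp p h
      obtain ⟨-, -, h5, -, h6, -⟩ := hp q h'
      have := h5 p (hJ h) hlt
      omega
    intro p h q h' he
    rcases lt_trichotomy p q with hlt | heq | hlt
    · exact absurd he (key p h q h' hlt).ne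
    · exact heq
    · exact absurd he (key q h' p h hlt).ne'
  · refine re_map_cmb_ge ((s₂.e (Sum.inr η)).comp S₁) hscc.nonneg hsum _ fun p h => ?_
    obtain ⟨h1, -, -, h3, -, -, -, -, -, h4, -, h5, -, -, h6⟩ := hp p h
    have h7 := s₂.eval_link (hJ h) h1 (S₁ (x (κ p)))
    rw [hw] at h7
    have h8 := h5 p h3
    have h9 := h5 (p + 1) (by omega)
    have h10 := (Complex.abs_re_le_norm _).trans h7
    rw [Complex.sub_re, Complex.re_ofReal_mul] at h10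
    have h11 := (abs_le.1 h10).1
    have h12 := mul_le_mul_of_nonneg_left h6 d₀.le
    change _ ≤ (s₂.e (Sum.inr η) (S₁ (x (κ p)))).re
    linarith
  · have h0 := norm_map_cmb_le ((s₂.e (Sum.inr η)).comp S₂) hscc.nonneg J (x ∘ κ) (m := ε)
      fun p h => by
        obtain ⟨h1, -, -, h3, -, -, -, -, -, -, h4, -, h5, h6, -⟩ := hp p h
        have h7 := s₂.eval_link (hJ h) h1 (S₂ (x (κ p)))
        rw [hw] at h7
        have h8 := h5 p h3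
        have h9 := h5 (p + 1) (by omega)
        have h10 := norm_le_norm_sub_add (s₂.e (Sum.inr η) (S₂ (x (κ p))))
          ((dl j : ℂ) * bf s₂.e (s₂.t.b p) (S₂ (x (κ p)) - s₂.P (lo p + 1) (S₂ (x (κ p)))))
        rw [norm_mul, norm_dl] at h10
        have h11 := mul_le_mul_of_nonneg_left h6 d₀.le
        change ‖s₂.e (Sum.inr η) (S₂ (x (κ p)))‖ ≤ ε
        nlinarith
    rw [hsum, mul_one] at h0
    exact h0

theorem exists_dl_lt (r : ℕ) {K δ : ℝ} (hδ : 0 < δ) : ∃ i, K * dl (4 * i + r) < δ := by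
  have h1 : Tendsto (fun j => K * dl j) atTop (𝓝 0) := by
    simpa using dl_tendsto.const_mul K
  obtain ⟨i, hi⟩ := eventually_atTop.1 (h1.eventually (eventually_lt_nhds hδ))
  exact ⟨i, hi _ (by omega)⟩

/-- Operators between spaces of different classes. -/
theorem cross (h𝓖 : ∀ j, Null (𝓖 j)) (s₁ : BD 𝓖 a₁ Y₁) (s₂ : BD 𝓖 a₂ Y₂) (h₂ : a₂ < 2)
    (hne : a₁ ≠ a₂) (S : Y₁ →L[ℂ] Y₂) {x : ℕ → Y₁} (hx : RIS s₁ x) {δ : ℝ} (hδ : 0 < δ) :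
    ∃ n, ∀ᶠ k in atTop, ‖S (x k) - s₂.P n (S (x k))‖ ≤ δ := by
  by_contra hcon
  have h1 : ∀ n, ∃ k, n ≤ k ∧ δ < ‖S (x k) - s₂.P n (S (x k))‖ := by
    intro n
    by_contra h2
    refine hcon ⟨n, eventually_atTop.2 ⟨n, fun k hk => ?_⟩⟩
    by_contra h3
    exact h2 ⟨k, hk, not_le.1 h3⟩
  choose φ hφ hφ' using h1
  obtain ⟨C, ψ, hC, hψ, hs⟩ := (hx.comp (tendsto_atTop_mono hφ tendsto_id)).exists_sub
  have hM : 0 < 1 + s₂.M := by linarith [s₂.two_le]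
  have hδ' : 0 < δ / (1 + s₂.M) := by positivity
  obtain ⟨i, hi⟩ := exists_dl_lt (2 * a₂) (K := ‖S‖ * (4 * C)) (δ := δ / (1 + s₂.M) / 4)
    (by positivity)
  set j := 4 * i + 2 * a₂ with hj
  have hcls : cls j = a₂ := by unfold cls; omega
  have d₀ := dl_pos j
  obtain ⟨D, J, κ, c, η, hscc, hB, hκ, -, -, -, -, hlow, -⟩ := exact_pair h𝓖 s₁ s₂ S 0 hs hδ'
    (fun n => eventually_atTop.2 ⟨n, fun k hk c => by
      have h2 := hφ' (ψ k)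
      have h3 : n ≤ ψ k := hk.trans hψ.le_apply
      have h4 := s₂.Q_le (ψ k) (S (x (φ (ψ k))) - s₂.P n (S (x (φ (ψ k)))))
      rw [map_sub, s₂.P_comp, min_eq_right h3, sub_sub_sub_cancel_right] at h4
      simp only [zero_apply, map_zero, sub_self, smul_zero, sub_zero,
        Function.comp_apply]
      rw [div_le_iff₀ hM]
      linarith⟩)
    (j := j) ⟨2 * i + a₂, by omega⟩ hcls 0 (fun _ => True) (Eventually.of_forall fun _ => trivial)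
    (ε := dl j * (δ / (1 + s₂.M)) / 4) (by positivity)
  have h5 := (scc_est s₁ hB hC hscc (hs.exc_comp hκ)).2.2.2.2 (by rw [hcls]; exact hne.symm)
  have h6 := (Complex.re_le_norm _).trans ((s₂.e_le (Sum.inr η) _).trans
    (S.le_opNorm (cmb c J (((x ∘ φ) ∘ ψ) ∘ κ))))
  have h7 := mul_le_mul_of_nonneg_left h5 (norm_nonneg S)
  have h8 := mul_lt_mul_of_pos_left hi d₀
  nlinarith

end Pool.Agent.Lib.MP_2a83f9_an
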