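import Mathlib
import Pool.Agent.Lib.MP_2a83f9_an.Pair

set_option autoImplicit false

open Filter Topology

noncomputable section

namespace Pool.Agent.Lib.MP_2a83f9_an

universe u v

variable {𝓖 : ℕ → Fam} {a : ℕ} {Y : Type u} [NormedAddCommGroup Y] [NormedSpace ℂ Y]

theorem norm_scale (f : Y →L[ℂ] ℂ) (u : Y) {d m : ℝ} (hd : 0 < d) (h : ‖f u‖ ≤ d * m) :
    ‖f (((d⁻¹ : ℝ) : ℂ) • u)‖ ≤ m := by
  rw [map_smul, norm_smul, Complex.norm_real, Real.norm_eq_abs, abs_of_pos (inv_pos.2 hd),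
    inv_mul_le_iff₀ hd]
  exact h

/-- One link of a dependent sequence. -/
theorem dep_step (h𝓖 : ∀ j, Null (𝓖 j)) (ha : a < 2) (s : BD 𝓖 a Y) (T : Y →L[ℂ] Y) {C : ℝ}
    (hC : 0 ≤ C) {x : ℕ → Y} (hx : SRIS s C x) {δ : ℝ} (hδ : 0 < δ)
    (hd : ∀ n, ∀ᶠ k in atTop, ∀ c : ℂ,
      δ ≤ ‖(T (x k) - s.P n (T (x k))) - c • ((1 : Y →L[ℂ] Y) (x k) -
        s.P n ((1 : Y →L[ℂ] Y) (x k)))‖)
    {ε : ℝ} (hε : 0 < ε) (ξ : ℕ) :
    ∃ (z : Y) (η n : ℕ), s.t.w η = sg a ξ ∧ (∀ ζ ∈ s.t.D η, ξ + 1 ≤ ζ) ∧ s.P (ξ + 1) z = 0 ∧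
      s.P n z = z ∧ ‖z‖ ≤ 4 * C ∧
      (∀ γ, s.t.w γ < sg a ξ → ‖s.e (Sum.inr γ) z‖ ≤ 4 * C * dl (s.t.w γ)) ∧
      (∀ γ, sg a ξ < s.t.w γ → ‖s.e (Sum.inr γ) z‖ ≤ 4 * C * dl (sg a ξ)) ∧
      (∀ γ, Odd (s.t.w γ) → s.t.w γ < sg a ξ →
        (∀ ζ ∈ s.t.D γ, ∀ ξ', s.t.par ζ = some ξ' → sg a ξ' ≠ sg a ξ) →
        ‖s.e (Sum.inr γ) z‖ ≤ 4 * C * dl (s.t.w γ + 1)) ∧
      δ / 2 - ε ≤ (s.e (Sum.inr η) (T z)).re ∧ ‖s.e (Sum.inr η) z‖ ≤ ε ∧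
      ‖s.e (Sum.inr ξ) (T z)‖ ≤ ε ∧ ∀ m, n ≤ m → ‖T z - s.P m (T z)‖ ≤ ε := by
  set j := sg a ξ with hj
  have d₀ := dl_pos j
  have hε' : 0 < dl j * ε := by positivity
  obtain ⟨D, J, κ, c, η, hscc, hB, hκ, hsum, hQ, hw, hn₀, hlow, hsm⟩ :=
    exact_pair h𝓖 s s T 1 hx hδ hd (j := j) ⟨2 * ξ + 2 + a, by rw [hj]; unfold sg; omega⟩
      (by rw [hj]; unfold cls sg; omega) (ξ + 1)
      (fun k => s.P (ξ + 1) (x k) = 0 ∧ ‖s.e (Sum.inr ξ) (T (x k))‖ ≤ dl j * ε)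
      ((hx.far (ξ + 1)).and (ev_small (hx.weak_null h𝓖 ((s.e (Sum.inr ξ)).comp T)) hε')) hε'
  obtain ⟨e₁, e₂, e₃, e₄, -⟩ := scc_est s hB hC hscc (hx.exc_comp hκ)
  set u := cmb c J (x ∘ κ) with hu
  set z : Y := (((dl j)⁻¹ : ℝ) : ℂ) • u with hz
  obtain ⟨n₁, hn₁⟩ := s.tail_small (T z) hε
  refine ⟨z, η, n₁ + (J.sup id + 1), hw, hn₀, ?_, ?_, ?_, fun γ h => ?_, fun γ h => ?_,
    fun γ h h' h'' => ?_, ?_, ?_, ?_, fun m hm => hn₁ m (by omega)⟩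
  · rw [hz, map_smul, hu, map_cmb, Finset.sum_eq_zero, smul_zero]
    intro p hp
    rw [Function.comp_apply, (hQ p hp).1, smul_zero]
  · rw [hz, map_smul, hu, map_cmb]
    congr 1
    refine Finset.sum_congr rfl fun p hp => ?_
    have h1 : p ≤ J.sup id := Finset.le_sup (f := id) hp
    rw [s.P_of_le (by omega) (hB.high p hp)]
  · rw [hz, norm_smul, Complex.norm_real, Real.norm_eq_abs, abs_of_pos (inv_pos.2 d₀),
      inv_mul_le_iff₀ d₀]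
    linarith
  · exact norm_scale _ u d₀ (by have := e₂ γ h; linarith)
  · exact norm_scale _ u d₀ (by have := e₃ γ h; linarith)
  · exact norm_scale _ u d₀ (by have := e₄ γ h h' h''; linarith)
  · rw [hz, map_smul, map_smul, smul_eq_mul, Complex.re_ofReal_mul, le_inv_mul_iff₀ d₀]
    linarith
  · exact norm_scale _ u d₀ hsm
  · refine norm_scale ((s.e (Sum.inr ξ)).comp T) u d₀ ?_
    have h1 := norm_map_cmb_le ((s.e (Sum.inr ξ)).comp T) hscc.nonneg J (x ∘ κ)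
      (m := dl j * ε) fun p hp => (hQ p hp).2
    rw [hsum, mul_one] at h1
    exact h1

theorem dep_main (h𝓖 : ∀ j, Null (𝓖 j)) (ha : a < 2) (s : BD 𝓖 a Y) (T : Y →L[ℂ] Y) {C : ℝ}
    (hC : 0 ≤ C) {x : ℕ → Y} (hx : SRIS s C x) {δ : ℝ} (hδ : 0 < δ)
    (hd : ∀ n, ∀ᶠ k in atTop, ∀ c : ℂ,
      δ ≤ ‖(T (x k) - s.P n (T (x k))) - c • ((1 : Y →L[ℂ] Y) (x k) -
        s.P n ((1 : Y →L[ℂ] Y) (x k)))‖) : False := by
  obtain ⟨i, hi⟩ := exists_dl_lt (2 * a + 1) (K := ‖T‖ * (4 * (4 * C + 1)) + 6) (δ := δ / 2)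
    (by positivity)
  set j := 4 * i + (2 * a + 1) with hj
  have hcls : cls j = a := by unfold cls; omega
  have hodd : Odd j := ⟨2 * i + a, by omega⟩
  have d₀ := dl_pos j
  have d₁ := dl_le j
  have d₂ := dl_succ j
  have d₃ := dl_pos (j + 1)
  obtain ⟨γ₀, z, lo, n, c, J, hw, hscc, hJ, hsum, hn₀, hp⟩ := build_chain h𝓖 s.t hcls j
    (fun (ξ : ℕ) (z : Y) (b : Cmb) (n : ℕ) => ∃ η, b = sing η ∧ (∀ ζ ∈ s.t.D η, ξ + 1 ≤ ζ) ∧
      s.P (ξ + 1) z = 0 ∧ s.P n z = z ∧ ‖z‖ ≤ 4 * C ∧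
      (∀ γ, s.t.w γ < sg a ξ → ‖s.e (Sum.inr γ) z‖ ≤ 4 * C * dl (s.t.w γ)) ∧
      (∀ γ, sg a ξ < s.t.w γ → ‖s.e (Sum.inr γ) z‖ ≤ 4 * C * dl (sg a ξ)) ∧
      (∀ γ, Odd (s.t.w γ) → s.t.w γ < sg a ξ →
        (∀ ζ ∈ s.t.D γ, ∀ ξ', s.t.par ζ = some ξ' → sg a ξ' ≠ sg a ξ) →
        ‖s.e (Sum.inr γ) z‖ ≤ 4 * C * dl (s.t.w γ + 1)) ∧
      δ / 2 - dl (j + 1) ≤ (s.e (Sum.inr η) (T z)).re ∧ ‖s.e (Sum.inr η) z‖ ≤ dl (j + 1) ∧
      ‖s.e (Sum.inr ξ) (T z)‖ ≤ dl (j + 1) ∧ ∀ m, n ≤ m → ‖T z - s.P m (T z)‖ ≤ dl (j + 1))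
    (fun ξ hξ => by
      obtain ⟨z, η, n, h1, h2⟩ := dep_step h𝓖 ha s T hC hx hδ hd d₃ ξ
      exact ⟨z, sing η, n, bsum_sing η, fun _ => ⟨η, rfl, h1, by unfold sg; omega⟩,
        η, rfl, h2⟩)
  have hC' : 0 ≤ 4 * C + 1 := by positivity
  have hB : BFam s (s.t.D γ₀) J z (4 * C + 1) := by
    refine ⟨hJ, fun p h q hq hqp => ?_, fun p h => ?_, fun p h => ?_⟩
    · obtain ⟨-, -, h3, -, η, -, -, h4, -⟩ := hp p h
      exact s.P_zero_of_le (by have := h3 q hq hqp; omega) h4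
    · obtain ⟨-, -, -, h3, η, -, -, -, h4, -⟩ := hp p h
      exact s.P_of_le (by omega) h4
    · obtain ⟨-, -, -, -, η, -, -, -, -, h4, -⟩ := hp p h
      linarith
  have hsg : ∀ p ∈ J, j < sg a (lo p) := fun p h => by
    have := hn₀ _ (hp p h).2.1
    unfold sg
    omega
  have hH : ∀ γ, j ≤ s.t.w γ → ∃ k₀, ∀ p ∈ J, p ≠ k₀ →
      ‖s.e (Sum.inr γ) (z p)‖ ≤ (4 * C + 1) * dl (j + 1) := by
    intro γ hγ
    rcases hγ.lt_or_eq with hγ | hγ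
    · obtain ⟨k₀, hk₀⟩ := exists_exc (J := J) (fun p => sg a (lo p) = s.t.w γ)
        fun p h q h' h1 h2 => by
          have h3 : lo q = lo p := by unfold sg at h1 h2; omega
          exact s.t.child_unique (hJ h) (hJ h') (hp p h).1 (h3 ▸ (hp q h').1)
      refine ⟨k₀, fun p h hne => ?_⟩
      obtain ⟨-, -, -, -, η, -, -, -, -, -, h4, h5, -⟩ := hp p h
      rcases lt_or_gt_of_ne (hk₀ p h hne) with h6 | h6
      · have h7 := h5 γ h6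
        have h8 : dl (sg a (lo p)) ≤ dl (j + 1) := dl_anti (hsg p h)
        nlinarith
      · have h7 := h4 γ h6
        have h8 : dl (s.t.w γ) ≤ dl (j + 1) := dl_anti hγ
        nlinarith
    · obtain ⟨k₀, hk₀⟩ := exists_exc (J := J) (fun p => lo p ∈ s.t.D γ ∧ p ∉ s.t.D γ) (by
        have key : ∀ p ∈ J, ∀ q ∈ J, p ∉ s.t.D γ → lo q ∈ s.t.D γ → ¬ p < q := by
          intro p h q h' h1 h2 hlt
          obtain ⟨-, h3, h4, -⟩ := hp q h'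
          exact h1 (s.t.D_subset h2 (s.t.mem_of_le (hJ h) h3 (h4 p (hJ h) hlt)))
        intro p h q h' h1 h2
        have h3 := key p h q h' h1.2 h2.1
        have h4 := key q h' p h h2.2 h1.1
        omega)
      refine ⟨k₀, fun p h hne => ?_⟩
      obtain ⟨h1, -, -, h3, η, hb, -, h4, h5, -, -, -, h6, -, h7, -⟩ := hp p h
      by_cases hpD : p ∈ s.t.D γ
      · have h8 := s.rec_child p (lo p) (z p) h1
        rw [s.P_of_le h3 h5, h4, sub_zero, s.e_zero (Nat.lt_succ_self _) h4, zero_add, hb,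
          bf_sing] at h8
        rw [s.e_anc hpD (s.P_of_le (by omega) h5), h8, norm_mul, norm_dl]
        have h9 := dl_pos (s.t.w p)
        have h10 := dl_le (s.t.w p)
        have h11 := norm_nonneg (s.e (Sum.inr η) (z p))
        nlinarith
      · have h8 := h6 γ (hγ ▸ hodd) (hγ ▸ hsg p h) fun ζ hζ ξ' hξ' he => by
          have h9 : ξ' = lo p := by unfold sg at he; omega
          exact hk₀ p h hne ⟨h9 ▸ s.t.par_mem hζ hξ', hpD⟩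
        rw [← hγ] at h8
        nlinarith
  have hup := norm_cmb_le s hB hC' hscc d₃.le hH
  have hlow : dl j * (δ / 2) - 6 * dl (j + 1) ≤ (s.e (Sum.inr γ₀) (T (cmb c J z))).re := by
    refine re_map_cmb_ge ((s.e (Sum.inr γ₀)).comp T) hscc.nonneg hsum _ fun p h => ?_
    obtain ⟨h1, -, -, h3, η, hb, h4, -, -, -, -, -, -, h5, -, h6, h7⟩ := hp p h
    have h8 := s.eval_link (hJ h) h1 (T (z p))
    rw [hw, hb, bf_sing, map_sub, s.e_root h4, sub_zero] at h8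
    have h9 := h7 p h3
    have h10 := h7 (p + 1) (by omega)
    have h11 := (Complex.abs_re_le_norm _).trans h8
    rw [Complex.sub_re, Complex.re_ofReal_mul] at h11
    have h12 := (abs_le.1 h11).1
    have h13 := mul_le_mul_of_nonneg_left h5 d₀.le
    change _ ≤ (s.e (Sum.inr γ₀) (T (z p))).re
    nlinarith
  have h6 := (Complex.re_le_norm _).trans ((s.e_le (Sum.inr γ₀) _).trans
    (T.le_opNorm (cmb c J z)))
  have h7 := mul_le_mul_of_nonneg_left hup (norm_nonneg T)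
  have h8 := mul_lt_mul_of_pos_left hi d₀
  rw [d₂] at h7 hlow
  nlinarith

/-- Dependent sequences: an operator acts on a rapidly increasing sequence almost diagonally. -/
theorem dist_small (h𝓖 : ∀ j, Null (𝓖 j)) (ha : a < 2) (s : BD 𝓖 a Y) (T : Y →L[ℂ] Y)
    {x : ℕ → Y} (hx : RIS s x)
    (hR : ∀ m, Tendsto (fun k => s.P m (T (x k))) atTop (𝓝 0)) {δ : ℝ} (hδ : 0 < δ) :
    ∀ᶠ k in atTop, ∃ c : ℂ, ‖T (x k) - c • x k‖ ≤ δ := by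
  by_contra hcon
  have h1 : ∀ n, ∃ k, n ≤ k ∧ ∀ c : ℂ, δ < ‖T (x k) - c • x k‖ := by
    intro n
    by_contra h2
    refine hcon (eventually_atTop.2 ⟨n, fun k hk => ?_⟩)
    by_contra h3
    exact h2 ⟨k, hk, fun c => not_le.1 fun h4 => h3 ⟨c, h4⟩⟩
  choose φ hφ hφ' using h1
  have hφt : Tendsto φ atTop atTop := tendsto_atTop_mono hφ tendsto_id
  obtain ⟨C, ψ, hC, hψ, hs⟩ := (hx.comp hφt).exists_sub
  refine dep_main h𝓖 ha s T hC hs (δ := δ / 2) (by positivity) fun n => ?_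
  have h2 := (tendsto_zero_iff_norm_tendsto_zero.1
    ((hR n).comp (hφt.comp hψ.tendsto_atTop))).eventually (eventually_le_nhds (half_pos hδ))
  filter_upwards [h2, hs.far n] with k h3 h4 c
  have h5 := hφ' (ψ k) c
  simp only [Function.comp_apply, one_apply_eq_self] at h3 h4 ⊢
  rw [h4, sub_zero]
  have h6 := norm_add_le (T (x (φ (ψ k))) - s.P n (T (x (φ (ψ k)))) - c • x (φ (ψ k)))
    (s.P n (T (x (φ (ψ k)))))
  have h7 : T (x (φ (ψ k))) - s.P n (T (x (φ (ψ k)))) - c • x (φ (ψ k)) +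
      s.P n (T (x (φ (ψ k)))) = T (x (φ (ψ k))) - c • x (φ (ψ k)) := by abel
  rw [h7] at h6
  linarith

end Pool.Agent.Lib.MP_2a83f9_an
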