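import Mathlib
import Pool.Agent.Lib.MP_2a83f9_an.Dep

set_option autoImplicit false

open Filter Topology

noncomputable section

namespace Pool.Agent.Lib.MP_2a83f9_an

universe u v

variable {𝓖 : ℕ → Fam} {a : ℕ} {Y : Type u} [NormedAddCommGroup Y] [NormedSpace ℂ Y]

lemma horiz_seq (h𝓖 : ∀ j, Null (𝓖 j)) (ha : a < 2) (s : BD 𝓖 a Y) (T : Y →L[ℂ] Y)
    {x : ℕ → Y} (hx : RIS s x) (hR : ∀ m, Tendsto (fun k => s.P m (T (x k))) atTop (𝓝 0)) :
    ∃ c : ℕ → ℂ, Tendsto (fun k => T (x k) - c k • x k) atTop (𝓝 0) := by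
  have h1 : ∀ k : ℕ, ∃ c : ℂ, ‖T (x k) - c • x k‖ <
      (⨅ c : ℂ, ‖T (x k) - c • x k‖) + 1 / ((k : ℝ) + 1) := fun k =>
    exists_lt_of_ciInf_lt (lt_add_of_pos_right _ (by positivity))
  choose c hc using h1
  refine ⟨c, NormedAddGroup.tendsto_nhds_zero.2 fun ε hε => ?_⟩
  filter_upwards [dist_small h𝓖 ha s T hx hR (half_pos hε),
    (tendsto_one_div_add_atTop_nhds_zero_nat (𝕜 := ℝ)).eventually (gt_mem_nhds (half_pos hε))]
    with k ⟨d, hd⟩ h2
  have h3 : (⨅ c : ℂ, ‖T (x k) - c • x k‖) ≤ ‖T (x k) - d • x k‖ :=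
    ciInf_le ⟨0, by rintro _ ⟨c, rfl⟩; exact norm_nonneg _⟩ d
  linarith [hc k]

lemma horiz_smul {c : ℕ → ℂ} {x : ℕ → Y} (hc : Tendsto c atTop (𝓝 0))
    (hx : ∃ C : ℝ, ∀ k, ‖x k‖ ≤ C) : Tendsto (fun k => c k • x k) atTop (𝓝 0) := by
  obtain ⟨C, hC⟩ := hx
  exact NormedField.tendsto_zero_smul_of_tendsto_zero_of_bounded hc
    ⟨C, eventually_map.2 (Eventually.of_forall hC)⟩

lemma horiz_null (h𝓖 : ∀ j, Null (𝓖 j)) (ha : a < 2) (s : BD 𝓖 a Y) (T : Y →L[ℂ] Y)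
    (hR : ∀ x, RIS s x → ∀ m, Tendsto (fun k => s.P m (T (x k))) atTop (𝓝 0))
    {y : ℕ → Y} (hy : RIS s y) (h1 : ∀ k, 1 ≤ ‖y k‖)
    (h0 : Tendsto (fun k => T (y k)) atTop (𝓝 0)) {x : ℕ → Y} (hx : RIS s x) :
    Tendsto (fun k => T (x k)) atTop (𝓝 0) := by
  choose n hn using hx.blk.fin
  choose i hi using fun k => ((hy.blk.far (n k)).and (eventually_ge_atTop k)).exists
  have hi' : Tendsto i atTop atTop := tendsto_atTop_mono (fun k => (hi k).2) tendsto_id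
  have hz := hx.add (hy.comp hi')
  obtain ⟨μ, hμ⟩ := horiz_seq h𝓖 ha s T hz (hR _ hz)
  obtain ⟨ν, hν⟩ := horiz_seq h𝓖 ha s T hx (hR _ hx)
  have h2 : Tendsto (fun k => T (y (i k))) atTop (𝓝 0) := h0.comp hi'
  have h3 : Tendsto (fun k => (ν k - μ k) • x k - μ k • y (i k)) atTop (𝓝 0) := by
    have := (hμ.sub hν).sub h2
    rw [sub_zero, sub_zero] at this
    refine this.congr fun k => ?_
    simp only [Function.comp_apply, map_add, smul_add, sub_smul]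
    abel
  have h4 : Tendsto μ atTop (𝓝 0) := by
    have := h3.norm.const_mul (1 + s.M)
    rw [norm_zero, mul_zero] at this
    refine squeeze_zero_norm (fun k => le_trans ?_ (s.Q_le (n k) _)) this
    rw [map_sub, map_smul, map_smul, hn, (hi k).1, smul_zero, sub_zero, sub_sub_cancel_left,
      norm_neg, norm_smul]
    exact le_mul_of_one_le_right (norm_nonneg _) (h1 _)
  have := (hμ.add (horiz_smul h4 hz.blk.bdd)).sub h2
  rw [add_zero, sub_zero] at this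
  refine this.congr fun k => ?_
  simp only [Function.comp_apply, map_add]
  abel

theorem horiz (h𝓖 : ∀ j, Null (𝓖 j)) (ha : a < 2) (s : BD 𝓖 a Y) (T : Y →L[ℂ] Y)
    (hR : ∀ x, RIS s x → ∀ m, Tendsto (fun k => s.P m (T (x k))) atTop (𝓝 0)) :
    ∃ l : ℂ, Tendsto (fun n => ‖(T - l • (1 : Y →L[ℂ] Y)).comp (1 - s.P n)‖) atTop (𝓝 0) := by
  obtain ⟨y, hy, h1⟩ := exists_RIS ha s
  obtain ⟨c, hc⟩ := horiz_seq h𝓖 ha s T hy (hR _ hy)
  obtain ⟨C, hC⟩ := hy.blk.bdd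
  obtain ⟨B, hB⟩ := (Metric.isBounded_range_of_tendsto _ hc).exists_norm_le
  have h2 : ∀ k, c k ∈ Metric.closedBall (0 : ℂ) (‖T‖ * C + B) := fun k => by
    have e : c k • y k = T (y k) - (T (y k) - c k • y k) := by abel
    have h3 : ‖c k‖ * ‖y k‖ ≤ ‖T‖ * C + B := by
      rw [← norm_smul, e]
      exact (norm_sub_le _ _).trans (add_le_add (T.le_opNorm_of_le (hC k)) (hB _ ⟨k, rfl⟩))
    exact mem_closedBall_zero_iff.2 ((le_mul_of_one_le_right (norm_nonneg _) (h1 k)).trans h3)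
  obtain ⟨l, -, φ, hφ, hl⟩ := (isCompact_closedBall _ _).tendsto_subseq h2
  have e : ∀ v, (T - l • (1 : Y →L[ℂ] Y)) v = T v - l • v := fun v => rfl
  refine ⟨l, tail_of_RIS s (fun _ => T - l • 1) _ (fun _ => le_rfl) fun x hx => ?_⟩
  refine horiz_null h𝓖 ha s (T - l • 1) (fun x hx m => ?_) (hy.comp hφ.tendsto_atTop)
    (fun k => h1 _) ?_ hx
  · refine (hR x hx m).congr' ?_
    filter_upwards [hx.blk.far m] with k hk
    rw [e, map_sub, map_smul, hk, smul_zero, sub_zero]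
  · have := (hc.comp hφ.tendsto_atTop).add
      (horiz_smul (tendsto_sub_nhds_zero_iff.2 hl) ⟨C, fun k => hC (φ k)⟩)
    rw [add_zero] at this
    refine this.congr fun k => ?_
    simp only [e, Function.comp_apply, sub_smul]
    abel

end Pool.Agent.Lib.MP_2a83f9_an
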