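import Mathlib
import Pool.Agent.Lib.MP_2a83f9_an.Basic

set_option autoImplicit false

open Filter Topology BoundedContinuousFunction

noncomputable section

namespace Pool.Agent.Lib.MP_2a83f9_an

universe u v

section
variable {𝓖 : ℕ → Fam} {a : ℕ} {V : Type u} [NormedAddCommGroup V] [NormedSpace ℂ V]

abbrev SpBig (V : Type u) := V × (ℕ →ᵇ ℂ)

def spEv (g : ℕ) : SpBig V →L[ℂ] ℂ :=
  (BoundedContinuousFunction.evalCLM ℂ g).comp (ContinuousLinearMap.snd ℂ V (ℕ →ᵇ ℂ))

theorem spEv_apply (g : ℕ) (y : SpBig V) : spEv g y = y.2 g := rfl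

def spL (B : Base 𝓖 V) (i m : ℕ) : SpBig V →L[ℂ] ℂ :=
  (B.φ i).comp ((B.R m).comp (ContinuousLinearMap.fst ℂ V (ℕ →ᵇ ℂ)))

theorem spL_apply (B : Base 𝓖 V) (i m : ℕ) (y : SpBig V) : spL B i m y = B.φ i (B.R m y.1) := rfl

def spStep (B : Base 𝓖 V) (t : Tree 𝓖 a) (g : ℕ) (F : ℕ → ℕ → SpBig V →L[ℂ] ℂ) (n : ℕ) :
    SpBig V →L[ℂ] ℂ :=
  if g < n then spEv g else
    (t.par g).elim 0 fun ξ => F ξ n + (dl (t.w g) : ℂ) •
      (bf (Sum.elim (fun i => spL B i n) fun η => F η n) (t.b g) -
        bf (Sum.elim (fun i => spL B i (min n (ξ + 1))) fun η => F η (min n (ξ + 1))) (t.b g))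

theorem bf_congr {W : Type v} [NormedAddCommGroup W] [NormedSpace ℂ W] {e e' : Om → W →L[ℂ] ℂ}
    {c : Cmb} (h : ∀ ω ∈ c.support, e ω = e' ω) : bf e c = bf e' c :=
  Finset.sum_congr rfl fun ω hω => by rw [h ω hω]

theorem bf_congr' {W : Type v} [NormedAddCommGroup W] [NormedSpace ℂ W] {W' : Type v}
    [NormedAddCommGroup W'] [NormedSpace ℂ W'] {e : Om → W →L[ℂ] ℂ} {e' : Om → W' →L[ℂ] ℂ}
    {c : Cmb} {y : W} {y' : W'} (h : ∀ ω ∈ c.support, e ω y = e' ω y') :
    bf e c y = bf e' c y' := by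
  unfold bf
  rw [_root_.sum_apply, _root_.sum_apply]
  exact Finset.sum_congr rfl fun ω hω => by rw [_root_.smul_apply, _root_.smul_apply, h ω hω]

theorem spStep_congr (B : Base 𝓖 V) (t : Tree 𝓖 a) (g : ℕ) {F F' : ℕ → ℕ → SpBig V →L[ℂ] ℂ}
    (h : ∀ η < g, F η = F' η) : spStep B t g F = spStep B t g F' := by
  funext n
  unfold spStep
  rcases hp : t.par g with _ | ξ
  · simp only [Option.elim]
  · have hb : ∀ m, bf (Sum.elim (fun i => spL B i m) fun η => F η m) (t.b g) =
        bf (Sum.elim (fun i => spL B i m) fun η => F' η m) (t.b g) := fun m => by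
      apply bf_congr
      rintro (i | η) hω
      · simp only [Sum.elim_inl]
      · simp only [Sum.elim_inr]
        rw [h η (t.par_supp g ξ hp η hω)]
    simp only [Option.elim]
    rw [hb, hb, h ξ (t.par_lt g ξ hp)]

theorem sp_rec {α : Type v} (z : α) (S : ℕ → (ℕ → α) → α)
    (hS : ∀ g (F F' : ℕ → α), (∀ η < g, F η = F' η) → S g F = S g F') :
    ∃ F : ℕ → α, ∀ g, F g = S g F := by
  refine ⟨fun g => Nat.strongRec (motive := fun _ => α)
    (fun g ih => S g fun η => if h : η < g then ih η h else z) g, fun g => ?_⟩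
  beta_reduce
  rw [Nat.strongRec_eq]
  exact hS g _ _ fun η hη => dif_pos hη

theorem sp_exists (B : Base 𝓖 V) (t : Tree 𝓖 a) :
    ∃ F : ℕ → ℕ → SpBig V →L[ℂ] ℂ, ∀ g n, F g n = spStep B t g F n := by
  obtain ⟨F, hF⟩ := sp_rec 0 (spStep B t) fun g _ _ h => spStep_congr B t g h
  exact ⟨F, fun g n => congrFun (hF g) n⟩

def spF (B : Base 𝓖 V) (t : Tree 𝓖 a) : ℕ → ℕ → SpBig V →L[ℂ] ℂ := (sp_exists B t).choose

def spE (B : Base 𝓖 V) (t : Tree 𝓖 a) (n : ℕ) : Om → SpBig V →L[ℂ] ℂ :=
  Sum.elim (fun i => spL B i n) fun η => spF B t η n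

variable (B : Base 𝓖 V) (t : Tree 𝓖 a)

theorem spF_lt {g n : ℕ} (h : g < n) (y : SpBig V) : spF B t g n y = y.2 g := by
  have h1 : spF B t g n = _ := (sp_exists B t).choose_spec g n
  rw [h1, spStep, if_pos h]
  rfl

theorem spF_root {g n : ℕ} (h : n ≤ g) (hp : t.par g = none) (y : SpBig V) :
    spF B t g n y = 0 := by
  have h1 : spF B t g n = _ := (sp_exists B t).choose_spec g n
  rw [h1, spStep, if_neg (by omega), hp]
  rfl

theorem spF_child {g n ξ : ℕ} (h : n ≤ g) (hp : t.par g = some ξ) (y : SpBig V) :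
    spF B t g n y = spF B t ξ n y + (dl (t.w g) : ℂ) *
      (bf (spE B t n) (t.b g) y - bf (spE B t (min n (ξ + 1))) (t.b g) y) := by
  have h1 : spF B t g n = _ := (sp_exists B t).choose_spec g n
  rw [h1, spStep, if_neg (by omega), hp]
  rfl

omit [NormedSpace ℂ V] in
theorem sp_snd_le (y : SpBig V) (g : ℕ) : ‖y.2 g‖ ≤ ‖y‖ :=
  (y.2.norm_coe_le_norm g).trans (norm_snd_le y)

theorem sp_R_le (n : ℕ) (v : V) : ‖B.R n v‖ ≤ B.K * ‖v‖ :=
  ((B.R n).le_opNorm v).trans (mul_le_mul_of_nonneg_right (B.R_norm n) (norm_nonneg v))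

theorem sp_φ_le (i : ℕ) (v : V) : ‖B.φ i v‖ ≤ ‖v‖ := by
  have h1 := (B.φ i).le_opNorm v
  have h2 := B.φ_norm i
  have h3 := norm_nonneg v
  nlinarith

theorem spF_le (y : SpBig V) (g : ℕ) : ∀ n, ‖spF B t g n y‖ ≤ B.K * ‖y‖ := by
  have hK := B.two_le
  have hy := norm_nonneg y
  induction g using Nat.strong_induction_on with
  | _ g ih =>
    intro n
    rcases lt_or_ge g n with h | h
    · rw [spF_lt B t h]
      have := sp_snd_le y g
      nlinarith
    · rcases hp : t.par g with _ | ξ
      · rw [spF_root B t h hp, norm_zero]; positivity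
      · have hlt := t.par_lt g ξ hp
        rw [spF_child B t h hp]
        rcases le_or_gt n (ξ + 1) with h1 | h1
        · rw [min_eq_left h1, sub_self, mul_zero, add_zero]
          exact ih ξ hlt n
        · have hb : ∀ m, ‖bf (spE B t m) (t.b g) y‖ ≤ B.K * ‖y‖ := fun m => by
            apply bf_le_of _ (t.par_bsum g ξ hp) y (by positivity)
            rintro (i | η) hω
            · exact (sp_φ_le B i _).trans ((sp_R_le B m _).trans
                (mul_le_mul_of_nonneg_left (norm_fst_le y) (by linarith)))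
            · exact ih η (t.par_supp g ξ hp η hω) m
          rw [spF_lt B t (by omega : ξ < n)]
          refine (norm_add_le _ _).trans ?_
          rw [norm_mul, norm_dl]
          have h2 := sp_snd_le y ξ
          have h3 := norm_sub_le (bf (spE B t n) (t.b g) y)
            (bf (spE B t (min n (ξ + 1))) (t.b g) y)
          have h4 := hb n
          have h5 := hb (min n (ξ + 1))
          have h6 := dl_le (t.w g)
          have h7 := norm_nonneg (bf (spE B t n) (t.b g) y -
            bf (spE B t (min n (ξ + 1))) (t.b g) y)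
          nlinarith

def spP (n : ℕ) : SpBig V →L[ℂ] SpBig V :=
  LinearMap.mkContinuous
    { toFun := fun y => (B.R n y.1, ofNormedAddCommGroupDiscrete (fun g => spF B t g n y)
        (B.K * ‖y‖) fun g => spF_le B t y g n)
      map_add' := fun y z => Prod.ext (by simp) (by ext g; simp)
      map_smul' := fun c y => Prod.ext (by simp) (by ext g; simp) } B.K
    fun y => by
      have hK := B.two_le
      refine norm_prod_le_iff.2 ⟨(sp_R_le B n _).trans
        (mul_le_mul_of_nonneg_left (norm_fst_le y) (by linarith)), ?_⟩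
      exact (BoundedContinuousFunction.norm_le (by positivity)).2 fun g => spF_le B t y g n

theorem spP_fst (n : ℕ) (y : SpBig V) : (spP B t n y).1 = B.R n y.1 := rfl

theorem spP_snd (n : ℕ) (y : SpBig V) (g : ℕ) : (spP B t n y).2 g = spF B t g n y := rfl

theorem spP_le (n : ℕ) (y : SpBig V) : ‖spP B t n y‖ ≤ B.K * ‖y‖ := by
  have hK := B.two_le
  refine norm_prod_le_iff.2 ⟨(sp_R_le B n _).trans
    (mul_le_mul_of_nonneg_left (norm_fst_le y) (by linarith)), ?_⟩
  exact (BoundedContinuousFunction.norm_le (by positivity)).2 fun g => spF_le B t y g n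

theorem spF_P (y : SpBig V) (m g : ℕ) : ∀ n, spF B t g n (spP B t m y) = spF B t g (min n m) y := by
  induction g using Nat.strong_induction_on with
  | _ g ih =>
    intro n
    rcases lt_or_ge g n with h | h
    · rw [spF_lt B t h, spP_snd]
      rcases lt_or_ge g m with h1 | h1
      · rw [spF_lt B t h1, spF_lt B t (lt_min h h1)]
      · rw [min_eq_right (by omega)]
    · rcases hp : t.par g with _ | ξ
      · rw [spF_root B t h hp, spF_root B t ((min_le_left _ _).trans h) hp]
      · have hb : ∀ k, bf (spE B t k) (t.b g) (spP B t m y) = bf (spE B t (min k m)) (t.b g) y :=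
          fun k => by
            apply bf_congr'
            rintro (i | η) hω
            · change B.φ i (B.R k (B.R m y.1)) = B.φ i (B.R (min k m) y.1)
              rw [B.R_comp]
            · exact ih η (t.par_supp g ξ hp η hω) k
        rw [spF_child B t h hp, spF_child B t ((min_le_left _ _).trans h) hp,
          ih ξ (t.par_lt g ξ hp), hb, hb, min_right_comm]

theorem spP_comp (n m : ℕ) (y : SpBig V) : spP B t n (spP B t m y) = spP B t (min n m) y :=
  Prod.ext (B.R_comp n m y.1) (by ext g; exact spF_P B t y m g n)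

theorem spF_zero {m : ℕ} {z : SpBig V} (h1 : B.R m z.1 = 0) (h2 : ∀ g < m, z.2 g = 0) (g : ℕ) :
    ∀ n ≤ m, spF B t g n z = 0 := by
  induction g using Nat.strong_induction_on with
  | _ g ih =>
    intro n hn
    rcases lt_or_ge g n with h | h
    · rw [spF_lt B t h, h2 g (by omega)]
    · rcases hp : t.par g with _ | ξ
      · exact spF_root B t h hp z
      · have hb : ∀ k ≤ m, bf (spE B t k) (t.b g) z = 0 := fun k hk => by
          rw [← map_zero (bf (spE B t k) (t.b g))]
          apply bf_congr'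
          rintro (i | η) hω
          · rw [map_zero]
            change B.φ i (B.R k z.1) = 0
            rw [← min_eq_left hk, ← B.R_comp, h1, map_zero, map_zero]
          · rw [map_zero]
            exact ih η (t.par_supp g ξ hp η hω) k hk
        rw [spF_child B t h hp, ih ξ (t.par_lt g ξ hp) n hn, hb n hn,
          hb _ ((min_le_left _ _).trans hn)]
        simp

theorem spP_zero {m : ℕ} {z : SpBig V} (h1 : B.R m z.1 = 0) (h2 : ∀ g < m, z.2 g = 0) :
    spP B t m z = 0 :=
  Prod.ext h1 (by ext g; exact spF_zero B t h1 h2 g m le_rfl)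

def spY : Submodule ℂ (SpBig V) where
  carrier := {y | Tendsto (fun n => spP B t n y) atTop (𝓝 y)}
  add_mem' := fun {y z} hy hz => by simpa using Tendsto.add hy hz
  zero_mem' := by simp
  smul_mem' := fun c y hy => by simpa using Tendsto.const_smul hy c

theorem spP_mem (n : ℕ) (y : SpBig V) : spP B t n y ∈ spY B t :=
  tendsto_const_nhds.congr' (eventually_atTop.2 ⟨n, fun m hm => by
    simp only [spP_comp, min_eq_right hm]⟩)

theorem spY_closed : IsClosed (spY B t : Set (SpBig V)) := by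
  have hK := B.two_le
  refine isClosed_of_closure_subset fun y hy => ?_
  change Tendsto _ _ _
  rw [Metric.tendsto_atTop]
  intro ε hε
  obtain ⟨z, hz, hyz⟩ := Metric.mem_closure_iff.1 hy (ε / (2 * (B.K + 1))) (by positivity)
  obtain ⟨N, hN⟩ := Metric.tendsto_atTop.1 hz (ε / 2) (by positivity)
  refine ⟨N, fun n hn => ?_⟩
  have h1 := hN n hn
  have h2 := dist_triangle4 (spP B t n y) (spP B t n z) z y
  have h3 : dist (spP B t n y) (spP B t n z) ≤ B.K * dist y z := by
    rw [dist_eq_norm, dist_eq_norm, ← map_sub]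
    exact spP_le B t n _
  rw [lt_div_iff₀ (by positivity)] at hyz
  rw [dist_comm z y] at h2
  nlinarith

/-- The projections with values in the space. -/
def spQ (n : ℕ) : SpBig V →L[ℂ] spY B t := (spP B t n).codRestrict _ (spP_mem B t n)

theorem spQ_coe (n : ℕ) (y : SpBig V) : (spQ B t n y : SpBig V) = spP B t n y := rfl

def spD (g : ℕ) : ℕ →ᵇ ℂ :=
  ofNormedAddCommGroupDiscrete (fun h => if h = g then 1 else 0) 1 fun h => by
    split_ifs <;> simp

theorem spD_apply (g h : ℕ) : spD g h = if h = g then 1 else 0 := rfl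

def spEe (ω : Om) : spY B t →L[ℂ] ℂ :=
  (Sum.elim (fun i => (B.φ i).comp (ContinuousLinearMap.fst ℂ V (ℕ →ᵇ ℂ))) spEv ω).comp
    (spY B t).subtypeL

theorem spEe_le (ω : Om) (y : spY B t) : ‖spEe B t ω y‖ ≤ ‖y‖ := by
  rcases ω with i | g
  · exact (sp_φ_le B i _).trans (norm_fst_le (y : SpBig V))
  · exact sp_snd_le (y : SpBig V) g

theorem spEe_Q (ω : Om) (n : ℕ) (y : SpBig V) : spEe B t ω (spQ B t n y) = spE B t n ω y := by
  rcases ω with i | g <;> rfl

open Classical in
def spBD : BD 𝓖 a (spY B t) where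
  t := t
  e := spEe B t
  P n := (spQ B t n).comp (spY B t).subtypeL
  M := B.K
  two_le := B.two_le
  e_norm ω := ContinuousLinearMap.opNorm_le_bound _ zero_le_one fun y => by
    rw [one_mul]; exact spEe_le B t ω y
  norming y c hc h := norm_prod_le_iff.2 ⟨B.norming _ c hc fun i => h (Sum.inl i),
    (BoundedContinuousFunction.norm_le hc).2 fun g => h (Sum.inr g)⟩
  P_norm n := ContinuousLinearMap.opNorm_le_bound _ (by linarith [B.two_le]) fun y =>
    spP_le B t n y
  P_comp n m y := Subtype.ext (spP_comp B t n m y)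
  P_tendsto y := tendsto_subtype_rng.2 y.2
  coord γ n y h := spF_lt B t h y
  rec_root γ y h := spF_root B t le_rfl h y
  rec_child γ ξ y h := by
    have hlt := t.par_lt γ ξ h
    have h1 := spF_child B t le_rfl h (y : SpBig V)
    rw [min_eq_right (by omega), spF_lt B t hlt] at h1
    have h2 : ∀ k, bf (spEe B t) (t.b γ) (((spQ B t k).comp (spY B t).subtypeL) y) =
        bf (spE B t k) (t.b γ) (y : SpBig V) := fun k =>
      bf_congr' fun ω _ => spEe_Q B t ω k y
    rw [map_sub, h2, h2]
    exact h1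
  leaf j i H h := B.leaf j i H fun h₁ m₁ h₀ m₀ h₂ m₂ l₁ l₂ => by
    obtain ⟨y, y₁, y₂, y₃, y₄⟩ := h h₁ m₁ h₀ m₀ h₂ m₂ l₁ l₂
    exact ⟨(y : SpBig V).1, congrArg (fun z : spY B t => (z : SpBig V).1) y₁,
      congrArg (fun z : spY B t => (z : SpBig V).1) y₂, (norm_fst_le (y : SpBig V)).trans y₃, y₄⟩
  split y s n W hs _ := by
    have hb : ∀ g, ‖(if g ∈ W then (y : SpBig V).2 g else 0)‖ ≤ ‖y‖ := fun g => by
      split_ifs
      · exact sp_snd_le (y : SpBig V) g
      · simp
    refine ⟨spQ B t n (0, ofNormedAddCommGroupDiscrete _ _ hb), Subtype.ext ?_, Subtype.ext ?_,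
      ?_, fun γ h hW => ?_, fun γ h hW => ?_⟩
    · refine (spP_comp B t s n _).trans (spP_zero B t (map_zero _) fun g hg => ?_)
      have h1 : spF B t g s y = 0 := congrArg (fun z : spY B t => (z : SpBig V).2 g) hs
      rw [spF_lt B t (hg.trans_le (min_le_left _ _))] at h1
      change (if g ∈ W then (y : SpBig V).2 g else 0) = 0
      rw [h1, ite_self]
    · refine (spP_comp B t n n _).trans ?_
      rw [min_self]; rfl
    · refine (spP_le B t n _).trans (mul_le_mul_of_nonneg_left ?_ (by linarith [B.two_le]))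
      exact norm_prod_le_iff.2 ⟨by simp, (BoundedContinuousFunction.norm_le (norm_nonneg y)).2 hb⟩
    · exact (spF_lt B t h _).trans (if_pos hW)
    · exact (spF_lt B t h _).trans (if_neg hW)
  unit γ := by
    refine ⟨spQ B t (γ + 1) (0, spD γ), Subtype.ext ?_, Subtype.ext ?_, ?_, ?_⟩
    · refine (spP_comp B t γ (γ + 1) _).trans (spP_zero B t (map_zero _) fun g hg => ?_)
      exact if_neg (by omega)
    · refine (spP_comp B t _ _ _).trans ?_
      rw [min_self]; rfl
    · refine (spP_le B t _ _).trans (mul_le_of_le_one_right (by linarith [B.two_le]) ?_)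
      refine norm_prod_le_iff.2 ⟨by simp, (BoundedContinuousFunction.norm_le zero_le_one).2 ?_⟩
      intro g
      rw [spD_apply]
      split_ifs <;> simp
    · exact (spF_lt B t (Nat.lt_succ_self γ) _).trans (if_pos rfl)

theorem sp_compact (n : ℕ) : IsCompactOperator ((spBD B t).P n -
    ((spQ B t n).comp (ContinuousLinearMap.inl ℂ V (ℕ →ᵇ ℂ))).comp
      ((ContinuousLinearMap.fst ℂ V (ℕ →ᵇ ℂ)).comp (spY B t).subtypeL)) := by
  have h1 : (spBD B t).P n - ((spQ B t n).comp (ContinuousLinearMap.inl ℂ V (ℕ →ᵇ ℂ))).comp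
      ((ContinuousLinearMap.fst ℂ V (ℕ →ᵇ ℂ)).comp (spY B t).subtypeL) =
      ∑ g ∈ Finset.range n, (spEe B t (Sum.inr g)).smulRight (spQ B t n (0, spD g)) := by
    ext1 y
    rw [_root_.sum_apply]
    simp only [ContinuousLinearMap.smulRight_apply, ← map_smul, ← map_sum]
    change spQ B t n y - spQ B t n ((y : SpBig V).1, 0) = _
    rw [← sub_eq_zero, ← map_sub, ← map_sub]
    refine Subtype.ext (spP_zero B t ?_ fun g hg => ?_)
    · simp [Prod.fst_sum]
    · simp only [Prod.snd_sub, Prod.snd_sum, Prod.smul_snd, sub_zero, coe_sub, coe_sum, coe_smul,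
        Pi.sub_apply, Finset.sum_apply, spD_apply, smul_eq_mul, mul_ite, mul_one, mul_zero,
        Finset.sum_ite_eq, Finset.mem_range, hg, if_true]
      exact sub_self _
  rw [h1]
  refine (compactOperator (RingHom.id ℂ) (spY B t) (spY B t)).sum_mem fun g _ => ?_
  exact (isCompactOperator_of_locallyCompactSpace_rng
    (ContinuousLinearMap.toSpanSingleton ℂ (spQ B t n (0, spD g)))).comp_clm (spEe B t (Sum.inr g))

def spLink : Link B (spBD B t) where
  π := (ContinuousLinearMap.fst ℂ V (ℕ →ᵇ ℂ)).comp (spY B t).subtypeL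
  ι n := (spQ B t n).comp (ContinuousLinearMap.inl ℂ V (ℕ →ᵇ ℂ))
  π_norm := ContinuousLinearMap.opNorm_le_bound _ zero_le_one fun y => by
    rw [one_mul]; exact norm_fst_le (y : SpBig V)
  ι_norm n := ContinuousLinearMap.opNorm_le_bound _ (by linarith [(spBD B t).two_le]) fun v =>
    (spP_le B t n (v, 0)).trans (by simp [spBD])
  e_inl _ _ := rfl
  π_ι _ _ := rfl
  ι_R n v := by
    change spQ B t n (B.R n v, 0) = spQ B t n (v, 0)
    rw [← sub_eq_zero, ← map_sub]
    refine Subtype.ext (spP_zero B t ?_ fun g _ => by simp)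
    simp [B.R_comp]
  P_sub n := sp_compact B t n
  ι_sub n m h := by
    have h1 := (sp_compact B t m).comp_clm
      ((spQ B t n).comp (ContinuousLinearMap.inl ℂ V (ℕ →ᵇ ℂ)))
    refine (congrArg IsCompactOperator (funext fun v => Subtype.ext ?_)).mp h1
    change spP B t m (spP B t n (v, 0)) - spP B t m (B.R n v, 0) =
      spP B t n (v, 0) - spP B t m (B.R n v, 0)
    rw [spP_comp, min_eq_right h]

end

theorem exists_BD {𝓖 : ℕ → Fam} {a : ℕ} {V : Type u} [NormedAddCommGroup V] [NormedSpace ℂ V]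
    [CompleteSpace V] (B : Base 𝓖 V) (t : Tree 𝓖 a) :
    ∃ (Y : Type u) (_ : NormedAddCommGroup Y) (_ : NormedSpace ℂ Y) (_ : CompleteSpace Y)
      (s : BD 𝓖 a Y), Nonempty (Link B s) :=
  ⟨spY B t, inferInstance, inferInstance, (spY_closed B t).completeSpace_coe, spBD B t,
    ⟨spLink B t⟩⟩

end Pool.Agent.Lib.MP_2a83f9_an
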