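import Mathlib
import Pool.Agent.Lib.MP_2a83f9_an.Defs

set_option autoImplicit false

open Filter Topology

noncomputable section

namespace Pool.Agent.Lib.MP_2a83f9_an

universe u v

lemma treeEx_rec {β : Type} [Inhabited β] (S : ℕ → (ℕ → β) → β)
    (h : ∀ γ f g, (∀ m < γ, f m = g m) → S γ f = S γ g) : ∃ f : ℕ → β, ∀ γ, f γ = S γ f := by
  refine ⟨WellFounded.fix (C := fun _ => β) Nat.lt_wfRel.wf
    fun γ prev => S γ fun m => if h : m < γ then prev m h else default, fun γ => ?_⟩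
  rw [WellFounded.fix_eq]
  exact h _ _ _ fun m hm => dif_pos hm

/-- validity of a child instruction -/
def treeExVal (𝓖 : ℕ → Fam) (a γ : ℕ) (q : Bool × ℕ × Cmb) (f : ℕ → ℕ × Finset ℕ) : Prop :=
  q.1 = true ∧ q.2.1 < γ ∧ ¬ GoodJ 𝓖 (f q.2.1).1 (f q.2.1).2 ∧ bsum q.2.2 ≤ 1 ∧
    (∀ η, Sum.inr η ∈ q.2.2.support → η < γ) ∧
    (Odd (f q.2.1).1 → ∃ η < γ, q.2.2 = sing η ∧ (f η).1 = sg a q.2.1 ∧ (f q.2.1).1 < sg a q.2.1)

lemma treeExVal.congr {𝓖 : ℕ → Fam} {a γ : ℕ} {q : Bool × ℕ × Cmb} {f g : ℕ → ℕ × Finset ℕ}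
    (h : ∀ m < γ, f m = g m) (hv : treeExVal 𝓖 a γ q f) : treeExVal 𝓖 a γ q g := by
  obtain ⟨h1, h2, h3, h4, h5, h6⟩ := hv
  rw [h _ h2] at h3 h6
  refine ⟨h1, h2, h3, h4, h5, fun ho => ?_⟩
  obtain ⟨η, e1, e2, e3⟩ := h6 ho
  exact ⟨η, e1, e2, h _ e1 ▸ e3⟩

theorem exists_tree (𝓖 : ℕ → Fam) (a : ℕ) (ha : a < 2) : Nonempty (Tree 𝓖 a) := by
  classical
  obtain ⟨s, hs⟩ := exists_surjective_nat (Bool × ℕ × Cmb)
  obtain ⟨ins, hins⟩ : ∃ ins : ℕ → Bool × ℕ × Cmb, ∀ q n, ∃ γ, n ≤ γ ∧ ins γ = q :=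
    ⟨fun γ => s γ.unpair.1, fun q n => by
      obtain ⟨k, rfl⟩ := hs q
      exact ⟨k.pair n, Nat.right_le_pair _ _, by simp⟩⟩
  obtain ⟨f, hf⟩ := treeEx_rec (fun γ f => if treeExVal 𝓖 a γ (ins γ) f then
      ((f (ins γ).2.1).1, insert γ (f (ins γ).2.1).2)
    else (if cls (ins γ).2.1 = a then (ins γ).2.1 else 2 * a, {γ})) fun γ f g h => by
      by_cases hv : treeExVal 𝓖 a γ (ins γ) f
      · rw [if_pos hv, if_pos (hv.congr h), h _ hv.2.1]
      · rw [if_neg hv, if_neg fun hg => hv (treeExVal.congr (fun m hm => (h m hm).symm) hg)]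
  have key : ∀ γ ξ, (if treeExVal 𝓖 a γ (ins γ) f then some (ins γ).2.1 else none) = some ξ →
      treeExVal 𝓖 a γ (ins γ) f ∧ (ins γ).2.1 = ξ ∧ f γ = ((f ξ).1, insert γ (f ξ).2) := by
    intro γ ξ h
    by_cases hv : treeExVal 𝓖 a γ (ins γ) f
    · rw [if_pos hv, Option.some.injEq] at h
      exact ⟨hv, h, by rw [hf γ, if_pos hv, h]⟩
    · simp [hv] at h
  refine ⟨{ w := fun γ => (f γ).1
            par := fun γ => if treeExVal 𝓖 a γ (ins γ) f then some (ins γ).2.1 else none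
            b := fun γ => (ins γ).2.2
            D := fun γ => (f γ).2
            cls_w := fun γ => ?_
            root_D := fun γ h => ?_
            par_lt := fun γ ξ h => (key γ ξ h).2.1 ▸ (key γ ξ h).1.2.1
            par_w := fun γ ξ h => by rw [(key γ ξ h).2.2]
            par_D := fun γ ξ h => by rw [(key γ ξ h).2.2]
            par_good := fun γ ξ h => ?_
            par_bsum := fun γ ξ h => (key γ ξ h).1.2.2.2.1
            par_supp := fun γ ξ h => (key γ ξ h).1.2.2.2.2.1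
            par_odd := fun γ ξ h ho => ?_
            rich_root := fun j hj n => ?_
            rich_child := fun ξ c h1 h2 h3 n => ?_ }⟩
  · induction γ using Nat.strong_induction_on with
    | _ γ ih =>
      rw [hf γ]
      split_ifs with h1 h2
      · exact ih _ h1.2.1
      · exact h2
      · simp only [cls]
        omega
  · rw [hf γ, if_neg fun hv => by simp [hv] at h]
  · obtain ⟨h1, rfl, h3⟩ := key γ ξ h
    rw [h3]
    exact h1.2.2.1
  · obtain ⟨h1, rfl, h3⟩ := key γ ξ h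
    rw [h3] at ho ⊢
    exact (h1.2.2.2.2.2 ho).imp fun η e => e.2
  · obtain ⟨γ, h1, h2⟩ := hins (false, j, 0) n
    have hv : ¬ treeExVal 𝓖 a γ (ins γ) f := fun hv => by simpa [h2] using hv.1
    exact ⟨γ, h1, if_neg hv, by rw [hf γ, if_neg hv, h2, if_pos hj]⟩
  · obtain ⟨γ, g1, g2⟩ := hins (true, ξ, c) (n + ξ + c.support.sup (Sum.elim id id) + 1)
    have g3 : ∀ η, Sum.inr η ∈ c.support → η < γ := fun η hη => by
      have : η ≤ c.support.sup (Sum.elim id id) := Finset.le_sup (f := Sum.elim id id) hη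
      omega
    have hv : treeExVal 𝓖 a γ (ins γ) f := by
      rw [g2]
      exact ⟨rfl, show ξ < γ by omega, h1, h2, g3, fun ho => (h3 ho).imp fun η e =>
        ⟨g3 η (by simp [show c = sing η from e.1, sing]), e⟩⟩
    exact ⟨γ, by omega, by rw [if_pos hv, g2], by rw [g2]⟩

end Pool.Agent.Lib.MP_2a83f9_an
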