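import Mathlib
import Pool.Agent.Lib.MP_2a83f9_an.Horiz
import Pool.Agent.Lib.MP_2a83f9_an.Abstract
import Pool.Agent.Lib.MP_2a83f9_an.Space
import Pool.Agent.Lib.MP_2a83f9_an.TreeEx

set_option autoImplicit false

open Filter Topology

noncomputable section

namespace Pool.Agent.Lib.MP_2a83f9_an

universe u v

section Eqc

variable {E F G : Type*} [NormedAddCommGroup E] [NormedSpace ℂ E] [NormedAddCommGroup F]
  [NormedSpace ℂ F] [NormedAddCommGroup G] [NormedSpace ℂ G]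

/-- Equality modulo compact operators. -/
abbrev Eqc (A B : E →L[ℂ] F) : Prop := SModEq (compactOperator (RingHom.id ℂ) E F) A B

theorem eqc_of {A B : E →L[ℂ] F} (h : IsCompactOperator ⇑(A - B)) : Eqc A B :=
  SModEq.sub_mem.2 h

theorem Eqc.cpt {A B : E →L[ℂ] F} (h : Eqc A B) : IsCompactOperator ⇑(A - B) :=
  SModEq.sub_mem.1 h

theorem Eqc.left {A B : E →L[ℂ] F} (h : Eqc A B) (U : F →L[ℂ] G) : Eqc (U.comp A) (U.comp B) :=
  eqc_of (by rw [← ContinuousLinearMap.comp_sub]; exact h.cpt.clm_comp U)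

theorem Eqc.right {A B : E →L[ℂ] F} (h : Eqc A B) (W : G →L[ℂ] E) : Eqc (A.comp W) (B.comp W) :=
  eqc_of (by rw [← ContinuousLinearMap.sub_comp]; exact h.cpt.comp_clm W)

theorem Eqc.tr {A B C : E →L[ℂ] F} (h : Eqc A B) (h' : Eqc B C) : Eqc A C := SModEq.trans h h'

theorem cal_nonneg (A : E →L[ℂ] E) : 0 ≤ ‖cal A‖ := norm_nonneg (cal A)

theorem Eqc.of_eq {A B : E →L[ℂ] F} (h : A = B) : Eqc A B := h ▸ SModEq.rfl

end Eqc

section Cross

variable {𝓖 : ℕ → Fam} {Z : Type} [NormedAddCommGroup Z] [NormedSpace ℂ Z]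
  {Y : Type u} [NormedAddCommGroup Y] [NormedSpace ℂ Y]

theorem asm_scalar [CompleteSpace Z] (hG : ∀ j, Null (𝓖 j)) (s₀ : BD 𝓖 0 Z)
    (hZ : ∀ n, IsCompactOperator (s₀.P n)) (S : Z →L[ℂ] Z) :
    ∃ l : ℂ, Eqc S (l • (1 : Z →L[ℂ] Z)) := by
  obtain ⟨l, hl⟩ := horiz hG two_pos s₀ S fun x hx m =>
    hx.compact_null hG ((s₀.P m).comp S) ((hZ m).comp_clm S)
  refine ⟨l, eqc_of (isCompactOperator_of_tendsto (l := atTop)
    (F := fun n => (S - l • (1 : Z →L[ℂ] Z)).comp (s₀.P n)) ?_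
    (Eventually.of_forall fun n => (hZ n).clm_comp (S - l • (1 : Z →L[ℂ] Z))))⟩
  refine tendsto_iff_norm_sub_tendsto_zero.2 (hl.congr fun n => ?_)
  rw [norm_sub_rev]
  congr 1
  ext z
  simp

theorem asm_kill (hG : ∀ j, Null (𝓖 j)) (s₀ : BD 𝓖 0 Z) (hZ : ∀ n, IsCompactOperator (s₀.P n))
    (s : BD 𝓖 1 Y) (S : Y →L[ℂ] Z) {x : ℕ → Y} (hx : RIS s x) :
    Tendsto (fun k => S (x k)) atTop (𝓝 0) := by
  refine NormedAddGroup.tendsto_nhds_zero.2 fun ε hε => ?_
  obtain ⟨n, hn⟩ := cross hG s s₀ two_pos one_ne_zero S hx (half_pos hε)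
  filter_upwards [hn, NormedAddGroup.tendsto_nhds_zero.1
    (hx.compact_null hG ((s₀.P n).comp S) ((hZ n).comp_clm S)) _ (half_pos hε)] with k h1 h2
  have h3 := norm_le_norm_sub_add (S (x k)) (s₀.P n (S (x k)))
  rw [ContinuousLinearMap.comp_apply] at h2
  linarith

theorem asm_Q_norm {a : ℕ} (s : BD 𝓖 a Y) (n : ℕ) : ‖1 - s.P n‖ ≤ 1 + s.M :=
  ContinuousLinearMap.opNorm_le_bound _ (by linarith [s.two_le]) fun y => s.Q_le n y

theorem asm_tail (hG : ∀ j, Null (𝓖 j)) (s₀ : BD 𝓖 0 Z) (hZ : ∀ n, IsCompactOperator (s₀.P n))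
    (s : BD 𝓖 1 Y) (S : Z →L[ℂ] Y) (W : Y →L[ℂ] Z) :
    Tendsto (fun n => ‖cal (((1 - s.P n).comp S).comp W)‖) atTop (𝓝 0) := by
  have hM : 0 < 1 + s.M := by linarith [s.two_le]
  have h1 := tail_of_RIS s₀ (fun k => (1 - s.P k).comp S) ((1 + s.M) * ‖S‖)
    (fun k => (ContinuousLinearMap.opNorm_comp_le _ _).trans
      (mul_le_mul_of_nonneg_right (asm_Q_norm s k) (norm_nonneg _))) fun x hx => by
      refine NormedAddGroup.tendsto_nhds_zero.2 fun ε hε => ?_
      obtain ⟨n, hn⟩ := cross hG s₀ s one_lt_two zero_ne_one S hx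
        (show 0 < ε / 2 / (1 + s.M) by positivity)
      filter_upwards [hn, eventually_ge_atTop n] with k h1 h2
      have h3 := s.Q_le k (S (x k) - s.P n (S (x k)))
      rw [map_sub, s.P_comp, min_eq_right h2, sub_sub_sub_cancel_right] at h3
      rw [le_div_iff₀' hM] at h1
      simp only [ContinuousLinearMap.comp_apply, sub_apply,
        one_apply_eq_self]
      linarith
  have h0 := h1.mul_const ‖W‖
  rw [zero_mul] at h0
  refine squeeze_zero (fun _ => cal_nonneg _) (fun n => ?_) h0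
  have h2 : Eqc (1 : Z →L[ℂ] Z) (1 - s₀.P n) := eqc_of (by rw [sub_sub_cancel]; exact hZ n)
  have h3 : cal (((1 - s.P n).comp S).comp W) =
      cal ((((1 - s.P n).comp S).comp (1 - s₀.P n)).comp W) :=
    (h2.left ((1 - s.P n).comp S)).right W
  rw [h3]
  exact (Submodule.Quotient.norm_mk_le _ _).trans (ContinuousLinearMap.opNorm_comp_le _ _)

end Cross

variable {X : Type u} [NormedAddCommGroup X] [NormedSpace ℂ X]

section Main

variable {b : SchauderBasis ℂ X} {𝓖 : ℕ → Fam} {Z : Type} [NormedAddCommGroup Z] [NormedSpace ℂ Z]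
  {V : Type u} [NormedAddCommGroup V] [NormedSpace ℂ V]
  {Y : Type u} [NormedAddCommGroup Y] [NormedSpace ℂ Y]
  (τ : Ten b Z V) {B : Base 𝓖 V} {s : BD 𝓖 1 Y} (k : Link B s)

/-- The lift of an operator on the space with a basis. -/
def asmL (n : ℕ) : (X →L[ℂ] X) →ₗ[ℂ] (Y →L[ℂ] Y) where
  toFun A := (k.ι n).comp ((τ.act A).comp ((τ.act (b.proj n)).comp k.π))
  map_add' A A' := by ext y; simp
  map_smul' c A := by ext y; simp

theorem asmL_apply (n : ℕ) (A : X →L[ℂ] X) (y : Y) :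
    asmL τ k n A y = k.ι n (τ.act A (τ.act (b.proj n) (k.π y))) := rfl

/-- The inclusion of a slice. -/
def asmU (n i : ℕ) : Z →L[ℂ] Y := (k.ι n).comp (τ.tens (b i))

/-- The projection to a slice. -/
def asmW (i : ℕ) : Y →L[ℂ] Z := (τ.sl i).comp k.π

variable {τ}

theorem asm_proj_comp (b : SchauderBasis ℂ X) (n m : ℕ) :
    (b.proj n).comp (b.proj m) = b.proj (min n m) :=
  ContinuousLinearMap.ext fun x => b.proj_comp n m x

theorem asm_norm (hB : ∀ n, B.R n = τ.act (b.proj n)) (n : ℕ) (A : X →L[ℂ] X) :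
    ‖asmL τ k n A‖ ≤ s.M * B.K * ‖A‖ := by
  have h1 := s.two_le
  have h2 := B.two_le
  refine ContinuousLinearMap.opNorm_le_bound _ (by positivity) fun y => ?_
  rw [asmL_apply, ← hB]
  calc _ ≤ s.M * (‖A‖ * (B.K * (1 * ‖y‖))) :=
        (k.ι n).le_of_opNorm_le_of_le (k.ι_norm n) ((τ.act A).le_of_opNorm_le_of_le (τ.act_norm A)
          ((B.R n).le_of_opNorm_le_of_le (B.R_norm n) (k.π.le_of_opNorm_le k.π_norm y)))
    _ = _ := by ring

theorem asm_mul (hB : ∀ n, B.R n = τ.act (b.proj n)) (n : ℕ) (A A' : X →L[ℂ] X) :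
    asmL τ k n A * asmL τ k n A' = asmL τ k n (A * b.proj n * A') := by
  ext y
  rw [mul_apply_eq_comp, asmL_apply, asmL_apply, asmL_apply, k.π_ι, hB,
    τ.act_comp (b.proj n) (b.proj n), asm_proj_comp, min_self, τ.act_comp A, τ.act_comp _ A']
  rfl

theorem asm_stab (hB : ∀ n, B.R n = τ.act (b.proj n)) (n m : ℕ) (A : X →L[ℂ] X) (h : n ≤ m) :
    cal (asmL τ k m (b.proj n * A * b.proj n)) = cal (asmL τ k n A) := by
  refine SModEq.trans (Eqc.of_eq ?_) ((eqc_of (k.ι_sub n m h)).right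
    ((τ.act A).comp ((τ.act (b.proj n)).comp k.π))).symm
  ext y
  simp only [asmL_apply, ContinuousLinearMap.comp_apply, hB, τ.act_comp,
    ContinuousLinearMap.mul_def, ContinuousLinearMap.comp_assoc, asm_proj_comp, min_eq_left h]

theorem asm_low (hG : ∀ j, Null (𝓖 j)) (s₀ : BD 𝓖 0 Z) (hB : ∀ n, B.R n = τ.act (b.proj n))
    (n : ℕ) (A : X →L[ℂ] X) (l : ℂ) (x : X) (hx : b.proj n x = x) :
    ‖l • x + b.proj n (A x)‖ ≤ s.M * ‖cal (l • (1 : Y →L[ℂ] Y) + asmL τ k n A)‖ * ‖x‖ := by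
  have hM : 0 ≤ s.M := by linarith [s.two_le]
  obtain ⟨z, hz, h1⟩ := exists_RIS two_pos s₀
  have key : ∀ T : Y →L[ℂ] Y, Eqc (l • (1 : Y →L[ℂ] Y) + asmL τ k n A) T →
      ‖l • x + b.proj n (A x)‖ ≤ s.M * ‖T‖ * ‖x‖ := fun T hT => by
    have h2 := (hz.compact_null hG _ (hT.right ((k.ι n).comp (τ.tens x))).cpt).norm
    rw [norm_zero] at h2
    refine le_of_sub_nonpos (ge_of_tendsto' h2 fun i => ?_)
    have h3 : k.π ((l • (1 : Y →L[ℂ] Y) + asmL τ k n A) (k.ι n (τ.tens x (z i)))) =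
        τ.tens (l • x + b.proj n (A x)) (z i) := by
      simp only [add_apply, smul_apply,
        one_apply_eq_self, asmL_apply, map_add, map_smul, k.π_ι, hB, τ.act_tens, hx]
    have h4 := k.π.le_of_opNorm_le k.π_norm
      ((l • (1 : Y →L[ℂ] Y) + asmL τ k n A) (k.ι n (τ.tens x (z i))))
    rw [h3, τ.tens_norm, one_mul] at h4
    have h5 := T.le_opNorm_of_le ((k.ι n).le_of_opNorm_le (k.ι_norm n) (τ.tens x (z i)))
    rw [τ.tens_norm] at h5
    have h6 := norm_le_norm_sub_add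
      ((l • (1 : Y →L[ℂ] Y) + asmL τ k n A) (k.ι n (τ.tens x (z i)))) (T (k.ι n (τ.tens x (z i))))
    simp only [sub_apply, ContinuousLinearMap.comp_apply]
    rcases le_or_gt (‖l • x + b.proj n (A x)‖ - s.M * ‖T‖ * ‖x‖) 0 with g | g
    · exact g.trans (norm_nonneg _)
    · nlinarith [mul_le_mul_of_nonneg_left (h1 i) g.le]
  refine le_of_forall_pos_le_add fun ε hε => ?_
  obtain ⟨T, h2, h3⟩ := Submodule.Quotient.norm_mk_lt (cal (l • (1 : Y →L[ℂ] Y) + asmL τ k n A))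
    (show 0 < ε / (s.M * ‖x‖ + 1) by positivity)
  have h4 : ε / (s.M * ‖x‖ + 1) * (s.M * ‖x‖ + 1) = ε := div_mul_cancel₀ _ (by positivity)
  have h5 : 0 < ε / (s.M * ‖x‖ + 1) := by positivity
  nlinarith [key T h2.symm, mul_le_mul_of_nonneg_left h3.le (mul_nonneg hM (norm_nonneg x))]

theorem asm_P (hB : ∀ n, B.R n = τ.act (b.proj n)) (n : ℕ) :
    Eqc (s.P n) (∑ i ∈ Finset.range n, (asmU τ k n i).comp (asmW τ k i)) := by
  refine (eqc_of (k.P_sub n)).trans (Eqc.of_eq ?_)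
  ext y
  rw [ContinuousLinearMap.comp_apply, ← k.ι_R, hB, τ.act_proj, map_sum,
    sum_apply]
  rfl

theorem asm_U (hB : ∀ n, B.R n = τ.act (b.proj n)) {n j : ℕ} (h : j < n) :
    Eqc (asmU τ k n j) (asmU τ k (j + 1) j) := by
  refine SModEq.trans (Eqc.of_eq ?_) ((eqc_of (k.ι_sub (j + 1) n h)).right (τ.tens (b j))).symm
  ext z
  simp only [asmU, ContinuousLinearMap.comp_apply, hB, τ.act_tens, b.proj_apply_basis_mem,
    Nat.lt_succ_self, if_true]

/-- The operator given by a corner of a matrix. -/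
def asmA (b : SchauderBasis ℂ X) (a : ℕ → ℕ → ℂ) (n : ℕ) : X →L[ℂ] X :=
  ∑ i ∈ Finset.range n, ∑ j ∈ Finset.range n, a i j • (b.coord j).smulRight (b i)

theorem asmA_apply (a : ℕ → ℕ → ℂ) (n : ℕ) (x : X) : asmA b a n x =
    ∑ i ∈ Finset.range n, ∑ j ∈ Finset.range n, (a i j * b.coord j x) • b i := by
  simp [asmA, mul_smul]

theorem asm_coord (b : SchauderBasis ℂ X) (n j : ℕ) (x : X) :
    b.coord j (b.proj n x) = if j < n then b.coord j x else 0 := by
  simp [b.proj_apply, b.ortho, Pi.single_apply]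

theorem asm_sum_cut {M : Type*} [AddCommMonoid M] {n m : ℕ} (h : n ≤ m) (f : ℕ → M) :
    ∑ i ∈ Finset.range m, (if i < n then f i else 0) = ∑ i ∈ Finset.range n, f i := by
  rw [← Finset.sum_filter]
  congr 1
  ext i
  simp only [Finset.mem_filter, Finset.mem_range]
  omega

theorem asmA_corner (a : ℕ → ℕ → ℂ) (n m : ℕ) (h : n ≤ m) :
    asmA b a n = b.proj n * asmA b a m * b.proj n := by
  ext x
  rw [mul_apply_eq_comp, mul_apply_eq_comp, asmA_apply, asmA_apply,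
    map_sum, ← asm_sum_cut h]
  refine Finset.sum_congr rfl fun i _ => ?_
  simp only [map_sum, map_smul, asm_coord, b.proj_apply_basis_mem]
  split_ifs with g
  · rw [← asm_sum_cut h]
    refine Finset.sum_congr rfl fun j _ => ?_
    split_ifs <;> simp
  · simp

theorem asmL_A (a : ℕ → ℕ → ℂ) (n : ℕ) : asmL τ k n (asmA b a n) =
    ∑ i ∈ Finset.range n, ∑ j ∈ Finset.range n, a i j • (asmU τ k n i).comp (asmW τ k j) := by
  ext y
  rw [asmL_apply, τ.act_proj, map_sum, map_sum, Finset.sum_comm, sum_apply]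
  refine Finset.sum_congr rfl fun j hj => ?_
  rw [τ.act_tens, asmA_apply, map_sum, sum_apply, map_sum,
    sum_apply]
  refine Finset.sum_congr rfl fun i _ => ?_
  rw [Finset.sum_eq_single_of_mem j hj fun j' _ g => by simp [b.ortho, g]]
  simp [b.ortho, asmU, asmW]

theorem asm_corner (hB : ∀ n, B.R n = τ.act (b.proj n)) (T : Y →L[ℂ] Y) (a : ℕ → ℕ → ℂ)
    (ha : ∀ i j, Eqc ((asmW τ k i).comp (T.comp (asmU τ k (j + 1) j))) (a i j • (1 : Z →L[ℂ] Z)))
    (n : ℕ) : Eqc ((s.P n).comp (T.comp (s.P n))) (asmL τ k n (asmA b a n)) := by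
  refine ((asm_P k hB n).right _).trans ((((asm_P k hB n).left T).left _).trans ?_)
  rw [asmL_A, ContinuousLinearMap.finsetSum_comp]
  refine SModEq.sum fun i _ => ?_
  rw [ContinuousLinearMap.comp_finsetSum, ContinuousLinearMap.comp_finsetSum]
  refine SModEq.sum fun j hj => ?_
  refine (Eqc.of_eq ?_).tr (((((((asm_U k hB (Finset.mem_range.1 hj)).left T).left
    (asmW τ k i)).tr (ha i j)).left (asmU τ k n i)).right (asmW τ k j)).tr (Eqc.of_eq ?_))
  · rfl
  · ext y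
    simp

theorem asm_dense [CompleteSpace Z] (hG : ∀ j, Null (𝓖 j)) (s₀ : BD 𝓖 0 Z)
    (hZ : ∀ n, IsCompactOperator (s₀.P n)) (hB : ∀ n, B.R n = τ.act (b.proj n)) (T : Y →L[ℂ] Y) :
    ∃ (l : ℂ) (A : ℕ → X →L[ℂ] X), (∀ n m, n ≤ m → A n = b.proj n * A m * b.proj n) ∧
      Tendsto (fun n => ‖cal (T - l • (1 : Y →L[ℂ] Y) - asmL τ k n (A n))‖) atTop (𝓝 0) := by
  have hM : 0 < s.M := by linarith [s.two_le]
  obtain ⟨l, hl⟩ := horiz hG one_lt_two s T fun x hx m => by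
    have h1 := hx.compact_null hG _ ((asm_P k hB m).right T).cpt
    have h2 := tendsto_finsetSum (Finset.range m) fun i _ =>
      ((asmU τ k m i).continuous.tendsto 0).comp
        (asm_kill hG s₀ hZ s ((asmW τ k i).comp T) hx)
    simpa using h1.add h2
  set T' := T - l • (1 : Y →L[ℂ] Y) with hT'
  choose a ha using fun i j =>
    asm_scalar hG s₀ hZ ((asmW τ k i).comp (T'.comp (asmU τ k (j + 1) j)))
  refine ⟨l, asmA b a, asmA_corner a, ?_⟩
  have h1 : ∀ r, Tendsto (fun n => ‖cal ((1 - s.P n).comp (T'.comp (s.P r)))‖) atTop (𝓝 0) := by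
    intro r
    have h2 := tendsto_finsetSum (Finset.range r) fun j _ =>
      asm_tail hG s₀ hZ s (T'.comp (asmU τ k r j)) (asmW τ k j)
    rw [Finset.sum_const_zero] at h2
    refine squeeze_zero (fun _ => cal_nonneg _) (fun n => ?_) h2
    have h3 : cal ((1 - s.P n).comp (T'.comp (s.P r))) = ∑ j ∈ Finset.range r,
        cal (((1 - s.P n).comp (T'.comp (asmU τ k r j))).comp (asmW τ k j)) := by
      refine Eq.trans (((asm_P k hB r).left T').left (1 - s.P n)) ?_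
      rw [ContinuousLinearMap.comp_finsetSum, ContinuousLinearMap.comp_finsetSum]
      exact map_sum (compactOperator (RingHom.id ℂ) Y Y).mkQ _ _
    rw [h3]
    exact norm_sum_le (E := Calkin Y) _ _
  refine NormedAddGroup.tendsto_nhds_zero.2 fun ε hε => ?_
  obtain ⟨r, hr⟩ := (NormedAddGroup.tendsto_nhds_zero.1 hl _
    (show 0 < ε / 3 / ((1 + s.M) * s.M) by positivity)).exists
  filter_upwards [NormedAddGroup.tendsto_nhds_zero.1 hl _ (show 0 < ε / 3 by positivity),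
    NormedAddGroup.tendsto_nhds_zero.1 (h1 r) _ (show 0 < ε / 3 by positivity),
    eventually_ge_atTop r] with n h2 h3 h4
  rw [norm_norm] at hr h2 h3 ⊢
  rw [lt_div_iff₀ (by positivity)] at hr
  have h5 : cal (T' - asmL τ k n (asmA b a n)) = cal (T'.comp (1 - s.P n)) +
      cal ((1 - s.P n).comp (T'.comp (s.P r))) +
      cal ((1 - s.P n).comp ((T'.comp (1 - s.P r)).comp (s.P n))) := by
    refine Eq.trans (SModEq.rfl.sub (asm_corner k hB T' a ha n).symm) ?_
    rw [← Submodule.Quotient.mk_add, ← Submodule.Quotient.mk_add]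
    congr 1
    ext y
    simp only [add_apply, sub_apply,
      ContinuousLinearMap.comp_apply, one_apply_eq_self, map_sub, s.P_comp r n,
      min_eq_left h4]
    abel
  have h6 : ‖cal ((1 - s.P n).comp ((T'.comp (1 - s.P r)).comp (s.P n)))‖ ≤
      (1 + s.M) * (‖T'.comp (1 - s.P r)‖ * s.M) :=
    (Submodule.Quotient.norm_mk_le _ _).trans ((ContinuousLinearMap.opNorm_comp_le _ _).trans
      (mul_le_mul (asm_Q_norm s n) ((ContinuousLinearMap.opNorm_comp_le _ _).trans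
        (mul_le_mul_of_nonneg_left (s.P_norm n) (norm_nonneg _))) (norm_nonneg _) (by positivity)))
  have h7 : ‖cal (T'.comp (1 - s.P n))‖ ≤ ‖T'.comp (1 - s.P n)‖ := Submodule.Quotient.norm_mk_le _ _
  rw [h5]
  refine (norm_add₃_le (E := Calkin Y)).trans_lt ?_
  nlinarith

end Main

/-- The zero space as a base space. -/
def asmBase (b : SchauderBasis ℂ X) : Base (famX b) (Fin 0 → ℂ) where
  R _ := 0
  φ _ := 0
  K := 2
  two_le := le_rfl
  R_norm _ := by simp
  R_comp _ _ _ := rfl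
  φ_norm _ := by simp
  norming v c hc _ := by rwa [Subsingleton.elim v 0, norm_zero]
  leaf j i H h := ⟨0, by simp, fun h₁ g₁ h₀ g₀ h₂ g₂ l₁ l₂ => by
    obtain ⟨v, -, -, -, hv⟩ := h h₁ g₁ h₀ g₀ h₂ g₂ l₁ l₂
    exact absurd hv (by simpa using dl_pos (j + 1))⟩

variable [CompleteSpace X]

theorem calkin_main (b : SchauderBasis ℂ X) (hb : Shrinking b) :
    ∃ (Y : Type u) (_ : NormedAddCommGroup Y) (_ : NormedSpace ℂ Y) (_ : CompleteSpace Y),
      ¬ FiniteDimensional ℂ Y ∧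
      CalkinIsoAux Y X := by
  have hG := null_famX hb
  obtain ⟨t₀⟩ := exists_tree (famX b) 0 two_pos
  obtain ⟨t₁⟩ := exists_tree (famX b) 1 one_lt_two
  obtain ⟨Z, _, _, _, s₀, ⟨k₀⟩⟩ := exists_BD (asmBase b) t₀
  have hZ : ∀ n, IsCompactOperator (s₀.P n) := fun n => by
    have h1 : (k₀.ι n).comp k₀.π = 0 := by
      ext z
      rw [ContinuousLinearMap.comp_apply, Subsingleton.elim (k₀.π z) 0, map_zero]
      rfl
    have h2 := (eqc_of (k₀.P_sub n)).cpt
    rwa [h1, sub_zero] at h2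
  obtain ⟨V, _, _, _, τ, B, hB⟩ := exists_ten b (fun n => s₀.e (Sum.inr n)) (fun _ => s₀.e_norm _)
    fun z c hc h => s₀.norming z c hc fun ω => by
      rcases ω with i | n
      · rw [k₀.e_inl, Subsingleton.elim (k₀.π z) 0, map_zero, norm_zero]
        exact hc
      · exact h n
  obtain ⟨Y, _, _, _, s, ⟨k⟩⟩ := exists_BD B t₁
  refine ⟨Y, inferInstance, inferInstance, inferInstance,
    calkin_of_lifts hb (asmL τ k) (s.M * B.K) (asm_norm k hB) (asm_mul k hB) (asm_stab k hB)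
      (fun n A l x hx => (asm_low k hG s₀ hB n A l x hx).trans ?_) (asm_dense k hG s₀ hZ hB)⟩
  have h1 := s.two_le
  have h2 := B.two_le
  gcongr
  nlinarith

end Pool.Agent.Lib.MP_2a83f9_an
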